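import Pool.Agent.Lib.MP_06c549_co.PG.EVEN

/-!
# MP_06c549_co, plane graph: the inequality of Euler's formula, from the exactness EXA
-/

set_option autoImplicit false
set_option linter.unusedSectionVars false

namespace Pool.Agent.Lib.MP06c549

open Finset

namespace PG

/-- the first column of the cell of the column `i` -/
noncomputable def ST (h : ℤ → ℤ) (l i : ℤ) : ℤ :=
  sInf {p : ℤ | l ≤ p ∧ ∀ k, p ≤ k → k ≤ i → h k = h i}

lemma st_spec (h : ℤ → ℤ) (l i : ℤ) (hli : l ≤ i) : l ≤ ST h l i ∧ ST h l i ≤ i ∧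
    (∀ k, ST h l i ≤ k → k ≤ i → h k = h i) ∧ (l < ST h l i → h (ST h l i - 1) ≠ h i) := by
  set T : Set ℤ := {p : ℤ | l ≤ p ∧ ∀ k, p ≤ k → k ≤ i → h k = h i} with hT
  have hiT : i ∈ T := ⟨hli, fun k h1 h2 => by rw [le_antisymm h2 h1]⟩
  have hbd : BddBelow T := ⟨l, fun p hp => hp.1⟩
  have hmem : ST h l i ∈ T := Int.csInf_mem ⟨i, hiT⟩ hbd
  refine ⟨hmem.1, csInf_le hbd hiT, hmem.2, fun hlt hcon => ?_⟩
  have h1 : ST h l i - 1 ∈ T := by
    refine ⟨by omega, fun k hk1 hk2 => ?_⟩
    rcases eq_or_lt_of_le hk1 with h2 | h2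
    · rw [← h2]; exact hcon
    · exact hmem.2 k (by omega) hk2
  have h2 : ST h l i ≤ ST h l i - 1 := csInf_le hbd h1
  omega

lemma st_mem {h : ℤ → ℤ} {l r i : ℤ} (hli : l ≤ i) (hir : i < r) : ST h l i ∈ starts h l r := by
  obtain ⟨a1, a2, a3, a4⟩ := st_spec h l i hli
  rw [mem_starts]
  refine ⟨⟨a1, by omega⟩, ?_⟩
  rcases eq_or_lt_of_le a1 with h1 | h1
  · exact Or.inl h1.symm
  · right
    rw [a3 _ le_rfl a2]
    exact a4 h1

variable {ι E : Type} [Fintype E] [DecidableEq E]

/-- the cells -/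
noncomputable def cellsF (M : RM ι E) : Finset (Σ _ : E, ℤ) :=
  (univ.filter fun C => ¬ M.Fl C).sigma fun C => starts (M.ht C) (M.lo C) (M.hi C)

lemma mem_cellsF {M : RM ι E} {x : Σ _ : E, ℤ} : x ∈ cellsF M ↔
    ¬ M.Fl x.1 ∧ x.2 ∈ starts (M.ht x.1) (M.lo x.1) (M.hi x.1) := by
  simp [cellsF]

lemma cells_cov {M : RM ι E} {x : Σ _ : E, ℤ} (h : x ∈ cellsF M) :
    ¬ M.Fl x.1 ∧ M.Cov x.1 x.2 := by
  rw [mem_cellsF, mem_starts] at h
  exact ⟨h.1, h.2.1⟩

/-- the cell of a run -/
lemma st_cell {M : RM ι E} {C : E} {a : ℤ} (hC : ¬ M.Fl C) (hCa : M.Cov C a) :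
    (⟨C, ST (M.ht C) (M.lo C) a⟩ : Σ _ : E, ℤ) ∈ cellsF M := by
  rw [mem_cellsF]
  exact ⟨hC, st_mem hCa.1 hCa.2⟩

/-- a function which is constant along the cells -/
lemma const_st {A : Type} {M : RM ι E} {H : E → ℤ → A} (hH : Const M H) {C : E} {a : ℤ}
    (hC : ¬ M.Fl C) (hCa : M.Cov C a) : H C (ST (M.ht C) (M.lo C) a) = H C a := by
  obtain ⟨a1, a2, a3, a4⟩ := st_spec (M.ht C) (M.lo C) a hCa.1
  have key : ∀ n : ℕ, ST (M.ht C) (M.lo C) a + n ≤ a →
      H C (ST (M.ht C) (M.lo C) a) = H C (ST (M.ht C) (M.lo C) a + n) := by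
    intro n
    induction n with
    | zero => intro _; simp
    | succ n ih =>
      intro hn
      push_cast at hn ⊢
      rw [ih (by omega), ← add_assoc]
      refine hH C _ hC ⟨by omega, by have := hCa.2; omega⟩ ⟨by omega, by have := hCa.2; omega⟩ ?_
      rw [a3 _ (by omega) (by omega)]
      exact (a3 _ (by omega) (by omega)).symm
  have := key (a - ST (M.ht C) (M.lo C) a).toNat (by rw [Int.toNat_of_nonneg (by omega)]; omega)
  rw [Int.toNat_of_nonneg (by omega)] at this
  rw [this]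
  congr 1
  ring

lemma card_cells (M : RM ι E) : (cellsF M).card = csum M (fun _ _ => (1 : ℕ)) := by
  unfold cellsF csum
  rw [card_sigma]
  exact sum_congr rfl fun C _ => by rw [sum_const, smul_eq_mul, mul_one]

/-- twice the number of the cells -/
lemma two_card_cells {M : RM ι E} (hM : M.Good) : 2 * (cellsF M).card =
    Fintype.card E + (univ.filter fun f => M.RT f).card + (univ.filter fun f => M.rot.RT f).card := by
  have hc : ∀ M : RM ι E, Const M (fun _ _ => (1 : ℕ)) := fun M _ _ _ _ _ _ => rfl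
  have h1 := csum_eq hM (hc M)
  have h2 := csum_rot hM (hc M)
  have h3 := csum_eq (good_rot hM) (hc M.rot)
  rw [← card_cells] at h1 h2
  rw [← h2] at h3
  simp only [sum_const, smul_eq_mul, mul_one] at h1 h3
  have h4 : (univ.filter fun C => ¬ M.rot.Fl C) = univ.filter fun C => M.Fl C := by
    refine filter_congr fun e _ => ?_
    rw [ROT_Fl hM]
    tauto
  rw [h4] at h3
  have h5 := card_filter_add_card_filter_not (s := (univ : Finset E)) (fun C => M.Fl C)
  rw [card_univ] at h5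
  omega

/-- the properties of `Q` in `EXA` -/
structure QX (M : RM ι E) (jt jb : E → ZMod 2) (ut ub : E → E) (Q : ℤ → ℤ → ZMod 2) : Prop where
  vert : ∀ a b, (∀ e, M.Y e = b → ¬ M.Cov e a) → Q a b = Q a (b - 1)
  up : ∀ f b, M.tp f ≤ b → Q (M.X f) b + Q (M.X f - 1) b = if b < M.Y (ut f) then jt f else 0
  down : ∀ f b, b < M.bo f → Q (M.X f) b + Q (M.X f - 1) b = if M.Y (ub f) ≤ b then jb f else 0
  free : ∀ t b, (∀ f, M.X f ≠ t) → Q t b = Q (t - 1) b

/-- `Q` is constant in the rows of a run -/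
lemma QX.run {M : RM ι E} (hM : M.Good) {jt jb : E → ZMod 2} {ut ub : E → E}
    {Q : ℤ → ℤ → ZMod 2} (hQ : QX M jt jb ut ub Q) {C : E} {a : ℤ} (hC : ¬ M.Fl C)
    (hCa : M.Cov C a) : ∀ n : ℕ, M.ht C a ≤ M.Y C - 1 - n →
      Q a (M.Y C - 1 - n) = Q a (M.Y C - 1) := by
  intro n
  induction n with
  | zero => intro _; simp
  | succ n ih =>
    intro hn
    push_cast at hn ⊢
    rw [← ih (by omega)]
    have h1 := hQ.vert a (M.Y C - 1 - n) (by
      intro e he hc
      have := (gBEL ι E M hM C a hC hCa).2.2.2.1 e hc (by omega)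
      change M.Y e ≤ M.ht C a at this
      omega)
    rw [h1]
    congr 1
    ring

/-- `Q` is constant along the cells -/
lemma QX.const {M : RM ι E} (hM : M.Good) {jt jb : E → ZMod 2} {Q : ℤ → ℤ → ZMod 2}
    (hQ : QX M jt jb M.ot M.rot.ot Q) (hjt : ∀ f, jt f ≠ 0 → M.RT f)
    (hjb : ∀ f, jb f ≠ 0 → M.rot.RT f) : Const M (fun C a => Q a (M.Y C - 1)) := by
  intro C a hC h1 h2 h3
  beta_reduce
  by_cases hex : ∃ f, M.X f = a + 1
  · obtain ⟨f, hf⟩ := hex
    have key : Q (M.X f) (M.Y C - 1) + Q (M.X f - 1) (M.Y C - 1) = 0 := by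
      have c1 : M.lo C < M.X f := by have := h1.1; omega
      have c2 : M.X f < M.hi C := by have := h2.2; omega
      have hne : M.Y C ≠ M.Y f ∧ M.Y C ≠ M.Y (M.s.symm f) := by
        constructor
        · intro h
          have := hM.Y_inj h
          subst this
          unfold RM.lo at c1
          unfold RM.hi at c2
          omega
        · intro h
          have := hM.Y_inj h
          have e : M.s C = f := by rw [this, Equiv.apply_symm_apply]
          unfold RM.lo at c1
          unfold RM.hi at c2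
          rw [e] at c1 c2
          omega
      have hnc := hM.nc C f
      have htb : M.bo f ≤ M.tp f := min_le_max
      have hY : M.tp f < M.Y C ∨ M.Y C < M.bo f := by
        unfold RM.tp RM.bo at *
        by_contra hcon
        push Not at hcon
        exact hnc ⟨c1, c2, by omega, by omega⟩
      rcases hY with hY | hY
      · rw [hQ.up f _ (by omega)]
        split_ifs with h4
        · by_contra h5
          have hR := hjt f h5
          have h6 := (specOTM ι E M hM f C (Or.inl ⟨c1.le, c2⟩) hY).2.2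
          have h7 : M.ot f = C := hM.Y_inj (by omega)
          have h8 := ((gLIN ι E M hM).2.1 f hR).2.2.2.2
          rw [h7, hf, add_sub_cancel_right] at h8
          exact h8 h3
        · rfl
      · rw [hQ.down f _ (by omega)]
        split_ifs with h4
        · by_contra h5
          have hR := hjb f h5
          have h6 := (specOTM ι E M.rot (good_rot hM) f C (Or.inl ((cov_rot M C _).2 (by
            rw [rot_X]
            exact ⟨by omega, by omega⟩))) (by
            rw [rot_Y, show M.rot.tp f = - M.bo f from ROTM.tp_rot M f]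
            omega)).2.2
          rw [rot_Y, rot_Y] at h6
          omega
        · rfl
    rw [hf, add_sub_cancel_right] at key
    exact (CharTwo.add_eq_zero.1 key).symm
  · push Not at hex
    have := hQ.free (a + 1) (M.Y C - 1) hex
    rw [add_sub_cancel_right] at this
    exact this.symm

section euler

variable [Fintype ι] [DecidableEq ι]

/-- the reflex ends -/
abbrev RX (M : RM ι E) : Type := {f : E // M.RT f} ⊕ {f : E // M.rot.RT f}

noncomputable instance (M : RM ι E) : Fintype (RX M) := by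
  classical
  unfold RX
  infer_instance

lemma card_RX (M : RM ι E) : Fintype.card (RX M) =
    (univ.filter fun f => M.RT f).card + (univ.filter fun f => M.rot.RT f).card := by
  classical
  have : Fintype.card (RX M) = Fintype.card {f : E // M.RT f} + Fintype.card {f : E // M.rot.RT f} := by
    rw [← Fintype.card_sum]
  rw [this, Fintype.card_subtype, Fintype.card_subtype]

/-- the jumps up of a function on the reflex ends -/
noncomputable def upJ (M : RM ι E) (w : RX M → ZMod 2) (f : E) : ZMod 2 :=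
  if h : M.RT f then w (Sum.inl ⟨f, h⟩) else 0

noncomputable def dnJ (M : RM ι E) (w : RX M → ZMod 2) (f : E) : ZMod 2 :=
  if h : M.rot.RT f then w (Sum.inr ⟨f, h⟩) else 0

/-- the ends of the chords on the components -/
noncomputable def betaL (M : RM ι E) : (RX M → ZMod 2) →ₗ[ZMod 2] (ι → ZMod 2) where
  toFun w i := ∑ f ∈ univ.filter (fun f => M.comp f = i), (upJ M w f + dnJ M w f) +
    ∑ f ∈ univ.filter (fun f => M.comp (M.ot f) = i), upJ M w f +
    ∑ f ∈ univ.filter (fun f => M.comp (M.rot.ot f) = i), dnJ M w f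
  map_add' w w' := by
    have hu : ∀ f, upJ M (w + w') f = upJ M w f + upJ M w' f := by
      intro f; unfold upJ; split_ifs <;> simp
    have hd : ∀ f, dnJ M (w + w') f = dnJ M w f + dnJ M w' f := by
      intro f; unfold dnJ; split_ifs <;> simp
    ext i
    simp only [hu, hd, Pi.add_apply, sum_add_distrib]
    ring
  map_smul' c w := by
    have hu : ∀ f, upJ M (c • w) f = c * upJ M w f := by
      intro f; unfold upJ; split_ifs <;> simp
    have hd : ∀ f, dnJ M (c • w) f = c * dnJ M w f := by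
      intro f; unfold dnJ; split_ifs <;> simp
    ext i
    simp only [hu, hd, RingHom.id_apply, Pi.smul_apply, smul_eq_mul, mul_add, mul_sum,
      sum_add_distrib]

lemma sum_fibers (g : E → ι) (u : E → ZMod 2) :
    ∑ i, ∑ f ∈ univ.filter (fun f => g f = i), u f = ∑ f, u f := by
  exact Finset.sum_fiberwise _ _ _

lemma betaL_sum (M : RM ι E) (w : RX M → ZMod 2) : ∑ i, betaL M w i = 0 := by
  have h1 : ∑ i, betaL M w i = ∑ f, (upJ M w f + dnJ M w f) + ∑ f, upJ M w f + ∑ f, dnJ M w f := by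
    change ∑ i, (∑ f ∈ univ.filter (fun f => M.comp f = i), (upJ M w f + dnJ M w f) +
      ∑ f ∈ univ.filter (fun f => M.comp (M.ot f) = i), upJ M w f +
      ∑ f ∈ univ.filter (fun f => M.comp (M.rot.ot f) = i), dnJ M w f) = _
    rw [sum_add_distrib, sum_add_distrib, sum_fibers M.comp, sum_fibers (fun f => M.comp (M.ot f)),
      sum_fibers (fun f => M.comp (M.rot.ot f))]
  rw [h1, sum_add_distrib]
  have : ∀ x y : ZMod 2, x + y + x + y = 0 := by decide
  exact this _ _

/-- the extension of a function on the cells to the runs -/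
noncomputable def extC (M : RM ι E) (q : {x // x ∈ cellsF M} → ZMod 2) (C : E) (a : ℤ) : ZMod 2 :=
  if h : (⟨C, ST (M.ht C) (M.lo C) a⟩ : Σ _ : E, ℤ) ∈ cellsF M then q ⟨_, h⟩ else 0

/-- the jumps of a function on the cells at the chords -/
noncomputable def jumpL (M : RM ι E) :
    ({x // x ∈ cellsF M} → ZMod 2) →ₗ[ZMod 2] (RX M → ZMod 2) where
  toFun q x := match x with
    | Sum.inl f => extC M q (M.ot f) (M.X f) + extC M q (M.ot f) (M.X f - 1)
    | Sum.inr f => extC M q (M.rot.bel (M.rot.ot f) (M.rot.X f)) (M.X f - 1) +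
        extC M q (M.rot.bel (M.rot.ot f) (M.rot.X f - 1)) (M.X f)
  map_add' q q' := by
    have h : ∀ C a, extC M (q + q') C a = extC M q C a + extC M q' C a := by
      intro C a; unfold extC; split_ifs <;> simp
    ext x
    rcases x with f | f
    · simp only [h, Pi.add_apply]; ring
    · simp only [h, Pi.add_apply]; ring
  map_smul' c q := by
    have h : ∀ C a, extC M (c • q) C a = c * extC M q C a := by
      intro C a; unfold extC; split_ifs <;> simp
    ext x
    rcases x with f | f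
    · simp only [h, RingHom.id_apply, Pi.smul_apply, smul_eq_mul]; ring
    · simp only [h, RingHom.id_apply, Pi.smul_apply, smul_eq_mul]; ring

/-- the columns next to a line, seen from above and from below -/
lemma rot_cols {M : RM ι E} (hM : M.Good) {f : E} (hf : M.rot.RT f) :
    (¬ M.Fl (M.rot.bel (M.rot.ot f) (M.rot.X f)) ∧
      M.Cov (M.rot.bel (M.rot.ot f) (M.rot.X f)) (M.X f - 1) ∧
      M.bel (M.rot.bel (M.rot.ot f) (M.rot.X f)) (M.X f - 1) = M.rot.ot f) ∧
    (¬ M.Fl (M.rot.bel (M.rot.ot f) (M.rot.X f - 1)) ∧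
      M.Cov (M.rot.bel (M.rot.ot f) (M.rot.X f - 1)) (M.X f) ∧
      M.bel (M.rot.bel (M.rot.ot f) (M.rot.X f - 1)) (M.X f) = M.rot.ot f) ∧
    M.Y (M.rot.ot f) < M.bo f := by
  have hrg := good_rot hM
  obtain ⟨c1, c2, c3, c4, c5⟩ := (gLIN ι E M.rot hrg).2.1 f hf
  obtain ⟨p1, p2, p3, p4⟩ := rot_run hrg c1 (a := M.rot.X f) ⟨c2.le, c3⟩
  obtain ⟨q1, q2, q3, q4⟩ := rot_run hrg c1 (a := M.rot.X f - 1) ⟨by omega, by omega⟩
  rw [rot_rot] at p1 p2 p3 q1 q2 q3
  have e1 : -1 - M.rot.X f = M.X f - 1 := by rw [rot_X]; ring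
  have e2 : -1 - (M.rot.X f - 1) = M.X f := by rw [rot_X]; ring
  rw [e1] at p2 p3
  rw [e2] at q2 q3
  have h3 : M.rot.tp f = - M.bo f := ROTM.tp_rot M f
  rw [h3, rot_Y] at c4
  exact ⟨⟨p1, p2, p3⟩, ⟨q1, q2, q3⟩, by omega⟩

/-- EXA gives: balanced jumps come from functions on the cells -/
lemma ker_le_range {M : RM ι E} (hM : M.Good) :
    LinearMap.ker (betaL M) ≤ LinearMap.range (jumpL M) := by
  intro w hw
  rw [LinearMap.mem_ker] at hw
  have hrg := good_rot hM
  obtain ⟨l1, l2, l3, l4⟩ := gLIN ι E M hM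
  have hjt : ∀ f, upJ M w f ≠ 0 → M.RT f := by
    intro f h
    by_contra hc
    exact h (dif_neg hc)
  have hjb : ∀ f, dnJ M w f ≠ 0 → M.rot.RT f := by
    intro f h
    by_contra hc
    exact h (dif_neg hc)
  obtain ⟨Q, hQ1, hQ2, hQ3, hQ4⟩ := gEXA ι E M hM (upJ M w) (dnJ M w) M.ot M.rot.ot
    (by
      intro f hf
      obtain ⟨-, h1, h2, h3, -⟩ := l2 f (hjt f hf)
      exact ⟨h1, h2, h3⟩)
    (by
      intro f hf
      obtain ⟨-, h1, h2, h3, -⟩ := (gLIN ι E M.rot hrg).2.1 f (hjb f hf)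
      rw [rot_lo, rot_X] at h1
      rw [rot_hi, rot_X] at h2
      rw [show M.rot.tp f = - M.bo f from ROTM.tp_rot M f, rot_Y] at h3
      exact ⟨by omega, by omega, by omega⟩)
    (fun i => congrFun hw i)
  have hQ : QX M (upJ M w) (dnJ M w) M.ot M.rot.ot Q := ⟨hQ1, hQ2, hQ3, hQ4⟩
  have hconst := hQ.const hM hjt hjb
  refine ⟨fun x => Q x.1.2 (M.Y x.1.1 - 1), ?_⟩
  have hext : ∀ {C a}, ¬ M.Fl C → M.Cov C a →
      extC M (fun x => Q x.1.2 (M.Y x.1.1 - 1)) C a = Q a (M.Y C - 1) := by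
    intro C a h1 h2
    unfold extC
    rw [dif_pos (st_cell h1 h2)]
    exact const_st hconst h1 h2
  ext x
  rcases x with ⟨f, hf⟩ | ⟨f, hf⟩
  · obtain ⟨c1, c2, c3, c4, c5⟩ := l2 f hf
    change extC M _ (M.ot f) (M.X f) + extC M _ (M.ot f) (M.X f - 1) = _
    rw [hext c1 ⟨c2.le, c3⟩, hext c1 ⟨by omega, by omega⟩, hQ.up f _ (by omega),
      if_pos (by omega)]
    exact dif_pos hf
  · obtain ⟨⟨p1, p2, p3⟩, ⟨q1, q2, q3⟩, hY⟩ := rot_cols hM hf
    change extC M _ (M.rot.bel (M.rot.ot f) (M.rot.X f)) (M.X f - 1) +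
      extC M _ (M.rot.bel (M.rot.ot f) (M.rot.X f - 1)) (M.X f) = _
    rw [hext p1 p2, hext q1 q2]
    have r1 := hQ.run hM p1 p2 (M.Y (M.rot.bel (M.rot.ot f) (M.rot.X f)) - 1 -
      M.Y (M.rot.ot f)).toNat
    have r2 := hQ.run hM q1 q2 (M.Y (M.rot.bel (M.rot.ot f) (M.rot.X f - 1)) - 1 -
      M.Y (M.rot.ot f)).toNat
    have b1 := (gBEL ι E M hM _ _ p1 p2).2.1
    have b2 := (gBEL ι E M hM _ _ q1 q2).2.1
    rw [p3] at b1
    rw [q3] at b2
    have t1 : M.ht (M.rot.bel (M.rot.ot f) (M.rot.X f)) (M.X f - 1) = M.Y (M.rot.ot f) := by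
      unfold RM.ht; rw [p3]
    have t2 : M.ht (M.rot.bel (M.rot.ot f) (M.rot.X f - 1)) (M.X f) = M.Y (M.rot.ot f) := by
      unfold RM.ht; rw [q3]
    rw [Int.toNat_of_nonneg (by omega), sub_sub_cancel, t1] at r1
    rw [Int.toNat_of_nonneg (by omega), sub_sub_cancel, t2] at r2
    rw [← r1 le_rfl, ← r2 le_rfl, add_comm, hQ.down f _ hY, if_pos le_rfl]
    exact dif_pos hf

/-- EULER, the inequality -/
theorem euler_le [Nonempty E] {M : RM ι E} (hM : M.Good) :
    (cellsF M).card + 2 ≤ Fintype.card E + Fintype.card ι := by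
  classical
  obtain ⟨e⟩ := ‹Nonempty E›
  have h1 := LinearMap.finrank_range_add_finrank_ker (betaL M)
  have h2 := LinearMap.finrank_range_add_finrank_ker (jumpL M)
  rw [Module.finrank_pi, card_RX] at h1
  rw [Module.finrank_pi, Fintype.card_coe] at h2
  have h3 := Submodule.finrank_mono (ker_le_range hM)
  -- constants are in the kernel of the jumps
  have h4 : 1 ≤ Module.finrank (ZMod 2) (LinearMap.ker (jumpL M)) := by
    have hex : ∀ {C a}, ¬ M.Fl C → M.Cov C a → extC M (fun _ => 1) C a = 1 := by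
      intro C a c1 c2
      unfold extC
      rw [dif_pos (st_cell c1 c2)]
    have hmem : (fun _ => 1 : {x // x ∈ cellsF M} → ZMod 2) ∈ LinearMap.ker (jumpL M) := by
      rw [LinearMap.mem_ker]
      ext x
      rcases x with ⟨f, hf⟩ | ⟨f, hf⟩
      · obtain ⟨c1, c2, c3, c4, c5⟩ := (gLIN ι E M hM).2.1 f hf
        change extC M _ (M.ot f) (M.X f) + extC M _ (M.ot f) (M.X f - 1) = 0
        rw [hex c1 ⟨c2.le, c3⟩, hex c1 ⟨by omega, by omega⟩]
        decide
      · obtain ⟨⟨p1, p2, p3⟩, ⟨q1, q2, q3⟩, hY⟩ := rot_cols hM hf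
        change extC M _ (M.rot.bel (M.rot.ot f) (M.rot.X f)) (M.X f - 1) +
          extC M _ (M.rot.bel (M.rot.ot f) (M.rot.X f - 1)) (M.X f) = 0
        rw [hex p1 p2, hex q1 q2]
        decide
    have hne : ∃ C a, ¬ M.Fl C ∧ M.Cov C a := by
      by_cases he : M.Fl e
      · have hr : ¬ M.rot.Fl e := fun h => (ROT_Fl hM e).1 h he
        have hlt := lo_lt_hi (good_rot hM) e
        obtain ⟨q1, q2, q3, q4⟩ := rot_run (good_rot hM) hr (a := M.rot.lo e) ⟨le_rfl, hlt⟩
        rw [rot_rot] at q1 q2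
        exact ⟨_, _, q1, q2⟩
      · exact ⟨e, M.lo e, he, le_rfl, lo_lt_hi hM e⟩
    obtain ⟨C, a, c1, c2⟩ := hne
    have hnz : (⟨_, hmem⟩ : LinearMap.ker (jumpL M)) ≠ 0 := by
      intro h
      have := congrFun (congrArg Subtype.val h) ⟨_, st_cell c1 c2⟩
      simp at this
    have : 0 < Module.finrank (ZMod 2) (LinearMap.ker (jumpL M)) := by
      have : Nontrivial (LinearMap.ker (jumpL M)) := ⟨⟨_, 0, hnz⟩⟩
      exact Module.finrank_pos
    omega
  -- the ends of the chords
  have h5 : Module.finrank (ZMod 2) (LinearMap.range (betaL M)) + 1 ≤ Fintype.card ι := by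
    set S : (ι → ZMod 2) →ₗ[ZMod 2] ZMod 2 := ∑ i, LinearMap.proj i with hS
    have hSa : ∀ x, S x = ∑ i, x i := by
      intro x
      simp [hS]
    have h6 : LinearMap.range (betaL M) ≤ LinearMap.ker S := by
      rintro _ ⟨w, rfl⟩
      rw [LinearMap.mem_ker, hSa, betaL_sum]
    have h7 := Submodule.finrank_mono h6
    have h8 := LinearMap.finrank_range_add_finrank_ker S
    rw [Module.finrank_pi] at h8
    have h9 : LinearMap.range S = ⊤ := by
      rw [LinearMap.range_eq_top]
      intro c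
      refine ⟨Pi.single (M.comp e) c, ?_⟩
      rw [hSa]
      simp
    rw [h9, finrank_top, Module.finrank_self] at h8
    omega
  have h10 := two_card_cells hM
  omega

end euler

end PG

end Pool.Agent.Lib.MP06c549
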