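import Pool.Agent.Lib.MP_06c549_co.VIS
import Pool.Agent.Lib.MP_06c549_co.Main

section
/-!
# MP_06c549_co, plane graph: sequences

`h` is a sequence on the columns `l, ..., r - 1` such that between two columns with the same value
all values are at least this value. The cells are the maximal intervals on which `h` is constant
(indexed by their first column), the lines are the `t` with `h (t-1) ≠ h t`.
-/
set_option autoImplicit false

namespace Pool.Agent.Lib.MP06c549

open Finset

namespace PG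

/-- the first columns of the cells -/
noncomputable def starts (h : ℤ → ℤ) (l r : ℤ) : Finset ℤ := (Ico l r).filter fun i => i = l ∨ h (i - 1) ≠ h i

/-- the last columns of the cells -/
noncomputable def lasts (h : ℤ → ℤ) (l r : ℤ) : Finset ℤ := (Ico l r).filter fun i => i + 1 = r ∨ h i ≠ h (i + 1)

/-- the lines where `h` changes -/
noncomputable def lines (h : ℤ → ℤ) (l r : ℤ) : Finset ℤ := (Ioo l r).filter fun t => h (t - 1) ≠ h t

/-- the hypothesis on equal values -/
def HHyp (h : ℤ → ℤ) (l r : ℤ) : Prop :=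
  ∀ i k j, l ≤ i → i ≤ k → k ≤ j → j < r → h i = h j → h i ≤ h k

lemma mem_starts {h : ℤ → ℤ} {l r i : ℤ} :
    i ∈ starts h l r ↔ (l ≤ i ∧ i < r) ∧ (i = l ∨ h (i - 1) ≠ h i) := by
  simp [starts]

lemma mem_lasts {h : ℤ → ℤ} {l r i : ℤ} :
    i ∈ lasts h l r ↔ (l ≤ i ∧ i < r) ∧ (i + 1 = r ∨ h i ≠ h (i + 1)) := by
  simp [lasts]

lemma mem_lines {h : ℤ → ℤ} {l r t : ℤ} :
    t ∈ lines h l r ↔ (l < t ∧ t < r) ∧ h (t - 1) ≠ h t := by
  simp [lines]

lemma starts_eq {h : ℤ → ℤ} {l r : ℤ} (hlr : l < r) :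
    starts h l r = insert l (lines h l r) := by
  ext i
  rw [mem_insert, mem_starts, mem_lines]
  constructor
  · rintro ⟨⟨h1, h2⟩, h3⟩
    rcases eq_or_ne i l with h4 | h4
    · exact Or.inl h4
    · exact Or.inr ⟨⟨by omega, h2⟩, h3.resolve_left h4⟩
  · rintro (h1 | ⟨⟨h1, h2⟩, h3⟩)
    · exact ⟨⟨by omega, by omega⟩, Or.inl h1⟩
    · exact ⟨⟨by omega, h2⟩, Or.inr h3⟩

lemma card_starts {h : ℤ → ℤ} {l r : ℤ} (hlr : l < r) :
    (starts h l r).card = (lines h l r).card + 1 := by
  rw [starts_eq hlr, card_insert_of_notMem]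
  rw [mem_lines]
  rintro ⟨⟨h1, -⟩, -⟩
  exact lt_irrefl _ h1

/-- sums over the first columns and over the last columns agree -/
lemma sum_starts_lasts {A : Type} [AddCommMonoid A] (h : ℤ → ℤ) (l : ℤ) (G : ℤ → A) (n : ℕ)
    (hG : ∀ i, l ≤ i → i + 1 < l + n → h i = h (i + 1) → G i = G (i + 1)) :
    ∑ i ∈ starts h l (l + n), G i = ∑ i ∈ lasts h l (l + n), G i := by
  induction n with
  | zero =>
    have h1 : starts h l (l + (0 : ℕ)) = ∅ := by
      ext i; rw [mem_starts]; simp only [notMem_empty, iff_false]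
      push_cast; omega
    have h2 : lasts h l (l + (0 : ℕ)) = ∅ := by
      ext i; rw [mem_lasts]; simp only [notMem_empty, iff_false]
      push_cast; omega
    rw [h1, h2]
  | succ n ih =>
    have ih' := ih fun i h1 h2 => hG i h1 (by push_cast; omega)
    rcases Nat.eq_zero_or_pos n with hn | hn
    · subst hn
      have h1 : starts h l (l + ((0 + 1 : ℕ) : ℤ)) = {l} := by
        ext i; rw [mem_starts, mem_singleton]
        push_cast
        constructor
        · rintro ⟨h1, -⟩; omega
        · rintro rfl; exact ⟨by omega, Or.inl rfl⟩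
      have h2 : lasts h l (l + ((0 + 1 : ℕ) : ℤ)) = {l} := by
        ext i; rw [mem_lasts, mem_singleton]
        push_cast
        constructor
        · rintro ⟨h1, -⟩; omega
        · rintro rfl; exact ⟨by omega, Or.inl (by omega)⟩
      rw [h1, h2]
    · -- the new column is `l + n`
      set c : ℤ := l + n with hc
      have hcl : l < c := by omega
      have e1 : l + ((n + 1 : ℕ) : ℤ) = c + 1 := by push_cast; omega
      rw [e1]
      by_cases hh : h (c - 1) = h c
      · -- the last cell is prolonged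
        have h1 : starts h l (c + 1) = starts h l c := by
          ext i; rw [mem_starts, mem_starts]
          constructor
          · rintro ⟨⟨a1, a2⟩, a3⟩
            refine ⟨⟨a1, ?_⟩, a3⟩
            by_contra hcon
            have hi : i = c := by omega
            subst hi
            rcases a3 with a3 | a3
            · omega
            · exact a3 hh
          · rintro ⟨⟨a1, a2⟩, a3⟩
            exact ⟨⟨a1, by omega⟩, a3⟩
        have h2 : lasts h l (c + 1) = insert c ((lasts h l c).erase (c - 1)) := by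
          ext i; rw [mem_insert, mem_erase, mem_lasts, mem_lasts]
          constructor
          · rintro ⟨⟨a1, a2⟩, a3⟩
            rcases eq_or_ne i c with a4 | a4
            · exact Or.inl a4
            · refine Or.inr ⟨?_, ⟨a1, by omega⟩, ?_⟩
              · rintro rfl
                rcases a3 with a3 | a3
                · omega
                · exact a3 (by rw [show c - 1 + 1 = c by ring]; exact hh)
              · rcases a3 with a3 | a3
                · omega
                · exact Or.inr a3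
          · rintro (rfl | ⟨a0, ⟨a1, a2⟩, a3⟩)
            · exact ⟨⟨hcl.le, by omega⟩, Or.inl rfl⟩
            · refine ⟨⟨a1, by omega⟩, Or.inr ?_⟩
              rcases a3 with a3 | a3
              · omega
              · exact a3
        have h3 : c - 1 ∈ lasts h l c := by
          rw [mem_lasts]; exact ⟨⟨by omega, by omega⟩, Or.inl (by ring)⟩
        have h4 : c ∉ (lasts h l c).erase (c - 1) := by
          rw [mem_erase, mem_lasts]; omega
        rw [h1, h2, sum_insert h4, ih', ← Finset.add_sum_erase _ _ h3]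
        congr 1
        have := hG (c - 1) (by omega) (by rw [e1]; omega) (by rw [show c - 1 + 1 = c by ring]; exact hh)
        rw [this]
        congr 1
        ring
      · -- a new cell
        have h1 : starts h l (c + 1) = insert c (starts h l c) := by
          ext i; rw [mem_insert, mem_starts, mem_starts]
          constructor
          · rintro ⟨⟨a1, a2⟩, a3⟩
            rcases eq_or_ne i c with a4 | a4
            · exact Or.inl a4
            · exact Or.inr ⟨⟨a1, by omega⟩, a3⟩
          · rintro (rfl | ⟨⟨a1, a2⟩, a3⟩)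
            · exact ⟨⟨hcl.le, by omega⟩, Or.inr hh⟩
            · exact ⟨⟨a1, by omega⟩, a3⟩
        have h2 : lasts h l (c + 1) = insert c (lasts h l c) := by
          ext i; rw [mem_insert, mem_lasts, mem_lasts]
          constructor
          · rintro ⟨⟨a1, a2⟩, a3⟩
            rcases eq_or_ne i c with a4 | a4
            · exact Or.inl a4
            · refine Or.inr ⟨⟨a1, by omega⟩, ?_⟩
              rcases a3 with a3 | a3
              · omega
              · exact Or.inr a3
          · rintro (rfl | ⟨⟨a1, a2⟩, a3⟩)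
            · exact ⟨⟨hcl.le, by omega⟩, Or.inl rfl⟩
            · refine ⟨⟨a1, by omega⟩, Or.inr ?_⟩
              rcases a3 with a3 | a3
              · intro h5
                apply hh
                rw [a3] at h5
                rw [show c - 1 = i by omega]
                exact h5
              · exact a3
        have h3 : c ∉ starts h l c := by rw [mem_starts]; omega
        have h4 : c ∉ lasts h l c := by rw [mem_lasts]; omega
        rw [h1, h2, sum_insert h3, sum_insert h4, ih']

lemma sum_starts_lasts' {A : Type} [AddCommMonoid A] {h : ℤ → ℤ} {l r : ℤ} (hlr : l ≤ r)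
    (G : ℤ → A) (hG : ∀ i, l ≤ i → i + 1 < r → h i = h (i + 1) → G i = G (i + 1)) :
    ∑ i ∈ starts h l r, G i = ∑ i ∈ lasts h l r, G i := by
  obtain ⟨n, rfl⟩ := Int.le.dest hlr
  exact sum_starts_lasts h l G n hG

/-- the argument of the maximum on an interval -/
lemma exists_max (h : ℤ → ℤ) {a b : ℤ} (hab : a < b) :
    ∃ k, a ≤ k ∧ k < b ∧ ∀ j, a ≤ j → j < b → h j ≤ h k := by
  obtain ⟨k, hk, hmax⟩ := exists_max_image (Ico a b) h ⟨a, by simp [hab]⟩
  rw [mem_Ico] at hk
  exact ⟨k, hk.1, hk.2, fun j h1 h2 => hmax j (mem_Ico.2 ⟨h1, h2⟩)⟩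

/-- `UU` is determined by its properties -/
lemma uu_eq {h : ℤ → ℤ} {r i U : ℤ} (h1 : i < U) (h2 : U ≤ r)
    (h3 : ∀ k, i ≤ k → k < U → h k ≤ h i) (h4 : U < r → h i < h U) : UU h r i = U := by
  obtain ⟨a1, a2, a3, a4⟩ := SEQM.uu h r i (by omega)
  rcases lt_trichotomy (UU h r i) U with h5 | h5 | h5
  · have := a4 (by omega)
    have := h3 _ a1.le h5
    omega
  · exact h5
  · have := a3 U h1.le h5
    have := h4 (by omega)
    omega

/-- `PP` is determined by its properties -/
lemma pp_eq {h : ℤ → ℤ} {l i P : ℤ} (h1 : P ≤ i) (h2 : l ≤ P)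
    (h3 : ∀ k, P ≤ k → k ≤ i → h k ≤ h i) (h4 : l < P → h i < h (P - 1)) : PP h l i = P := by
  obtain ⟨a1, a2, a3, a4⟩ := SEQM.pp h l i (by omega)
  rcases lt_trichotomy (PP h l i) P with h5 | h5 | h5
  · have := a3 (P - 1) (by omega) (by omega)
    have := h4 (by omega)
    omega
  · exact h5
  · have := a4 (by omega)
    have := h3 (PP h l i - 1) (by omega) (by omega)
    omega

/-- the highest column `k` of an interval `[P, U)` bounded by higher columns -/
lemma exists_between {h : ℤ → ℤ} {l r P U : ℤ} (hPU : P < U) (hl : l ≤ P) (hr : U ≤ r)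
    (hP : l < P → ∀ k, P ≤ k → k < U → h k < h (P - 1))
    (hU : U < r → ∀ k, P ≤ k → k < U → h k < h U) :
    ∃ k ∈ starts h l r, P ≤ k ∧ k < U ∧ UU h r k = U ∧ PP h l k = P ∧
      ∀ j, P ≤ j → j < U → h j ≤ h k := by
  obtain ⟨m, m1, m2, m3⟩ := exists_max h hPU
  -- the first column with the maximal value
  have hne : ((Ico P U).filter fun k => h k = h m).Nonempty :=
    ⟨m, mem_filter.2 ⟨mem_Ico.2 ⟨m1, m2⟩, rfl⟩⟩
  obtain ⟨k, hk, hmin⟩ := exists_min_image _ (fun x : ℤ => x) hne
  rw [mem_filter, mem_Ico] at hk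
  obtain ⟨⟨k1, k2⟩, k3⟩ := hk
  have hstart : k = l ∨ h (k - 1) ≠ h k := by
    rcases eq_or_lt_of_le k1 with h1 | h1
    · rcases eq_or_lt_of_le hl with h2 | h2
      · exact Or.inl (by omega)
      · right
        have := hP h2 k k1 k2
        rw [← h1] at this ⊢
        omega
    · right
      intro h2
      have := hmin (k - 1) (mem_filter.2 ⟨mem_Ico.2 ⟨by omega, by omega⟩, by rw [h2, k3]⟩)
      omega
  refine ⟨k, mem_starts.2 ⟨⟨by omega, by omega⟩, hstart⟩, k1, k2, ?_, ?_, fun j a b => ?_⟩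
  · exact uu_eq k2 hr (fun j a b => by rw [k3]; exact m3 j (by omega) b) fun h1 => hU h1 k k1 k2
  · exact pp_eq k1 hl (fun j a b => by rw [k3]; exact m3 j a (by omega)) fun h1 => hP h1 k k1 k2
  · rw [k3]; exact m3 j a b

/-- two starts with the same `PP` and the same `UU` are equal -/
lemma starts_inj {h : ℤ → ℤ} {l r : ℤ} (hh : HHyp h l r) {i j : ℤ} (hi : i ∈ starts h l r)
    (hj : j ∈ starts h l r) (h1 : UU h r i = UU h r j) (h2 : PP h l i = PP h l j) : i = j := by
  wlog hij : i ≤ j generalizing i j with H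
  · exact (H hj hi h1.symm h2.symm (by omega)).symm
  rw [mem_starts] at hi hj
  obtain ⟨⟨i1, i2⟩, i3⟩ := hi
  obtain ⟨⟨j1, j2⟩, j3⟩ := hj
  by_contra hne
  obtain ⟨a1, a2, a3, a4⟩ := SEQM.uu h r i i2
  obtain ⟨b1, b2, b3, b4⟩ := SEQM.uu h r j j2
  obtain ⟨c1, c2, c3, c4⟩ := SEQM.pp h l i i1
  obtain ⟨d1, d2, d3, d4⟩ := SEQM.pp h l j j1
  have e1 := a3 j hij (by omega)
  have e2 := d3 i (by omega) hij
  have e3 := hh i (j - 1) j i1 (by omega) (by omega) j2 (by omega)
  have e4 := a3 (j - 1) (by omega) (by omega)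
  rcases j3 with j3 | j3
  · omega
  · apply j3; omega

/-- the pair of lines of a line -/
noncomputable def lpair (h : ℤ → ℤ) (l r t : ℤ) : ℤ × ℤ :=
  if h (t - 1) < h t then (t, PP h l t) else (UU h r (t - 1), t)

/-- the multiset of the pairs `(UU, PP)` of the cells consists of `(r, l)` and of the pairs of the
lines -/
lemma sum_pairs {A : Type} [AddCommMonoid A] {h : ℤ → ℤ} {l r : ℤ} (hlr : l < r)
    (hh : HHyp h l r) (G : ℤ × ℤ → A) :
    ∑ i ∈ starts h l r, G (UU h r i, PP h l i) = G (r, l) + ∑ t ∈ lines h l r, G (lpair h l r t) := by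
  classical
  -- every pair of the right hand side is the pair of a cell
  have key : ∀ t ∈ lines h l r, ∃ k ∈ starts h l r, (UU h r k, PP h l k) = lpair h l r t ∧
      (k < t → h (t - 1) < h t) ∧ (t ≤ k → h t < h (t - 1)) ∧ (h k < h t ∨ h k < h (t - 1)) := by
    intro t ht
    rw [mem_lines] at ht
    obtain ⟨⟨t1, t2⟩, t3⟩ := ht
    unfold lpair
    by_cases hlt : h (t - 1) < h t
    · rw [if_pos hlt]
      obtain ⟨c1, c2, c3, c4⟩ := SEQM.pp h l t (by omega)
      have hPt : PP h l t < t := by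
        by_contra hcon
        have : PP h l t = t := by omega
        rw [this] at c4
        have := c4 t1
        omega
      have hst : ∀ k, PP h l t ≤ k → k < t → h k < h t := by
        intro k k1 k2
        refine lt_of_le_of_ne (c3 k k1 k2.le) fun he => ?_
        have e1 := hh k (t - 1) t (by omega) (by omega) (by omega) t2 he
        omega
      obtain ⟨k, k0, k1, k2, k3, k4, -⟩ := exists_between (h := h) (l := l) (r := r) hPt c1 t2.le
        (fun h1 k k1 k2 => (hst k k1 k2).trans (c4 h1)) (fun _ k k1 k2 => hst k k1 k2)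
      exact ⟨k, k0, by rw [k3, k4], fun _ => hlt, fun h => absurd h (by omega), Or.inl (hst k k1 k2)⟩
    · have hgt : h t < h (t - 1) := by omega
      rw [if_neg hlt]
      obtain ⟨a1, a2, a3, a4⟩ := SEQM.uu h r (t - 1) (by omega)
      have htU : t < UU h r (t - 1) := by
        by_contra hcon
        have : UU h r (t - 1) = t := by omega
        rw [this] at a4
        have := a4 t2
        omega
      have hst : ∀ k, t ≤ k → k < UU h r (t - 1) → h k < h (t - 1) := by
        intro k k1 k2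
        refine lt_of_le_of_ne (a3 k (by omega) k2) fun he => ?_
        have e1 := hh (t - 1) t k (by omega) (by omega) k1 (by omega) he.symm
        omega
      obtain ⟨k, k0, k1, k2, k3, k4, -⟩ := exists_between (h := h) (l := l) (r := r) htU t1.le a2
        (fun h1 k k1 k2 => hst k k1 k2) (fun h1 k k1 k2 => (hst k k1 k2).trans (a4 h1))
      exact ⟨k, k0, by rw [k3, k4], fun h => absurd h (by omega), fun _ => hgt,
        Or.inr (hst k k1 k2)⟩
  obtain ⟨m, m0, m1, m2, m3, m4, m5⟩ := exists_between (h := h) (l := l) (r := r) hlr le_rfl le_rfl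
    (fun h1 => absurd h1 (lt_irrefl _)) (fun h1 => absurd h1 (lt_irrefl _))
  choose! κ k1 k2 k3 k4 k5 using key
  -- the map from the lines to the cells is injective
  have hinj : Set.InjOn κ (lines h l r) := by
    intro t ht t' ht' he
    have e := k2 t ht
    have e' := k2 t' ht'
    rw [he] at e
    rw [e] at e'
    have m1 := (mem_lines.1 ht)
    have m2 := (mem_lines.1 ht')
    unfold lpair at e'
    by_cases c1 : h (t - 1) < h t <;> by_cases c2 : h (t' - 1) < h t'
    · rw [if_pos c1, if_pos c2] at e'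
      exact congrArg Prod.fst e'
    · rw [if_pos c1, if_neg c2] at e'
      have e1 : t = UU h r (t' - 1) := congrArg Prod.fst e'
      have e2 : PP h l t = t' := congrArg Prod.snd e'
      obtain ⟨a1, a2, a3, a4⟩ := SEQM.uu h r (t' - 1) (by omega)
      obtain ⟨b1, b2, b3, b4⟩ := SEQM.pp h l t (by omega)
      have := a4 (by omega)
      have := b4 (by omega)
      rw [← e1] at *
      rw [e2] at *
      omega
    · rw [if_neg c1, if_pos c2] at e'
      have e1 : UU h r (t - 1) = t' := congrArg Prod.fst e'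
      have e2 : t = PP h l t' := congrArg Prod.snd e'
      obtain ⟨a1, a2, a3, a4⟩ := SEQM.uu h r (t - 1) (by omega)
      obtain ⟨b1, b2, b3, b4⟩ := SEQM.pp h l t' (by omega)
      have := a4 (by omega)
      have := b4 (by omega)
      rw [e1] at *
      rw [← e2] at *
      omega
    · rw [if_neg c1, if_neg c2] at e'
      exact congrArg Prod.snd e'
  have hmne : m ∉ (lines h l r).image κ := by
    rw [mem_image]
    rintro ⟨t, ht, rfl⟩
    have := k5 t ht
    have ht' := mem_lines.1 ht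
    have e1 := m5 t (by omega) (by omega)
    have e2 := m5 (t - 1) (by omega) (by omega)
    omega
  have hsub : insert m ((lines h l r).image κ) = starts h l r := by
    apply eq_of_subset_of_card_le
    · intro x hx
      rw [mem_insert, mem_image] at hx
      rcases hx with rfl | ⟨t, ht, rfl⟩
      · exact m0
      · exact k1 t ht
    · rw [card_insert_of_notMem hmne, card_image_of_injOn hinj, card_starts hlr]
  rw [← hsub, sum_insert hmne, sum_image hinj, m3, m4]
  congr 1
  exact sum_congr rfl fun t ht => by rw [k2 t ht]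

/-- the chain of the cells with the same `UU` -/
lemma chain {h : ℤ → ℤ} {l r : ℤ} (hh : HHyp h l r) {i j : ℤ} (hi : l ≤ i) (hj : i < j)
    (hc : ∀ k, i ≤ k → k < j → h k = h i) (hjU : j < UU h r i) (hji : h j < h (j - 1)) (hir : i < r) :
    ∃ k ∈ starts h l r, j ≤ k ∧ k < UU h r i ∧ UU h r k = UU h r i ∧ PP h l k = j := by
  obtain ⟨a1, a2, a3, a4⟩ := SEQM.uu h r i hir
  have e0 : h (j - 1) = h i := hc (j - 1) (by omega) (by omega)
  have hst : ∀ k, j ≤ k → k < UU h r i → h k < h (j - 1) := by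
    intro k k1 k2
    rw [e0]
    refine lt_of_le_of_ne (a3 k (by omega) k2) fun he => ?_
    have e1 := hh i j k hi (by omega) k1 (by omega) he.symm
    omega
  obtain ⟨k, k0, k1, k2, k3, k4, -⟩ := exists_between (h := h) (l := l) (r := r) hjU (by omega) a2
    (fun h1 k k1 k2 => hst k k1 k2)
    (fun h1 k k1 k2 => ((hst k k1 k2).trans_eq e0).trans (a4 h1))
  exact ⟨k, k0, k1, k2, k3, k4⟩

end PG

end Pool.Agent.Lib.MP06c549
end

section
/-!
# MP_06c549_co, plane graph: the proved modules of the rank model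
-/
set_option autoImplicit false
set_option linter.unusedSectionVars false

namespace Pool.Agent.Lib.MP06c549

open Finset

namespace PG

theorem gSX : SpecSX := specSX specCR
theorem gFLC : SpecFLC := specFLC gSX
theorem gROT : SpecROT := specROT gSX gFLC
theorem gBEL : SpecBEL := specBEL gSX gFLC
theorem gCEL : SpecCEL := specCEL gSX gFLC gBEL
theorem gHH : SpecHH := specHH gBEL
theorem gLIN : SpecLIN := specLIN gSX gFLC gBEL
theorem gTGA : SpecTGA := specTGA gLIN specSEQ gBEL
theorem gTGD : SpecTGD := specTGD gLIN specSEQ gBEL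
theorem gCOV : SpecCOV := specCOV specSEQ gLIN gBEL
theorem gCVR : SpecCVR := specCVR gCOV gROT gBEL
theorem gRHO : SpecRHO := specRHO specCR gROT
theorem gEXA : SpecEXA := specEXA specPOT
theorem gEXT : SpecEXT := specEXT gSX gLIN
theorem gEXU : SpecEXU := specEXU gSX gLIN
theorem gINC : SpecINC := specINC gEXT gEXU gRHO gROT gTGA gTGD

variable {ι E : Type} [Fintype E] [DecidableEq E]

/-- the lower left A-vertex of the run `(C, a)` -/
noncomputable def la (M : RM ι E) (C : E) (a : ℤ) : E := M.rot.ur (M.bel C a) (-1 - a)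

/-- the lower right B-vertex of the run `(C, a)` -/
noncomputable def lb (M : RM ι E) (C : E) (a : ℤ) : E := M.rot.ul (M.bel C a) (-1 - a)

lemma lo_lt_hi {M : RM ι E} (hM : M.Good) (e : E) : M.lo e < M.hi e := FLCM.lo_lt_hi hM e

lemma hhyp {M : RM ι E} (hM : M.Good) {C : E} (hC : ¬ M.Fl C) :
    HHyp (M.ht C) (M.lo C) (M.hi C) :=
  fun i k j h1 h2 h3 h4 h5 => gHH ι E M hM C i k j hC h1 h2 h3 h4 h5

/-- the run seen from below -/
lemma rot_run {M : RM ι E} (hM : M.Good) {C : E} {a : ℤ} (hC : ¬ M.Fl C) (hCa : M.Cov C a) :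
    ¬ M.rot.Fl (M.bel C a) ∧ M.rot.Cov (M.bel C a) (-1 - a) ∧
      M.rot.bel (M.bel C a) (-1 - a) = C ∧ M.rot.ht (M.bel C a) (-1 - a) = - M.Y C := by
  obtain ⟨r1, -, -, r4, r5, r6, r7, -⟩ := gROT ι E M hM
  obtain ⟨b1, b2, b3, -, -, b6⟩ := gBEL ι E M hM C a hC hCa
  refine ⟨fun h => (r6 _).1 h b3, (r4 _ _).2 (by rw [show -1 - (-1 - a) = a by ring]; exact b1),
    b6, ?_⟩
  unfold RM.ht
  rw [b6]
  rfl

lemma rot_lo (M : RM ι E) (e : E) : M.rot.lo e = - M.hi e := ROTM.lo_rot M e
lemma rot_hi (M : RM ι E) (e : E) : M.rot.hi e = - M.lo e := ROTM.hi_rot M e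
lemma rot_X (M : RM ι E) (e : E) : M.rot.X e = - M.X e := rfl
lemma rot_Y (M : RM ι E) (e : E) : M.rot.Y e = - M.Y e := rfl
lemma rot_comp (M : RM ι E) (e : E) : M.rot.comp e = M.comp e := rfl
lemma rot_rot (M : RM ι E) : M.rot.rot = M := ROTM.rot_rot M
lemma good_rot {M : RM ι E} (hM : M.Good) : M.rot.Good := ROTM.good_rot hM
lemma cov_rot (M : RM ι E) (e : E) (a : ℤ) : M.rot.Cov e a ↔ M.Cov e (-1 - a) := ROTM.cov_rot M e a

/-- the lower labels in the rotated model are the upper labels -/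
lemma la_rot {M : RM ι E} (hM : M.Good) {C : E} {a : ℤ} (hC : ¬ M.Fl C) (hCa : M.Cov C a) :
    la M.rot (M.bel C a) (-1 - a) = M.ur C a := by
  obtain ⟨-, -, b6, -⟩ := rot_run hM hC hCa
  unfold la
  rw [b6, rot_rot, show -1 - (-1 - a) = a by ring]

lemma lb_rot {M : RM ι E} (hM : M.Good) {C : E} {a : ℤ} (hC : ¬ M.Fl C) (hCa : M.Cov C a) :
    lb M.rot (M.bel C a) (-1 - a) = M.ul C a := by
  obtain ⟨-, -, b6, -⟩ := rot_run hM hC hCa
  unfold lb
  rw [b6, rot_rot, show -1 - (-1 - a) = a by ring]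

/-- an edge with an end at the line of the vertical edge `f` belongs to the component of `f` -/
lemma comp_end {M : RM ι E} (hM : M.Good) {e f : E} (h : M.lo e = M.X f ∨ M.hi e = M.X f) :
    M.comp e = M.comp f := by
  have h1 : M.X e = M.X f ∨ M.X (M.s e) = M.X f := by
    unfold RM.lo RM.hi at h
    omega
  rcases h1 with h1 | h1
  · rw [hM.X_inj h1]
  · rw [← hM.X_inj h1, hM.comp_s]

/-- the floor (ceiling) changes or ends: the vertical edge at this line -/
lemma exists_vert (M : RM ι E) {e : E} {t : ℤ} (h : M.lo e = t ∨ M.hi e = t) :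
    ∃ f, M.X f = t ∧ (f = e ∨ f = M.s e) := by
  have h1 : M.X e = t ∨ M.X (M.s e) = t := by
    unfold RM.lo RM.hi at h
    omega
  rcases h1 with h1 | h1
  · exact ⟨e, h1, Or.inl rfl⟩
  · exact ⟨M.s e, h1, Or.inr rfl⟩

/-- the upper right label at a last column before an ascent -/
lemma ur_of_asc {M : RM ι E} {C : E} {a : ℤ} (h1 : a + 1 < M.hi C)
    (h2 : M.ht C a < M.ht C (a + 1)) : M.ur C a = M.bel C (a + 1) := by
  have hU : UU (M.ht C) (M.hi C) a = a + 1 :=
    uu_eq (by omega) h1.le (fun k k1 k2 => by rw [show k = a by omega]) fun _ => h2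
  unfold RM.ur
  rw [hU, if_neg (by omega)]

lemma ur_of_end {M : RM ι E} {C : E} {a : ℤ} (h1 : a + 1 = M.hi C) : M.ur C a = C := by
  have hU : UU (M.ht C) (M.hi C) a = a + 1 :=
    uu_eq (by omega) h1.le (fun k k1 k2 => by rw [show k = a by omega]) fun h => absurd h (by omega)
  unfold RM.ur
  rw [hU, if_pos h1]

lemma ul_of_start {M : RM ι E} {C : E} : M.ul C (M.lo C) = C := by
  have hP : PP (M.ht C) (M.lo C) (M.lo C) = M.lo C :=
    pp_eq le_rfl le_rfl (fun k k1 k2 => by rw [show k = M.lo C by omega]) fun h => absurd h (lt_irrefl _)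
  unfold RM.ul
  rw [hP, if_pos rfl]

lemma ul_of_desc {M : RM ι E} {C : E} {a : ℤ} (h1 : M.lo C < a)
    (h2 : M.ht C a < M.ht C (a - 1)) : M.ul C a = M.bel C (a - 1) := by
  have hP : PP (M.ht C) (M.lo C) a = a :=
    pp_eq le_rfl h1.le (fun k k1 k2 => by rw [show k = a by omega]) fun _ => h2
  unfold RM.ul
  rw [hP, if_neg (by omega)]

/-- the lower right label at a right end of the floor -/
lemma lb_of_end {M : RM ι E} {C : E} {a : ℤ} (h1 : M.hi (M.bel C a) = a + 1) :
    lb M C a = M.bel C a := by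
  unfold lb
  have h2 : M.rot.lo (M.bel C a) = -1 - a := by rw [rot_lo, h1]; ring
  rw [← h2]
  exact ul_of_start

/-- the lower left label at a left end of the floor -/
lemma la_of_end {M : RM ι E} {C : E} {a : ℤ} (h1 : M.lo (M.bel C a) = a) :
    la M C a = M.bel C a := by
  unfold la
  exact ur_of_end (by rw [rot_hi, h1]; ring)

/-- the right boundary of a cell: `a` is the last column, `f` the vertical edge at the line `a+1`.
Either the floor ends, or the ceiling over the floor changes to a lower one, or to a higher one. -/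
lemma right_side {M : RM ι E} (hM : M.Good) {C : E} {a : ℤ} (hC : ¬ M.Fl C) (hCa : M.Cov C a)
    (hl : a + 1 = M.hi C ∨ M.ht C a ≠ M.ht C (a + 1)) :
    (M.hi (M.bel C a) = a + 1 ∧ lb M C a = M.bel C a) ∨
    (∃ f, M.X f = a + 1 ∧ M.rot.RT f ∧ M.rot.ot f = M.bel C a ∧ ¬ M.rot.asc f ∧
      lb M C a = M.rot.tb f ∧ M.comp (lb M C a) = M.comp f) ∨
    (∃ f, M.X f = a + 1 ∧ M.rot.RT f ∧ M.rot.ot f = M.bel C a ∧ M.rot.asc f ∧
      M.hi C = a + 1 ∧ M.rot.ta f = C ∧ lb M C a = M.rot.tb f) := by
  obtain ⟨q1, q2, q3, q4⟩ := rot_run hM hC hCa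
  obtain ⟨b1, b2, b3, b4, -, -⟩ := gBEL ι E M hM C a hC hCa
  set F := M.bel C a with hF
  rcases eq_or_lt_of_le (show a + 1 ≤ M.hi F by have := b1.2; omega) with h1 | h1
  · exact Or.inl ⟨h1.symm, lb_of_end h1.symm⟩
  · right
    -- the ceiling over `F` in the next column is not `C`
    have hlo : M.rot.lo F < -1 - a := by rw [rot_lo]; omega
    have hhi : -1 - a < M.rot.hi F := by have := q2.2; omega
    have hcov : M.rot.Cov F (-1 - a - 1) := ⟨by omega, by omega⟩
    have hrg := good_rot hM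
    obtain ⟨c1, c2, c3, -, -, c6⟩ := gBEL ι E M.rot hrg F (-1 - a - 1) q1 hcov
    rw [rot_rot, show -1 - (-1 - a - 1) = a + 1 by ring] at c6
    have hne : M.rot.ht F (-1 - a - 1) ≠ M.rot.ht F (-1 - a) := by
      intro he
      have h2 : M.rot.bel F (-1 - a - 1) = C := by
        have : M.rot.Y (M.rot.bel F (-1 - a - 1)) = M.rot.Y C := by
          change M.rot.ht F (-1 - a - 1) = _
          rw [he, q4]; rfl
        exact hrg.Y_inj this
      rw [h2] at c6 c1
      have c1' := (cov_rot M C _).1 c1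
      rw [show -1 - (-1 - a - 1) = a + 1 by ring] at c1'
      rcases hl with hl | hl
      · have := c1'.2; omega
      · apply hl
        unfold RM.ht
        rw [c6]
    obtain ⟨l1, l2, l3, l4⟩ := gLIN ι E M.rot hrg
    obtain ⟨f, f1, f2, f3⟩ := l1 F (-1 - a) q1 hlo hhi hne
    have hX : M.X f = a + 1 := by rw [rot_X] at f1; omega
    by_cases ha : M.rot.asc f
    · right
      obtain ⟨d1, d2, d3⟩ := l3 f f2 ha
      rw [f3, f1, q3] at d1
      rw [rot_lo] at d1
      refine ⟨f, hX, f2, f3, ha, by omega, ?_, ?_⟩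
      · unfold RM.ta
        rw [if_pos ha, f3, f1, q3]
      · unfold lb RM.tb
        rw [if_pos ha, f3, f1]
    · left
      obtain ⟨d1, d2, d3⟩ := l4 f f2 ha
      rw [f3, f1] at d1 d2 d3
      have hlt : M.rot.ht F (-1 - a) < M.rot.ht F (-1 - a - 1) := by
        have h3 : ¬ M.rot.ht F (-1 - a - 1) < M.rot.ht F (-1 - a) := by
          intro h
          apply ha
          unfold RM.asc
          rw [f3, f1]
          exact h
        omega
      have e1 : lb M C a = M.rot.bel F (-1 - a - 1) := ul_of_desc hlo hlt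
      refine ⟨f, hX, f2, f3, ha, ?_, ?_⟩
      · rw [e1]
        unfold RM.tb
        rw [if_neg ha, f3, f1]
      · rw [e1]; exact d3

lemma ROT_Fl {M : RM ι E} (hM : M.Good) (e : E) : M.rot.Fl e ↔ ¬ M.Fl e :=
  (gROT ι E M hM).2.2.2.2.2.1 e

lemma uu_step {h : ℤ → ℤ} {r i : ℤ} (hi : i + 1 < r) (he : h i = h (i + 1)) :
    UU h r i = UU h r (i + 1) := by
  obtain ⟨a1, a2, a3, a4⟩ := SEQM.uu h r (i + 1) hi
  refine uu_eq (by omega) a2 (fun k k1 k2 => ?_) fun h1 => by rw [he]; exact a4 h1
  rcases eq_or_lt_of_le k1 with h1 | h1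
  · rw [← h1]
  · rw [he]; exact a3 k (by omega) k2

lemma pp_step {h : ℤ → ℤ} {l i : ℤ} (hi : l ≤ i) (he : h i = h (i + 1)) :
    PP h l i = PP h l (i + 1) := by
  obtain ⟨a1, a2, a3, a4⟩ := SEQM.pp h l i hi
  symm
  refine pp_eq (by omega) a1 (fun k k1 k2 => ?_) fun h1 => by rw [← he]; exact a4 h1
  rcases eq_or_lt_of_le k2 with h1 | h1
  · rw [h1]
  · rw [← he]; exact a3 k k1 (by omega)

lemma const_ur' (M : RM ι E) (C : E) (a : ℤ) (_ : ¬ M.Fl C) (_ : M.Cov C a)
    (h2 : M.Cov C (a + 1)) (h3 : M.ht C a = M.ht C (a + 1)) : M.ur C a = M.ur C (a + 1) := by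
  unfold RM.ur
  rw [uu_step h2.2 h3]

end PG

end Pool.Agent.Lib.MP06c549
end

section
/-!
# MP_06c549_co, plane graph: the polygon is connected
-/
set_option autoImplicit false
set_option linter.unusedSectionVars false

namespace Pool.Agent.Lib.MP06c549

open Finset

namespace PG

variable {ι E : Type} [Fintype E] [DecidableEq E]

lemma tp_bo {M : RM ι E} {e f : E} (h : f = e ∨ f = M.s e) :
    (M.Y e = M.tp f ∨ M.Y e = M.bo f) := by
  unfold RM.tp RM.bo
  rcases h with h | h
  · rw [h]; omega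
  · rw [h, Equiv.symm_apply_apply]; omega

lemma end_X {M : RM ι E} (hM : M.Good) {e f : E} (h : M.lo e = M.X f ∨ M.hi e = M.X f) :
    f = e ∨ f = M.s e := by
  have h1 : M.X e = M.X f ∨ M.X (M.s e) = M.X f := by
    unfold RM.lo RM.hi at h
    omega
  rcases h1 with h1 | h1
  · exact Or.inl (hM.X_inj h1).symm
  · exact Or.inr (hM.X_inj h1).symm

lemma X_end {M : RM ι E} {e f : E} (h : f = e ∨ f = M.s e) :
    M.lo e = M.X f ∨ M.hi e = M.X f := by
  unfold RM.lo RM.hi
  rcases h with h | h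
  · rw [h]; omega
  · rw [h]; omega

/-- no horizontal edge near the vertical edge `f` at a height strictly between its ends -/
lemma free_between {M : RM ι E} (hM : M.Good) {e f : E} (h1 : M.bo f < M.Y e) (h2 : M.Y e < M.tp f) :
    ¬ M.Cov e (M.X f) ∧ ¬ M.Cov e (M.X f - 1) := by
  have key : ¬ (M.lo e ≤ M.X f ∧ M.X f ≤ M.hi e) := by
    rintro ⟨h3, h4⟩
    rcases eq_or_lt_of_le h3 with h5 | h5
    · rcases tp_bo (end_X hM (Or.inl h5)) with h | h <;> omega
    · rcases eq_or_lt_of_le h4 with h6 | h6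
      · rcases tp_bo (end_X hM (Or.inr h6.symm)) with h | h <;> omega
      · exact hM.nc e f ⟨h5, h6, h1, h2⟩
  constructor
  · intro h; exact key ⟨h.1, h.2.le⟩
  · intro h; exact key ⟨by have := h.1; omega, by have := h.2; omega⟩

section conn

variable [DecidableEq ι] {M : RM ι E} (hM : M.Good) (q : ℤ → ℤ → ZMod 2)
  (hv : ∀ a b, M.S a b → M.S a (b - 1) → q a b = q a (b - 1))
  (hz : ∀ a b, M.S a b → M.S (a - 1) b → q a b = q (a - 1) b)

/-- the extension of `q` by zero -/
noncomputable def ext0 (M : RM ι E) (q : ℤ → ℤ → ZMod 2) (a b : ℤ) : ZMod 2 :=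
  if M.S a b then q a b else 0

include hM hv hz

lemma ext0_col {a b : ℤ} (h : ∀ e, M.Y e = b → ¬ M.Cov e a) :
    ext0 M q a b = ext0 M q a (b - 1) := by
  have h1 := (gSX ι E M hM).2.2.2.1 a b h
  unfold ext0
  by_cases h2 : M.S a b
  · rw [if_pos h2, if_pos (h1.1 h2)]
    exact hv a b h2 (h1.1 h2)
  · rw [if_neg h2, if_neg (fun h => h2 (h1.2 h))]

lemma ext0_row {a b : ℤ} (h : M.S a b ↔ M.S (a - 1) b) :
    ext0 M q a b = ext0 M q (a - 1) b := by
  unfold ext0
  by_cases h2 : M.S a b
  · rw [if_pos h2, if_pos (h.1 h2)]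
    exact hz a b h2 (h.1 h2)
  · rw [if_neg h2, if_neg (fun h' => h2 (h.2 h'))]

/-- the jump across a horizontal edge does not depend on the column -/
lemma jumpH (e : E) : ∀ n : ℕ, M.lo e + n < M.hi e →
    ext0 M q (M.lo e + n) (M.Y e) + ext0 M q (M.lo e + n) (M.Y e - 1) =
      ext0 M q (M.lo e) (M.Y e) + ext0 M q (M.lo e) (M.Y e - 1) := by
  intro n
  induction n with
  | zero => intro _; simp
  | succ n ih =>
    intro hn
    push_cast at hn ⊢
    have ih' := ih (by omega)
    rw [← ih']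
    have f1 := gFLC ι E M hM e (M.lo e + (n + 1)) ⟨by omega, hn⟩
    have f2 := gFLC ι E M hM e (M.lo e + n) ⟨by omega, by omega⟩
    have e1 : M.lo e + ((n : ℤ) + 1) - 1 = M.lo e + n := by ring
    congr 1
    · have := ext0_row hM q hv hz (a := M.lo e + (n + 1)) (b := M.Y e)
        (by rw [e1, f1.1, f2.1])
      rw [this, e1]
    · have := ext0_row hM q hv hz (a := M.lo e + (n + 1)) (b := M.Y e - 1)
        (by rw [e1, f1.2, f2.2])
      rw [this, e1]

lemma jumpH' {e : E} {a : ℤ} (h : M.Cov e a) :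
    ext0 M q a (M.Y e) + ext0 M q a (M.Y e - 1) =
      ext0 M q (M.lo e) (M.Y e) + ext0 M q (M.lo e) (M.Y e - 1) := by
  obtain ⟨n, hn⟩ := Int.le.dest h.1
  have := jumpH hM q hv hz e n (by rw [hn]; exact h.2)
  rw [hn] at this
  exact this

/-- the jump across a vertical edge does not depend on the row -/
lemma jumpV (f : E) : ∀ n : ℕ, M.bo f + n < M.tp f →
    ext0 M q (M.X f) (M.bo f + n) + ext0 M q (M.X f - 1) (M.bo f + n) =
      ext0 M q (M.X f) (M.bo f) + ext0 M q (M.X f - 1) (M.bo f) := by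
  intro n
  induction n with
  | zero => intro _; simp
  | succ n ih =>
    intro hn
    push_cast at hn ⊢
    have ih' := ih (by omega)
    rw [← ih']
    have e1 : M.bo f + ((n : ℤ) + 1) - 1 = M.bo f + n := by ring
    congr 1
    · have := ext0_col hM q hv hz (a := M.X f) (b := M.bo f + (n + 1))
        (fun e he hc => (free_between hM (e := e) (f := f) (by omega) (by omega)).1 hc)
      rw [this, e1]
    · have := ext0_col hM q hv hz (a := M.X f - 1) (b := M.bo f + (n + 1))
        (fun e he hc => (free_between hM (e := e) (f := f) (by omega) (by omega)).2 hc)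
      rw [this, e1]

lemma jumpV' {f : E} {b : ℤ} (h1 : M.bo f ≤ b) (h2 : b < M.tp f) :
    ext0 M q (M.X f) b + ext0 M q (M.X f - 1) b =
      ext0 M q (M.X f) (M.bo f) + ext0 M q (M.X f - 1) (M.bo f) := by
  obtain ⟨n, hn⟩ := Int.le.dest h1
  have := jumpV hM q hv hz f n (by rw [hn]; exact h2)
  rw [hn] at this
  exact this

lemma bo_lt_tp (f : E) : M.bo f < M.tp f := by
  have h : M.Y (M.s.symm f) ≠ M.Y f := by
    intro h
    have h1 := hM.Y_inj h
    have h2 := hM.s_ne (M.s.symm f)
    rw [Equiv.apply_symm_apply] at h2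
    exact h2 h1.symm
  unfold RM.bo RM.tp
  omega

/-- the jump across a vertical edge is the jump across the horizontal edges at its ends -/
lemma corner {e f : E} (h : f = e ∨ f = M.s e) :
    ext0 M q (M.lo e) (M.Y e) + ext0 M q (M.lo e) (M.Y e - 1) =
      ext0 M q (M.X f) (M.bo f) + ext0 M q (M.X f - 1) (M.bo f) := by
  have hbt := bo_lt_tp hM q hv hz f
  have hsx := (gSX ι E M hM).1 f
  -- rows
  have hrow : ext0 M q (M.X f) (M.Y e) + ext0 M q (M.X f - 1) (M.Y e) +
      (ext0 M q (M.X f) (M.Y e - 1) + ext0 M q (M.X f - 1) (M.Y e - 1)) =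
      ext0 M q (M.X f) (M.bo f) + ext0 M q (M.X f - 1) (M.bo f) := by
    have z : ∀ b, ¬ (M.bo f ≤ b ∧ b < M.tp f) →
        ext0 M q (M.X f) b + ext0 M q (M.X f - 1) b = 0 := by
      intro b hb
      rw [ext0_row hM q hv hz ((hsx b).2 hb)]
      exact CharTwo.add_self_eq_zero _
    rcases tp_bo h with h1 | h1
    · rw [z (M.Y e) (by omega), zero_add, jumpV' hM q hv hz (by omega) (by omega)]
    · rw [z (M.Y e - 1) (by omega), add_zero, jumpV' hM q hv hz (by omega) (by omega)]
  -- columns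
  have hcol : ext0 M q (M.X f) (M.Y e) + ext0 M q (M.X f) (M.Y e - 1) +
      (ext0 M q (M.X f - 1) (M.Y e) + ext0 M q (M.X f - 1) (M.Y e - 1)) =
      ext0 M q (M.lo e) (M.Y e) + ext0 M q (M.lo e) (M.Y e - 1) := by
    have z : ∀ a, ¬ M.Cov e a → ext0 M q a (M.Y e) + ext0 M q a (M.Y e - 1) = 0 := by
      intro a ha
      rw [ext0_col hM q hv hz (a := a) (b := M.Y e)
        (fun e' he' hc => ha (by rw [← hM.Y_inj he']; exact hc))]
      exact CharTwo.add_self_eq_zero _
    have hlt := lo_lt_hi hM e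
    rcases X_end h with h1 | h1
    · rw [z (M.X f - 1) (fun hc => by have := hc.1; omega), add_zero,
        jumpH' hM q hv hz (e := e) (a := M.X f) ⟨by omega, by omega⟩]
    · rw [z (M.X f) (fun hc => by have := hc.2; omega), zero_add,
        jumpH' hM q hv hz (e := e) (a := M.X f - 1) ⟨by omega, by omega⟩]
  rw [← hcol, ← hrow]
  ring

/-- the value of `q` next to a component -/
lemma comp_const {e e' : E} (h : M.comp e = M.comp e') :
    ext0 M q (M.lo e) (M.Y e) + ext0 M q (M.lo e) (M.Y e - 1) =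
      ext0 M q (M.lo e') (M.Y e') + ext0 M q (M.lo e') (M.Y e' - 1) := by
  obtain ⟨n, hn⟩ := hM.comp_conn e e' h
  subst hn
  clear h
  induction n with
  | zero => simp
  | succ n ih =>
    rw [ih, pow_succ', Equiv.Perm.mul_apply]
    set x := (M.s ^ n) e
    rw [corner hM q hv hz (e := x) (f := M.s x) (Or.inr rfl),
      corner hM q hv hz (e := M.s x) (f := M.s x) (Or.inl rfl)]

/-- `ext0` counts the edges above the cell with value `1` -/
lemma ext0_cnt (K : Finset E) (hK : ∀ e, e ∈ K ↔
      ext0 M q (M.lo e) (M.Y e) + ext0 M q (M.lo e) (M.Y e - 1) = 1) (a b : ℤ) :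
    ext0 M q a b = (M.cnt K a b : ZMod 2) := by
  obtain ⟨B, hB⟩ : ∃ B : ℤ, ∀ e, M.Y e ≤ B := by
    obtain ⟨B, hB⟩ := (Set.finite_range M.Y).bddAbove
    exact ⟨B, fun e => hB ⟨e, rfl⟩⟩
  have top : ∀ b, B ≤ b → ext0 M q a b = (M.cnt K a b : ZMod 2) := by
    intro b hb
    have h1 : ¬ M.S a b := (gSX ι E M hM).2.2.2.2.2 a b (fun e => (hB e).trans hb)
    have h2 : M.cnt K a b = 0 := by
      unfold RM.cnt
      rw [card_eq_zero, filter_eq_empty_iff]
      rintro e - ⟨-, h3⟩
      have := hB e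
      omega
    unfold ext0
    rw [if_neg h1, h2, Nat.cast_zero]
  have down : ∀ n : ℕ, ext0 M q a (B - n) = (M.cnt K a (B - n) : ZMod 2) := by
    intro n
    induction n with
    | zero => simpa using top B le_rfl
    | succ n ih =>
      have e0 : B - ((n + 1 : ℕ) : ℤ) = B - n - 1 := by push_cast; ring
      rw [e0]
      set b := B - (n : ℤ)
      by_cases hex : ∃ e, M.Y e = b ∧ M.Cov e a
      · obtain ⟨e, he1, he2⟩ := hex
        have h3 := jumpH' hM q hv hz he2
        rw [he1] at h3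
        have h4 : (M.cnt K a (b - 1) : ZMod 2) = M.cnt K a b + if e ∈ K then 1 else 0 := by
          have h5 : (K.filter fun x => M.Cov x a ∧ b - 1 < M.Y x) =
              if e ∈ K then insert e (K.filter fun x => M.Cov x a ∧ b < M.Y x)
              else K.filter fun x => M.Cov x a ∧ b < M.Y x := by
            ext x
            split_ifs with hK'
            · rw [mem_insert, mem_filter, mem_filter]
              constructor
              · rintro ⟨h5, h6, h7⟩
                rcases eq_or_ne (M.Y x) b with h8 | h8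
                · exact Or.inl (hM.Y_inj (h8.trans he1.symm))
                · exact Or.inr ⟨h5, h6, by omega⟩
              · rintro (rfl | ⟨h5, h6, h7⟩)
                · exact ⟨hK', he2, by omega⟩
                · exact ⟨h5, h6, by omega⟩
            · rw [mem_filter, mem_filter]
              constructor
              · rintro ⟨h5, h6, h7⟩
                refine ⟨h5, h6, ?_⟩
                rcases eq_or_ne (M.Y x) b with h8 | h8
                · exact absurd (hM.Y_inj (h8.trans he1.symm) ▸ h5) hK'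
                · omega
              · rintro ⟨h5, h6, h7⟩
                exact ⟨h5, h6, by omega⟩
          unfold RM.cnt
          rw [h5]
          split_ifs with hK'
          · rw [card_insert_of_notMem]
            · push_cast; ring
            · rw [mem_filter]
              rintro ⟨-, -, h6⟩
              omega
          · ring
        rw [h4, ← ih]
        have h01 : ∀ z : ZMod 2, z = 0 ∨ z = 1 := by decide
        have h6 : (if e ∈ K then (1 : ZMod 2) else 0) = ext0 M q a b + ext0 M q a (b - 1) := by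
          rw [h3]
          have h7 := hK e
          rw [he1] at h7
          split_ifs with hK'
          · exact (h7.1 hK').symm
          · rcases h01 (ext0 M q (M.lo e) b + ext0 M q (M.lo e) (b - 1)) with h8 | h8
            · exact h8.symm
            · exact absurd (h7.2 h8) hK'
        rw [h6, ← add_assoc, CharTwo.add_self_eq_zero, zero_add]
      · push Not at hex
        have h3 := ext0_col hM q hv hz (a := a) (b := b) (fun e h1 h2 => hex e h1 h2)
        have h4 : M.cnt K a (b - 1) = M.cnt K a b := by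
          unfold RM.cnt
          congr 1
          apply filter_congr
          intro x _
          constructor
          · rintro ⟨h5, h6⟩
            refine ⟨h5, ?_⟩
            rcases eq_or_ne (M.Y x) b with h8 | h8
            · exact absurd h5 (hex x h8)
            · omega
          · rintro ⟨h5, h6⟩
            exact ⟨h5, by omega⟩
        rw [h4, ← ih, h3]
  rcases le_total B b with h | h
  · exact top b h
  · have := down (B - b).toNat
    rw [Int.toNat_of_nonneg (by omega), sub_sub_cancel] at this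
    exact this

/-- the polygon is connected, first form -/
lemma zero_of_outer (hh : M.Holes) {e₀ : E} (he₀ : M.comp e₀ = M.o)
    (h0 : ext0 M q (M.lo e₀) (M.Y e₀) + ext0 M q (M.lo e₀) (M.Y e₀ - 1) = 0) {a b : ℤ}
    (hab : M.S a b) : q a b = 0 := by
  classical
  set K : Finset E := univ.filter fun e =>
    ext0 M q (M.lo e) (M.Y e) + ext0 M q (M.lo e) (M.Y e - 1) = 1 with hK
  have hK' : ∀ e, e ∈ K ↔ ext0 M q (M.lo e) (M.Y e) + ext0 M q (M.lo e) (M.Y e - 1) = 1 := by
    intro e; rw [hK, mem_filter]; simp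
  have h1 := ext0_cnt hM q hv hz K hK' a b
  have h2 : ext0 M q a b = q a b := if_pos hab
  rw [h2] at h1
  rw [h1]
  have hev : Even (M.cnt K a b) := by
    have h3 : M.cnt K a b = ∑ i ∈ K.image M.comp, M.cnt (univ.filter fun e => M.comp e = i) a b := by
      unfold RM.cnt
      rw [card_eq_sum_card_fiberwise (f := M.comp) (t := K.image M.comp)
        (fun x hx => by
          have hx' := (mem_filter.1 (Finset.mem_coe.1 hx)).1
          exact Finset.mem_coe.2 (mem_image_of_mem _ hx'))]
      refine sum_congr rfl fun i hi => ?_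
      congr 1
      ext x
      simp only [mem_filter, mem_univ, true_and]
      obtain ⟨y, hy, hyi⟩ := mem_image.1 hi
      constructor
      · rintro ⟨⟨h4, h5⟩, h6⟩
        exact ⟨h6, h5⟩
      · rintro ⟨h4, h5⟩
        refine ⟨⟨?_, h5⟩, h4⟩
        rw [hK'] at hy ⊢
        rw [comp_const hM q hv hz (h4.trans hyi.symm)]
        exact hy
    rw [h3]
    refine Finset.even_sum _ ?_
    intro i hi
    obtain ⟨y, hy, hyi⟩ := mem_image.1 hi
    have hio : i ≠ M.o := by
      rintro rfl
      rw [hK', comp_const hM q hv hz (hyi.trans he₀.symm), h0] at hy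
      exact absurd hy (by decide)
    by_contra hodd
    rw [Nat.not_even_iff_odd] at hodd
    exact hh.hole i hio a b hodd hab
  obtain ⟨k, hk⟩ := hev
  rw [hk]
  push_cast
  exact CharTwo.add_self_eq_zero _

/-- the polygon is connected -/
theorem region_conn (hh : M.Holes) : ∃ c, ∀ a b, M.S a b → q a b = c := by
  obtain ⟨e₀, he₀⟩ := hh.surj M.o
  set c := ext0 M q (M.lo e₀) (M.Y e₀) + ext0 M q (M.lo e₀) (M.Y e₀ - 1) with hc
  refine ⟨c, fun a b hab => ?_⟩
  have hlt := lo_lt_hi hM e₀
  have hF := gFLC ι E M hM e₀ (M.lo e₀) ⟨le_rfl, hlt⟩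
  have h0 : ext0 M (fun a b => q a b + c) (M.lo e₀) (M.Y e₀) +
      ext0 M (fun a b => q a b + c) (M.lo e₀) (M.Y e₀ - 1) = 0 := by
    have e1 : ext0 M (fun a b => q a b + c) (M.lo e₀) (M.Y e₀) +
        ext0 M (fun a b => q a b + c) (M.lo e₀) (M.Y e₀ - 1) = c + c := by
      by_cases h : M.Fl e₀
      · have h1 := hF.1.2 h
        have h2 : ¬ M.S (M.lo e₀) (M.Y e₀ - 1) := fun h3 => hF.2.1 h3 h
        unfold ext0 at hc ⊢
        rw [if_pos h1, if_neg h2, add_zero] at hc ⊢
        rw [hc]
      · have h1 := hF.2.2 h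
        have h2 : ¬ M.S (M.lo e₀) (M.Y e₀) := fun h3 => h (hF.1.1 h3)
        unfold ext0 at hc ⊢
        rw [if_pos h1, if_neg h2, zero_add] at hc ⊢
        rw [hc]
    rw [e1]
    exact CharTwo.add_self_eq_zero _
  have := zero_of_outer hM (fun a b => q a b + c) (fun a b h1 h2 => by rw [hv a b h1 h2])
    (fun a b h1 h2 => by rw [hz a b h1 h2]) hh he₀ h0 hab
  exact CharTwo.add_eq_zero.1 this

end conn

/-! ## The graph of the A-vertices is connected -/

/-- the ceiling above a cell of the polygon is unique -/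
lemma ceil_unique {M : RM ι E} (hM : M.Good) {C C' : E} {a b : ℤ} (hC : ¬ M.Fl C)
    (hC' : ¬ M.Fl C') (h1 : M.Cov C a) (h1' : M.Cov C' a) (h2 : M.ht C a ≤ b) (h3 : b < M.Y C)
    (h2' : M.ht C' a ≤ b) (h3' : b < M.Y C') : C = C' := by
  rcases lt_trichotomy (M.Y C) (M.Y C') with h | h | h
  · have := (gBEL ι E M hM C' a hC' h1').2.2.2.1 C h1 h
    change M.Y C ≤ M.ht C' a at this
    omega
  · exact hM.Y_inj h
  · have := (gBEL ι E M hM C a hC h1).2.2.2.1 C' h1' h
    change M.Y C' ≤ M.ht C a at this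
    omega

/-- the value on the labels is constant in a row -/
lemma row_const {M : RM ι E} (hM : M.Good) {C : E} (hC : ¬ M.Fl C) (f : E → ZMod 2)
    (hf : ∀ a, M.Cov C a → f (M.ur C a) = f (la M C a)) {t : ℤ} (h1 : M.lo C < t)
    (h2 : t < M.hi C) : f (M.ur C (t - 1)) = f (M.ur C t) := by
  obtain ⟨l1, l2, l3, l4⟩ := gLIN ι E M hM
  -- ascents
  have asc : ∀ s, M.lo C < s → s < M.hi C → M.ht C (s - 1) < M.ht C s →
      f (M.ur C (s - 1)) = f (M.ur C s) := by
    intro s s1 s2 s3
    obtain ⟨g, g1, g2, g3⟩ := l1 C s hC s1 s2 s3.ne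
    have ha : M.asc g := by
      unfold RM.asc
      rw [g3, g1]
      exact s3
    have d1 := (l3 g g2 ha).1
    rw [g3, g1] at d1
    rw [hf s ⟨s1.le, s2⟩, la_of_end d1, ur_of_asc (by omega) (by rw [sub_add_cancel]; exact s3),
      sub_add_cancel]
  rcases lt_trichotomy (M.ht C (t - 1)) (M.ht C t) with h | h | h
  · exact asc t h1 h2 h
  · have := const_ur' M C (t - 1) hC ⟨by omega, by omega⟩ ⟨by omega, by omega⟩
      (by rw [sub_add_cancel]; exact h)
    rw [sub_add_cancel] at this
    rw [this]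
  · obtain ⟨a1, a2, a3, a4⟩ := SEQM.uu (M.ht C) (M.hi C) (t - 1) (by omega)
    set U := UU (M.ht C) (M.hi C) (t - 1) with hU
    have main : ∀ n : ℕ, ∀ k, t ≤ k → k < U → U - k ≤ n → f (M.ur C k) = f (M.ur C (t - 1)) := by
      intro n
      induction n with
      | zero => intro k k1 k2 k3; push_cast at k3; omega
      | succ n ih =>
        intro k k1 k2 k3
        obtain ⟨b1, b2, b3, b4⟩ := SEQM.uu (M.ht C) (M.hi C) k (by omega)
        set V := UU (M.ht C) (M.hi C) k with hV
        have hk := a3 k (by omega) k2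
        have hVU : V ≤ U := by
          by_contra hcon
          have := b3 U k2.le (by omega)
          have := a4 (by omega)
          omega
        rcases eq_or_lt_of_le hVU with h3 | h3
        · unfold RM.ur
          rw [← hV, ← hU, h3]
        · have c1 := b4 (by omega)
          have c2 := b3 (V - 1) (by omega) (by omega)
          have c3 := asc V (by omega) (by omega) (by omega)
          have c4 := ih V (by omega) h3 (by push_cast at k3; omega)
          have c5 : M.ur C (V - 1) = M.ur C k := by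
            have : UU (M.ht C) (M.hi C) (V - 1) = V :=
              uu_eq (by omega) b2 (fun j j1 j2 => by rw [show j = V - 1 by omega])
                (fun _ => by omega)
            unfold RM.ur
            rw [this, ← hV]
          rw [← c5, c3, c4]
    have htU : t < U := by
      by_contra hcon
      have hUt : U = t := by omega
      rw [hUt] at a4
      have := a4 h2
      omega
    exact (main (U - t).toNat t le_rfl htU (by rw [Int.toNat_of_nonneg (by omega)])).symm

lemma row_const' {M : RM ι E} (hM : M.Good) {C : E} (hC : ¬ M.Fl C) (f : E → ZMod 2)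
    (hf : ∀ a, M.Cov C a → f (M.ur C a) = f (la M C a)) {a b : ℤ} (h1 : M.Cov C a)
    (h2 : M.Cov C b) : f (M.ur C a) = f (M.ur C b) := by
  wlog hab : a ≤ b generalizing a b with H
  · exact (H h2 h1 (by omega)).symm
  obtain ⟨n, rfl⟩ := Int.le.dest hab
  clear hab
  induction n with
  | zero => simp
  | succ n ih =>
    have h3 : M.Cov C (a + n) := ⟨by have := h1.1; omega, by have := h2.2; push_cast at this; omega⟩
    rw [ih h3]
    have := row_const hM hC f hf (t := a + ((n + 1 : ℕ) : ℤ)) (by have := h1.1; push_cast; omega) h2.2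
    rw [show a + ((n + 1 : ℕ) : ℤ) - 1 = a + n by push_cast; ring] at this
    exact this

/-- CONN: the graph of the A-vertices is connected -/
theorem conn_A [DecidableEq ι] {M : RM ι E} (hM : M.Good) (hh : M.Holes) (f : E → ZMod 2)
    (hf : ∀ C a, ¬ M.Fl C → M.Cov C a → f (M.ur C a) = f (la M C a)) :
    ∃ c, ∀ e, f e = c := by
  classical
  have hrg := good_rot hM
  have hfr : ∀ F a, ¬ M.rot.Fl F → M.rot.Cov F a → f (M.rot.ur F a) = f (la M.rot F a) := by
    intro F a h1 h2
    obtain ⟨q1, q2, q3, q4⟩ := rot_run hrg h1 h2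
    rw [rot_rot] at q1 q2 q3
    have := hf _ _ q1 q2
    unfold la at this ⊢
    rw [q3, show -1 - (-1 - a) = a by ring] at this
    rw [rot_rot]
    exact this.symm
  set q : ℤ → ℤ → ZMod 2 := fun a b => if h : M.S a b then
    f (M.ur (gCEL ι E M hM a b h).choose a) else 0 with hq
  have hqv : ∀ {C a b}, ¬ M.Fl C → M.Cov C a → M.ht C a ≤ b → b < M.Y C →
      q a b = f (M.ur C a) := by
    intro C a b h1 h2 h3 h4
    have hS : M.S a b := (gBEL ι E M hM C a h1 h2).2.2.2.2.1 b h3 h4
    simp only [hq]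
    rw [dif_pos hS]
    obtain ⟨c1, c2, c3, c4⟩ := (gCEL ι E M hM a b hS).choose_spec
    rw [ceil_unique hM h1 c1 h2 c2 h3 h4 c3 c4]
  have hv : ∀ a b, M.S a b → M.S a (b - 1) → q a b = q a (b - 1) := by
    intro a b h1 h2
    obtain ⟨C, c1, c2, c3, c4⟩ := gCEL ι E M hM a b h1
    have hne : M.ht C a ≠ b := by
      intro he
      obtain ⟨b1, b2, b3, -⟩ := gBEL ι E M hM C a c1 c2
      have h3 := (gFLC ι E M hM (M.bel C a) a b1).2
      have h4 : M.Y (M.bel C a) = b := he
      rw [h4] at h3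
      exact h3.1 h2 b3
    rw [hqv c1 c2 c3 c4, hqv (b := b - 1) c1 c2 (by omega) (by omega)]
  have hz : ∀ a b, M.S a b → M.S (a - 1) b → q a b = q (a - 1) b := by
    intro a b h1 h2
    obtain ⟨C, c1, c2, c3, c4⟩ := gCEL ι E M hM a b h1
    obtain ⟨C', d1, d2, d3, d4⟩ := gCEL ι E M hM (a - 1) b h2
    rw [hqv c1 c2 c3 c4, hqv d1 d2 d3 d4]
    by_cases hCC : C = C'
    · subst hCC
      exact row_const' hM c1 f (fun a h => hf C a c1 h) c2 d2
    · by_cases hFF : M.bel C a = M.bel C' (a - 1)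
      · rw [hf C a c1 c2, hf C' (a - 1) d1 d2]
        obtain ⟨p1, p2, p3, p4⟩ := rot_run hM c1 c2
        obtain ⟨q1, q2, q3, q4⟩ := rot_run hM d1 d2
        unfold la
        rw [← hFF] at q2 ⊢
        exact row_const' hrg p1 f (fun a h => hfr _ a p1 h) p2 q2
      · exfalso
        -- a vertical edge at the line `a` reaches above the row `b`
        have up : ∃ e, (M.lo e = a ∨ M.hi e = a) ∧ b < M.Y e := by
          by_cases h3 : M.Cov C (a - 1)
          · have h4 : M.Y C' ≤ M.Y C := by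
              by_contra hcon
              have := (gBEL ι E M hM C' (a - 1) d1 d2).2.2.2.1 C h3 (by omega)
              change M.Y C ≤ M.ht C' (a - 1) at this
              omega
            refine ⟨C', Or.inr ?_, d4⟩
            by_contra hne
            have h5 : M.Cov C' a := ⟨by have := d2.1; omega, by have := d2.2; omega⟩
            have h6 : M.Y C' < M.Y C := lt_of_le_of_ne h4 fun h => hCC (hM.Y_inj h).symm
            have := (gBEL ι E M hM C a c1 c2).2.2.2.1 C' h5 h6
            change M.Y C' ≤ M.ht C a at this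
            omega
          · refine ⟨C, Or.inl ?_, c4⟩
            by_contra hne
            exact h3 ⟨by have := c2.1; omega, by have := c2.2; omega⟩
        have dn : ∃ e, (M.lo e = a ∨ M.hi e = a) ∧ M.Y e ≤ b := by
          have hF := (gBEL ι E M hM C a c1 c2)
          have hF' := (gBEL ι E M hM C' (a - 1) d1 d2)
          by_cases h3 : M.Cov (M.bel C a) (a - 1)
          · have h4 : M.Y (M.bel C a) ≤ M.Y (M.bel C' (a - 1)) := hF'.2.2.2.1 _ h3 (by
              change M.ht C a < _
              omega)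
            refine ⟨M.bel C' (a - 1), Or.inr ?_, d3⟩
            by_contra hne
            have h5 : M.Cov (M.bel C' (a - 1)) a :=
              ⟨by have := hF'.1.1; omega, by have := hF'.1.2; omega⟩
            have h6 := hF.2.2.2.1 _ h5 (by
              change M.ht C' (a - 1) < _
              omega)
            exact hFF (hM.Y_inj (le_antisymm h4 h6))
          · refine ⟨M.bel C a, Or.inl ?_, c3⟩
            by_contra hne
            exact h3 ⟨by have := hF.1.1; omega, by have := hF.1.2; omega⟩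
        obtain ⟨e, e1, e2⟩ := up
        obtain ⟨e', e1', e2'⟩ := dn
        obtain ⟨g, g1, g2⟩ := exists_vert M e1
        obtain ⟨g', g1', g2'⟩ := exists_vert M e1'
        have hgg : g' = g := hM.X_inj (g1'.trans g1.symm)
        subst hgg
        have hY := tp_bo g2
        have hY' := tp_bo g2'
        have hle : M.bo g' ≤ M.tp g' := min_le_max
        have h5 := (gSX ι E M hM).1 g' b
        rw [g1] at h5
        exact h5.1 ⟨fun _ => h2, fun _ => h1⟩ ⟨by omega, by omega⟩
  obtain ⟨c, hc⟩ := region_conn hM q hv hz hh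
  have hur : ∀ C a, ¬ M.Fl C → M.Cov C a → f (M.ur C a) = c := by
    intro C a h1 h2
    have hb := gBEL ι E M hM C a h1 h2
    rw [← hqv (b := M.ht C a) h1 h2 le_rfl hb.2.1]
    exact hc _ _ (hb.2.2.2.2.1 _ le_rfl hb.2.1)
  refine ⟨c, fun e => ?_⟩
  have hlt := lo_lt_hi hM e
  by_cases he : M.Fl e
  · have hr : ¬ M.rot.Fl e := fun h => (ROT_Fl hM e).1 h he
    have hlt' := lo_lt_hi hrg e
    have hcov : M.rot.Cov e (M.rot.hi e - 1) := ⟨by omega, by omega⟩
    obtain ⟨q1, q2, q3, q4⟩ := rot_run hrg hr hcov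
    rw [rot_rot] at q1 q2 q3
    have h1 := hf _ _ q1 q2
    rw [hur _ _ q1 q2] at h1
    unfold la at h1
    rw [q3, show -1 - (-1 - (M.rot.hi e - 1)) = M.rot.hi e - 1 by ring, ur_of_end (by ring)] at h1
    exact h1.symm
  · have := hur e (M.hi e - 1) he ⟨by omega, by omega⟩
    rwa [ur_of_end (by ring)] at this

end PG

end Pool.Agent.Lib.MP06c549
end

section
/-!
# MP_06c549_co, plane graph: sums over the cells and over the sides of the cells
-/
set_option autoImplicit false
set_option linter.unusedSectionVars false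

namespace Pool.Agent.Lib.MP06c549

open Finset

namespace PG

variable {ι E : Type} [Fintype E] [DecidableEq E]

/-- `H` is constant along the cells -/
def Const {A : Type} (M : RM ι E) (H : E → ℤ → A) : Prop :=
  ∀ C a, ¬ M.Fl C → M.Cov C a → M.Cov C (a + 1) → M.ht C a = M.ht C (a + 1) → H C a = H C (a + 1)

/-- the sum over the cells -/
noncomputable def csum {A : Type} [AddCommMonoid A] (M : RM ι E) (H : E → ℤ → A) : A :=
  ∑ C ∈ univ.filter (fun C => ¬ M.Fl C), ∑ a ∈ starts (M.ht C) (M.lo C) (M.hi C), H C a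

lemma const_ur (M : RM ι E) : Const M M.ur := by
  intro C a _ _ h2 h3
  unfold RM.ur
  rw [uu_step h2.2 h3]

lemma const_ul (M : RM ι E) : Const M M.ul := by
  intro C a _ h1 h2 h3
  unfold RM.ul
  rw [pp_step h1.1 h3]

lemma bel_eq {M : RM ι E} (hM : M.Good) {C : E} {a b : ℤ} (h : M.ht C a = M.ht C b) :
    M.bel C a = M.bel C b := hM.Y_inj h

/-- two neighbouring columns of one cell, seen from below -/
lemma same_cell {M : RM ι E} (hM : M.Good) {C : E} {a : ℤ} (hC : ¬ M.Fl C) (hCa : M.Cov C a) :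
    (M.Cov C (a + 1) ∧ M.ht C a = M.ht C (a + 1)) ↔
      (M.rot.Cov (M.bel C a) (-1 - a - 1) ∧
        M.rot.ht (M.bel C a) (-1 - a - 1) = M.rot.ht (M.bel C a) (-1 - a)) := by
  obtain ⟨q1, q2, q3, q4⟩ := rot_run hM hC hCa
  constructor
  · rintro ⟨h1, h2⟩
    have h3 := bel_eq hM h2
    obtain ⟨p1, p2, p3, p4⟩ := rot_run hM hC h1
    rw [← h3, show -1 - (a + 1) = -1 - a - 1 by ring] at p2 p3 p4
    exact ⟨p2, by rw [p4, q4]⟩
  · rintro ⟨h1, h2⟩
    have hrg := good_rot hM
    have h3 := bel_eq hrg h2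
    rw [q3] at h3
    obtain ⟨p1, p2, p3, p4⟩ := rot_run hrg q1 h1
    rw [rot_rot, h3, show -1 - (-1 - a - 1) = a + 1 by ring] at p2 p3
    refine ⟨p2, ?_⟩
    unfold RM.ht
    rw [p3]

lemma const_la {M : RM ι E} (hM : M.Good) : Const M (la M) := by
  intro C a hC h1 h2 h3
  obtain ⟨q1, q2, q3, q4⟩ := rot_run hM hC h1
  obtain ⟨s1, s2⟩ := (same_cell hM hC h1).1 ⟨h2, h3⟩
  unfold la
  rw [← bel_eq hM h3, show -1 - (a + 1) = -1 - a - 1 by ring]
  have := const_ur M.rot (M.bel C a) (-1 - a - 1) q1 s1 (by rw [sub_add_cancel]; exact q2)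
    (by rw [sub_add_cancel]; exact s2)
  rw [sub_add_cancel] at this
  exact this.symm

lemma const_lb {M : RM ι E} (hM : M.Good) : Const M (lb M) := by
  intro C a hC h1 h2 h3
  obtain ⟨q1, q2, q3, q4⟩ := rot_run hM hC h1
  obtain ⟨s1, s2⟩ := (same_cell hM hC h1).1 ⟨h2, h3⟩
  unfold lb
  rw [← bel_eq hM h3, show -1 - (a + 1) = -1 - a - 1 by ring]
  have := const_ul M.rot (M.bel C a) (-1 - a - 1) q1 s1 (by rw [sub_add_cancel]; exact q2)
    (by rw [sub_add_cancel]; exact s2)
  rw [sub_add_cancel] at this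
  exact this.symm

/-- the sum over the last columns -/
lemma csum_lasts {A : Type} [AddCommMonoid A] {M : RM ι E} (hM : M.Good) {H : E → ℤ → A}
    (hH : Const M H) : csum M H =
      ∑ C ∈ univ.filter (fun C => ¬ M.Fl C), ∑ a ∈ lasts (M.ht C) (M.lo C) (M.hi C), H C a := by
  refine sum_congr rfl fun C hC => ?_
  rw [mem_filter] at hC
  have := lo_lt_hi hM C
  refine sum_starts_lasts' this.le _ fun i h1 h2 h3 => hH C i hC.2 ⟨h1, by omega⟩ ⟨by omega, h2⟩ h3

/-- the last columns: the last column of the row and the columns before the lines -/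
lemma sum_lasts {A : Type} [AddCommMonoid A] {h : ℤ → ℤ} {l r : ℤ} (hlr : l < r) (H : ℤ → A) :
    ∑ a ∈ lasts h l r, H a = H (r - 1) + ∑ t ∈ lines h l r, H (t - 1) := by
  have h1 : lasts h l r = insert (r - 1) ((lines h l r).image fun t => t - 1) := by
    ext i
    rw [mem_insert, mem_image, mem_lasts]
    constructor
    · rintro ⟨⟨a1, a2⟩, a3⟩
      rcases a3 with a3 | a3
      · exact Or.inl (by omega)
      · rcases eq_or_ne i (r - 1) with a4 | a4
        · exact Or.inl a4
        · exact Or.inr ⟨i + 1, mem_lines.2 ⟨⟨by omega, by omega⟩, by rwa [add_sub_cancel_right]⟩,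
            by ring⟩
    · rintro (rfl | ⟨t, ht, rfl⟩)
      · exact ⟨⟨by omega, by omega⟩, Or.inl (by ring)⟩
      · rw [mem_lines] at ht
        exact ⟨⟨by omega, by omega⟩, Or.inr (by rw [sub_add_cancel]; exact ht.2)⟩
  rw [h1, sum_insert, sum_image]
  · intro a _ b _ hab
    simpa using hab
  · rw [mem_image]
    rintro ⟨t, ht, he⟩
    rw [mem_lines] at ht
    omega

/-- the lines under the ceilings are the reflex upper ends -/
lemma sum_RT {A : Type} [AddCommMonoid A] {M : RM ι E} (hM : M.Good) (H : E → ℤ → A) :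
    ∑ C ∈ univ.filter (fun C => ¬ M.Fl C), ∑ t ∈ lines (M.ht C) (M.lo C) (M.hi C), H C t =
      ∑ f ∈ univ.filter (fun f => M.RT f), H (M.ot f) (M.X f) := by
  obtain ⟨l1, l2, l3, l4⟩ := gLIN ι E M hM
  rw [sum_sigma']
  symm
  refine sum_bij (fun f _ => (⟨M.ot f, M.X f⟩ : Σ _ : E, ℤ)) ?_ ?_ ?_ ?_
  · intro f hf
    rw [mem_filter] at hf
    obtain ⟨c1, c2, c3, -, c5⟩ := l2 f hf.2
    rw [mem_sigma, mem_filter, mem_lines]
    exact ⟨⟨mem_univ _, c1⟩, ⟨c2, c3⟩, c5⟩
  · intro f _ g _ he
    have : M.X f = M.X g := by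
      have := congrArg (fun x : Σ _ : E, ℤ => x.2) he
      exact this
    exact hM.X_inj this
  · rintro ⟨C, t⟩ hCt
    rw [mem_sigma, mem_filter, mem_lines] at hCt
    obtain ⟨⟨-, h1⟩, ⟨h2, h3⟩, h4⟩ := hCt
    obtain ⟨f, f1, f2, f3⟩ := l1 C t h1 h2 h3 h4
    refine ⟨f, mem_filter.2 ⟨mem_univ _, f2⟩, ?_⟩
    subst f1 f3
    rfl
  · intro f _
    rfl

/-- sums over the last columns -/
lemma csum_eq {A : Type} [AddCommMonoid A] {M : RM ι E} (hM : M.Good) {H : E → ℤ → A}
    (hH : Const M H) : csum M H =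
      ∑ C ∈ univ.filter (fun C => ¬ M.Fl C), H C (M.hi C - 1) +
        ∑ f ∈ univ.filter (fun f => M.RT f), H (M.ot f) (M.X f - 1) := by
  rw [csum_lasts hM hH, ← sum_RT hM (fun C t => H C (t - 1)), ← sum_add_distrib]
  exact sum_congr rfl fun C _ => sum_lasts (lo_lt_hi hM C) _

/-- the sum over the cells in the rotated model -/
lemma csum_rot {A : Type} [AddCommMonoid A] {M : RM ι E} (hM : M.Good) {H : E → ℤ → A}
    (hH : Const M H) : csum M H = csum M.rot fun F a => H (M.rot.bel F a) (-1 - a) := by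
  have hrg := good_rot hM
  rw [csum_lasts hM hH]
  unfold csum
  rw [sum_sigma', sum_sigma']
  refine sum_bij' (fun x _ => (⟨M.bel x.1 x.2, -1 - x.2⟩ : Σ _ : E, ℤ))
    (fun x _ => (⟨M.rot.bel x.1 x.2, -1 - x.2⟩ : Σ _ : E, ℤ)) ?_ ?_ ?_ ?_ ?_
  · rintro ⟨C, a⟩ hx
    rw [mem_sigma, mem_filter, mem_lasts] at hx
    obtain ⟨⟨-, h1⟩, ⟨h2, h3⟩, h4⟩ := hx
    change M.lo C ≤ a at h2
    change a < M.hi C at h3
    change a + 1 = M.hi C ∨ M.ht C a ≠ M.ht C (a + 1) at h4
    have h1' : ¬ M.Fl C := h1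
    obtain ⟨q1, q2, q3, q4⟩ := rot_run hM h1' ⟨h2, h3⟩
    have hsc := same_cell hM h1' ⟨h2, h3⟩
    rw [mem_sigma, mem_filter, mem_starts]
    refine ⟨⟨mem_univ _, q1⟩, ⟨q2.1, q2.2⟩, ?_⟩
    by_contra hcon
    push Not at hcon
    obtain ⟨c1, c2⟩ := hcon
    change -1 - a ≠ M.rot.lo (M.bel C a) at c1
    change M.rot.ht (M.bel C a) (-1 - a - 1) = M.rot.ht (M.bel C a) (-1 - a) at c2
    obtain ⟨d1, d2⟩ := hsc.2 ⟨⟨by have := q2.1; omega, by have := q2.2; omega⟩, c2⟩
    rcases h4 with h4 | h4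
    · have := d1.2; omega
    · exact h4 d2
  · rintro ⟨F, a⟩ hx
    rw [mem_sigma, mem_filter, mem_starts] at hx
    obtain ⟨⟨-, h1⟩, ⟨h2, h3⟩, h4⟩ := hx
    change M.rot.lo F ≤ a at h2
    change a < M.rot.hi F at h3
    change a = M.rot.lo F ∨ M.rot.ht F (a - 1) ≠ M.rot.ht F a at h4
    have h1' : ¬ M.rot.Fl F := h1
    obtain ⟨q1, q2, q3, q4⟩ := rot_run hrg h1' ⟨h2, h3⟩
    rw [rot_rot] at q1 q2 q3
    have hsc := same_cell hM q1 q2
    rw [q3, show -1 - (-1 - a) = a by ring] at hsc
    rw [mem_sigma, mem_filter, mem_lasts]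
    refine ⟨⟨mem_univ _, q1⟩, ⟨q2.1, q2.2⟩, ?_⟩
    by_contra hcon
    push Not at hcon
    obtain ⟨c1, c2⟩ := hcon
    change -1 - a + 1 ≠ M.hi (M.rot.bel F a) at c1
    change M.ht (M.rot.bel F a) (-1 - a) = M.ht (M.rot.bel F a) (-1 - a + 1) at c2
    obtain ⟨d1, d2⟩ := hsc.1 ⟨⟨by have := q2.1; omega, by have := q2.2; omega⟩, c2⟩
    rcases h4 with h4 | h4
    · have := d1.1; omega
    · exact h4 d2
  · rintro ⟨C, a⟩ hx
    rw [mem_sigma, mem_filter, mem_lasts] at hx
    obtain ⟨⟨-, h1⟩, ⟨h2, h3⟩, h4⟩ := hx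
    obtain ⟨q1, q2, q3, q4⟩ := rot_run hM (C := C) (a := a) h1 ⟨h2, h3⟩
    change (⟨M.rot.bel (M.bel C a) (-1 - a), -1 - (-1 - a)⟩ : Σ _ : E, ℤ) = ⟨C, a⟩
    rw [q3, show -1 - (-1 - a) = a by ring]
  · rintro ⟨F, a⟩ hx
    rw [mem_sigma, mem_filter, mem_starts] at hx
    obtain ⟨⟨-, h1⟩, ⟨h2, h3⟩, h4⟩ := hx
    obtain ⟨q1, q2, q3, q4⟩ := rot_run hrg (C := F) (a := a) h1 ⟨h2, h3⟩
    rw [rot_rot] at q3
    change (⟨M.bel (M.rot.bel F a) (-1 - a), -1 - (-1 - a)⟩ : Σ _ : E, ℤ) = ⟨F, a⟩
    rw [q3, show -1 - (-1 - a) = a by ring]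
  · rintro ⟨C, a⟩ hx
    rw [mem_sigma, mem_filter, mem_lasts] at hx
    obtain ⟨⟨-, h1⟩, ⟨h2, h3⟩, h4⟩ := hx
    obtain ⟨q1, q2, q3, q4⟩ := rot_run hM (C := C) (a := a) h1 ⟨h2, h3⟩
    change H C a = H (M.rot.bel (M.bel C a) (-1 - a)) (-1 - (-1 - a))
    rw [q3, show -1 - (-1 - a) = a by ring]

/-- the top sides of the cells -/
lemma csum_top {A : Type} [AddCommMonoid A] {M : RM ι E} (hM : M.Good) (G : E → E → A) :
    csum M (fun C a => G (M.ur C a) (M.ul C a)) =
      ∑ C ∈ univ.filter (fun C => ¬ M.Fl C), G C C +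
        ∑ f ∈ univ.filter (fun f => M.RT f), G (M.ta f) (M.tb f) := by
  obtain ⟨l1, l2, l3, l4⟩ := gLIN ι E M hM
  set P : E → ℤ × ℤ → A := fun C x => G (if x.1 = M.hi C then C else M.bel C x.1)
    (if x.2 = M.lo C then C else M.bel C (x.2 - 1)) with hP
  have h1 : ∀ C ∈ univ.filter (fun C => ¬ M.Fl C),
      ∑ a ∈ starts (M.ht C) (M.lo C) (M.hi C), G (M.ur C a) (M.ul C a) =
        G C C + ∑ t ∈ lines (M.ht C) (M.lo C) (M.hi C), P C (lpair (M.ht C) (M.lo C) (M.hi C) t) := by
    intro C hC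
    rw [mem_filter] at hC
    have := sum_pairs (lo_lt_hi hM C) (hhyp hM hC.2) (P C)
    have e : P C (M.hi C, M.lo C) = G C C := by
      simp only [hP]
      rw [if_pos trivial, if_pos trivial]
    rw [e] at this
    exact this
  unfold csum
  rw [sum_congr rfl h1, sum_add_distrib,
    sum_RT hM (fun C t => P C (lpair (M.ht C) (M.lo C) (M.hi C) t))]
  congr 1
  refine sum_congr rfl fun f hf => ?_
  rw [mem_filter] at hf
  obtain ⟨c1, c2, c3, c4, c5⟩ := l2 f hf.2
  simp only [hP]
  unfold lpair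
  by_cases ha : M.asc f
  · have ha' : M.ht (M.ot f) (M.X f - 1) < M.ht (M.ot f) (M.X f) := ha
    rw [if_pos ha']
    have e1 : M.ta f = M.bel (M.ot f) (M.X f) := if_pos ha
    have e2 : M.tb f = M.ul (M.ot f) (M.X f) := if_pos ha
    rw [e1, e2]
    simp only
    rw [if_neg (by omega : M.X f ≠ M.hi (M.ot f))]
    rfl
  · have ha' : ¬ M.ht (M.ot f) (M.X f - 1) < M.ht (M.ot f) (M.X f) := ha
    rw [if_neg ha']
    have e1 : M.ta f = M.ur (M.ot f) (M.X f - 1) := if_neg ha
    have e2 : M.tb f = M.bel (M.ot f) (M.X f - 1) := if_neg ha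
    rw [e1, e2]
    simp only
    rw [if_neg (by omega : M.X f ≠ M.lo (M.ot f))]
    rfl

/-- the upper right label of the cell before a line -/
lemma ur_line {M : RM ι E} (hM : M.Good) {f : E} (hf : M.RT f) :
    M.ur (M.ot f) (M.X f - 1) = M.ta f := by
  obtain ⟨l1, l2, l3, l4⟩ := gLIN ι E M hM
  obtain ⟨c1, c2, c3, c4, c5⟩ := l2 f hf
  by_cases ha : M.asc f
  · have ha' : M.ht (M.ot f) (M.X f - 1) < M.ht (M.ot f) (M.X f) := ha
    have e1 : M.ta f = M.bel (M.ot f) (M.X f) := if_pos ha
    rw [e1, ur_of_asc (by omega) (by rw [sub_add_cancel]; exact ha'), sub_add_cancel]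
  · exact (if_neg ha).symm

/-- the cell before a descent: its right side is the arrow -/
lemma lb_desc {M : RM ι E} (hM : M.Good) {f : E} (hf : M.RT f) (ha : ¬ M.asc f) :
    lb M (M.ot f) (M.X f - 1) = M.tb f := by
  obtain ⟨l1, l2, l3, l4⟩ := gLIN ι E M hM
  obtain ⟨d1, d2, d3⟩ := l4 f hf ha
  have e2 : M.tb f = M.bel (M.ot f) (M.X f - 1) := if_neg ha
  rw [e2]
  exact lb_of_end (by rw [d1]; ring)

/-- the cell before an ascent: its right side is the vertical edge -/
lemma comp_lb_asc {M : RM ι E} (hM : M.Good) {f : E} (hf : M.RT f) (_ha : M.asc f) :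
    M.comp (lb M (M.ot f) (M.X f - 1)) = M.comp f := by
  obtain ⟨l1, l2, l3, l4⟩ := gLIN ι E M hM
  obtain ⟨c1, c2, c3, c4, c5⟩ := l2 f hf
  have hcov : M.Cov (M.ot f) (M.X f - 1) := ⟨by omega, by omega⟩
  rcases right_side hM c1 hcov (Or.inr (by rw [sub_add_cancel]; exact c5)) with h | h | h
  · obtain ⟨h1, h2⟩ := h
    rw [h2]
    exact comp_end hM (Or.inr (by rw [h1]; ring))
  · obtain ⟨g, g1, g2, g3, g4, g5, g6⟩ := h
    rw [g6]
    congr 1
    exact hM.X_inj (by rw [g1]; ring)
  · obtain ⟨g, g1, g2, g3, g4, g5, g6⟩ := h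
    omega

end PG

end Pool.Agent.Lib.MP06c549
end

section
/-!
# MP_06c549_co, plane graph: the boundary of every face is even
-/
set_option autoImplicit false
set_option linter.unusedSectionVars false

namespace Pool.Agent.Lib.MP06c549

open Finset

namespace PG

variable {ι E : Type} [Fintype E] [DecidableEq E]

lemma zadd (x : ZMod 2) : x + x = 0 := CharTwo.add_self_eq_zero x

/-- the arrows whose source is the A-vertex `e₀` -/
noncomputable def srcs (M : RM ι E) (e₀ : E) : Finset E :=
  univ.filter fun f => (M.RT f ∧ M.asc f) ∧ M.ta f = e₀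

lemma mem_srcs {M : RM ι E} {e₀ f : E} : f ∈ srcs M e₀ ↔ (M.RT f ∧ M.asc f) ∧ M.ta f = e₀ := by
  simp [srcs]

/-- an A-vertex that is the source of an arrow is the left end of a floor -/
lemma srcs_facts {M : RM ι E} (hM : M.Good) {e₀ f : E} (h : f ∈ srcs M e₀) :
    M.Fl e₀ ∧ M.X f = M.lo e₀ ∧ M.comp e₀ = M.comp f ∧ M.Y e₀ = M.tp f ∧
      M.bel (M.ot f) (M.X f) = e₀ := by
  rw [mem_srcs] at h
  obtain ⟨⟨h1, h2⟩, h3⟩ := h
  obtain ⟨a1, a2, a3, a4, -⟩ := gTGA ι E M hM f h1 h2
  obtain ⟨d1, d2, d3⟩ := (gLIN ι E M hM).2.2.1 f h1 h2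
  have e1 : M.ta f = M.bel (M.ot f) (M.X f) := if_pos h2
  rw [h3] at a1 a2 a3 a4 e1
  rw [← e1] at d1
  exact ⟨a2, d1.symm, a4, a3, e1.symm⟩

lemma srcs_unique {M : RM ι E} (hM : M.Good) {e₀ f g : E} (h : f ∈ srcs M e₀) (h' : g ∈ srcs M e₀) :
    f = g := by
  apply hM.X_inj
  rw [(srcs_facts hM h).2.1, (srcs_facts hM h').2.1]

lemma rot_Fl {M : RM ι E} (hM : M.Good) (e : E) : M.rot.Fl e ↔ ¬ M.Fl e :=
  (gROT ι E M hM).2.2.2.2.2.1 e

/-- the right end of a ceiling: its right side is the vertical edge or the rotated arrow with this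
source -/
lemma comp_lb_end {M : RM ι E} (hM : M.Good) (g : ι → ZMod 2) {C : E} (hC : ¬ M.Fl C) :
    g (M.comp C) + g (M.comp (lb M C (M.hi C - 1))) =
      ∑ f ∈ srcs M.rot C, (g (M.comp (M.rot.tb f)) + g (M.comp C)) := by
  have hlt := lo_lt_hi hM C
  have hcov : M.Cov C (M.hi C - 1) := ⟨by omega, by omega⟩
  obtain ⟨q1, q2, q3, q4⟩ := rot_run hM hC hcov
  -- facts on a source
  have key : ∀ f ∈ srcs M.rot C, M.X f = M.hi C ∧ M.hi (M.bel C (M.hi C - 1)) ≠ M.hi C ∧
      M.rot.asc f := by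
    intro f hf
    obtain ⟨a1, a2, a3, a4, a5⟩ := srcs_facts (good_rot hM) hf
    rw [mem_srcs] at hf
    obtain ⟨b1, b2, b3, b4, b5⟩ := (gLIN ι E M.rot (good_rot hM)).2.1 f hf.1.1
    obtain ⟨p1, p2, p3, p4⟩ := rot_run (good_rot hM) b1 (a := M.rot.X f) ⟨b2.le, b3⟩
    rw [rot_rot, a5] at p3
    rw [rot_X, rot_lo] at a2
    have hX : M.X f = M.hi C := by omega
    rw [rot_X, hX, show -1 - -M.hi C = M.hi C - 1 by ring] at p3
    rw [rot_X, rot_lo] at b2
    refine ⟨hX, ?_, hf.1.2⟩
    rw [p3]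
    omega
  have hzero : ∀ f, M.X f = M.hi C → M.comp C = M.comp f := fun f h => comp_end hM (Or.inr h.symm)
  rcases right_side hM hC hcov (Or.inl (by ring)) with h | h | h
  · obtain ⟨h1, h2⟩ := h
    rw [sub_add_cancel] at h1
    have h3 : srcs M.rot C = ∅ := by
      rw [eq_empty_iff_forall_notMem]
      intro f hf
      exact (key f hf).2.1 h1
    obtain ⟨f, hf, -⟩ := exists_vert M (e := C) (t := M.hi C) (Or.inr rfl)
    rw [h3, sum_empty, h2, hzero f hf, comp_end hM (e := M.bel C (M.hi C - 1)) (f := f)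
      (Or.inr (by rw [h1, hf])), zadd]
  · obtain ⟨f, f1, f2, f3, f4, f5, f6⟩ := h
    rw [sub_add_cancel] at f1
    have h3 : srcs M.rot C = ∅ := by
      rw [eq_empty_iff_forall_notMem]
      intro f' hf'
      obtain ⟨k1, -, k3⟩ := key f' hf'
      rw [hM.X_inj (k1.trans f1.symm)] at k3
      exact f4 k3
    rw [h3, sum_empty, f6, hzero f f1, zadd]
  · obtain ⟨f, f1, f2, f3, f4, f5, f6, f7⟩ := h
    have hf : f ∈ srcs M.rot C := mem_srcs.2 ⟨⟨f2, f4⟩, f6⟩
    have h3 : srcs M.rot C = {f} := by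
      ext g'
      rw [mem_singleton]
      exact ⟨fun h => srcs_unique (good_rot hM) h hf, fun h => h ▸ hf⟩
    rw [h3, sum_singleton, f7, add_comm]

/-- the sum over the cells whose upper right label is `e₀` -/
lemma half_sum {M : RM ι E} (hM : M.Good) (g : ι → ZMod 2) (e₀ : E) :
    csum M (fun C a => if M.ur C a = e₀ then g (M.comp (M.ul C a)) + g (M.comp (lb M C a)) else 0) =
      ∑ f ∈ srcs M e₀, (g (M.comp (M.tb f)) + g (M.comp e₀)) +
        ∑ f ∈ srcs M.rot e₀, (g (M.comp (M.rot.tb f)) + g (M.comp e₀)) := by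
  have h1 : csum M (fun C a => if M.ur C a = e₀ then
      g (M.comp (M.ul C a)) + g (M.comp (lb M C a)) else 0) =
      csum M (fun C a => if M.ur C a = e₀ then g (M.comp (M.ul C a)) else 0) +
        csum M (fun C a => if M.ur C a = e₀ then g (M.comp (lb M C a)) else 0) := by
    unfold csum
    rw [← sum_add_distrib]
    refine sum_congr rfl fun C _ => ?_
    rw [← sum_add_distrib]
    refine sum_congr rfl fun a _ => ?_
    beta_reduce
    split_ifs <;> simp
  have h2 := csum_top hM (fun a b => if a = e₀ then g (M.comp b) else (0 : ZMod 2))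
  have h3 := csum_eq hM (H := fun C a => if M.ur C a = e₀ then g (M.comp (lb M C a)) else 0) (by
    intro C a hC c1 c2 c3
    have e1 := const_ur M C a hC c1 c2 c3
    have e2 := const_lb hM C a hC c1 c2 c3
    simp only
    rw [e1, e2])
  rw [h1, h2, h3]
  -- the ceilings
  have h4 : ∑ C ∈ univ.filter (fun C => ¬ M.Fl C), (if C = e₀ then g (M.comp C) else 0) +
      ∑ C ∈ univ.filter (fun C => ¬ M.Fl C),
        (if M.ur C (M.hi C - 1) = e₀ then g (M.comp (lb M C (M.hi C - 1))) else 0) =
      ∑ f ∈ srcs M.rot e₀, (g (M.comp (M.rot.tb f)) + g (M.comp e₀)) := by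
    rw [← sum_add_distrib]
    have h5 : ∀ C ∈ univ.filter (fun C => ¬ M.Fl C),
        ((if C = e₀ then g (M.comp C) else 0) +
          (if M.ur C (M.hi C - 1) = e₀ then g (M.comp (lb M C (M.hi C - 1))) else 0)) =
        if C = e₀ then ∑ f ∈ srcs M.rot e₀, (g (M.comp (M.rot.tb f)) + g (M.comp e₀)) else 0 := by
      intro C hC
      rw [mem_filter] at hC
      rw [ur_of_end (by ring)]
      by_cases he : C = e₀
      · subst he
        rw [if_pos rfl, if_pos rfl, if_pos rfl]
        exact comp_lb_end hM g hC.2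
      · rw [if_neg he, if_neg he, if_neg he, add_zero]
    rw [sum_congr rfl h5]
    by_cases hF : M.Fl e₀
    · have h6 : srcs M.rot e₀ = ∅ := by
        rw [eq_empty_iff_forall_notMem]
        intro f hf
        exact (rot_Fl hM e₀).1 (srcs_facts (good_rot hM) hf).1 hF
      rw [h6, sum_empty]
      exact sum_eq_zero fun C _ => by split_ifs <;> rfl
    · rw [sum_ite_eq_of_mem']
      exact mem_filter.2 ⟨mem_univ _, hF⟩
  -- the arrows
  have h7 : ∑ f ∈ univ.filter (fun f => M.RT f), (if M.ta f = e₀ then g (M.comp (M.tb f)) else 0) +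
      ∑ f ∈ univ.filter (fun f => M.RT f),
        (if M.ur (M.ot f) (M.X f - 1) = e₀ then
          g (M.comp (lb M (M.ot f) (M.X f - 1))) else 0) =
      ∑ f ∈ srcs M e₀, (g (M.comp (M.tb f)) + g (M.comp e₀)) := by
    rw [← sum_add_distrib]
    have h8 : srcs M e₀ = (univ.filter fun f => M.RT f).filter fun f => M.asc f ∧ M.ta f = e₀ := by
      rw [filter_filter]
      unfold srcs
      refine filter_congr fun f _ => ?_
      tauto
    have h9 : ∑ f ∈ srcs M e₀, (g (M.comp (M.tb f)) + g (M.comp e₀)) =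
        ∑ f ∈ univ.filter (fun f => M.RT f), if M.asc f ∧ M.ta f = e₀ then
          (g (M.comp (M.tb f)) + g (M.comp e₀)) else 0 := by
      rw [h8]
      exact sum_filter _ _
    rw [h9]
    refine sum_congr rfl fun f hf => ?_
    rw [mem_filter] at hf
    rw [ur_line hM hf.2]
    by_cases ht : M.ta f = e₀
    · rw [if_pos ht, if_pos ht]
      by_cases ha : M.asc f
      · rw [if_pos ⟨ha, ht⟩, comp_lb_asc hM hf.2 ha]
        have := (gTGA ι E M hM f hf.2 ha).2.2.2.1
        rw [ht] at this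
        rw [this]
      · rw [if_neg (fun h => ha h.1), lb_desc hM hf.2 ha, zadd]
    · rw [if_neg ht, if_neg ht, if_neg (fun h => ht h.2), add_zero]
  rw [← h4, ← h7]
  ring

/-- EVEN: at every A-vertex `e₀`, the number of the incidences of the cells at `e₀` with a component
is even. -/
theorem even_sum {M : RM ι E} (hM : M.Good) (g : ι → ZMod 2) (e₀ : E) :
    csum M (fun C a => ((if M.ur C a = e₀ then 1 else 0) + (if la M C a = e₀ then 1 else 0)) *
      (g (M.comp (M.ul C a)) + g (M.comp (lb M C a)))) = 0 := by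
  have h1 : csum M (fun C a => ((if M.ur C a = e₀ then 1 else 0) +
      (if la M C a = e₀ then 1 else 0)) * (g (M.comp (M.ul C a)) + g (M.comp (lb M C a)))) =
      csum M (fun C a => if M.ur C a = e₀ then
        g (M.comp (M.ul C a)) + g (M.comp (lb M C a)) else 0) +
      csum M (fun C a => if la M C a = e₀ then
        g (M.comp (M.ul C a)) + g (M.comp (lb M C a)) else 0) := by
    unfold csum
    rw [← sum_add_distrib]
    refine sum_congr rfl fun C _ => ?_
    rw [← sum_add_distrib]
    refine sum_congr rfl fun a _ => ?_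
    beta_reduce
    split_ifs <;> ring
  have h2 : csum M (fun C a => if la M C a = e₀ then
      g (M.comp (M.ul C a)) + g (M.comp (lb M C a)) else 0) =
      csum M.rot (fun F a => if M.rot.ur F a = e₀ then
        g (M.rot.comp (M.rot.ul F a)) + g (M.rot.comp (lb M.rot F a)) else 0) := by
    rw [csum_rot hM (by
      intro C a hC c1 c2 c3
      have e1 := const_la hM C a hC c1 c2 c3
      have e2 := const_lb hM C a hC c1 c2 c3
      have e3 := const_ul M C a hC c1 c2 c3
      simp only
      rw [e1, e2, e3])]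
    refine sum_congr rfl fun F hF => sum_congr rfl fun a ha => ?_
    rw [mem_filter] at hF
    rw [mem_starts] at ha
    obtain ⟨q1, q2, q3, q4⟩ := rot_run (good_rot hM) hF.2 (a := a) ⟨ha.1.1, ha.1.2⟩
    rw [rot_rot] at q1 q2 q3
    have e1 : la M (M.rot.bel F a) (-1 - a) = M.rot.ur F a := by
      unfold la
      rw [q3, show -1 - (-1 - a) = a by ring]
    have e2 : lb M (M.rot.bel F a) (-1 - a) = M.rot.ul F a := by
      unfold lb
      rw [q3, show -1 - (-1 - a) = a by ring]
    have e3 : lb M.rot F a = M.ul (M.rot.bel F a) (-1 - a) := by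
      unfold lb
      rw [rot_rot]
    beta_reduce
    rw [e1, e2, e3]
    simp only [rot_comp]
    split_ifs
    · rw [add_comm]
    · rfl
  rw [h1, h2, half_sum hM g e₀, half_sum (good_rot hM) g e₀, rot_rot]
  simp only [rot_comp]
  generalize (∑ f ∈ srcs M e₀, (g (M.comp (M.tb f)) + g (M.comp e₀))) = x
  generalize (∑ f ∈ srcs M.rot e₀, (g (M.comp (M.rot.tb f)) + g (M.comp e₀))) = y
  rw [add_comm y x]
  exact zadd _

end PG

end Pool.Agent.Lib.MP06c549
end
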