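import Mathlib
import Pool.Agent.Lib.MP_06c549_co.PG.EVEN
import Pool.Agent.Lib.MP_06c549_co.PG.EUL

section
/-!
# MP_06c549_co, plane graph: exactness by counting dimensions

`p d`, `q d` are the two ends of the edge `d` and `l d`, `r d` the two faces at the edge `d`.
-/
set_option autoImplicit false
set_option linter.unusedSectionVars false

namespace Pool.Agent.Lib.MP06c549

open Finset

namespace PG

section

variable {V D : Type} [Fintype V] [DecidableEq V] [Fintype D] [DecidableEq D]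

/-- the incidence matrix of the edges `d` with ends `p d`, `q d` -/
def incM (p q : D → V) : Matrix D V (ZMod 2) :=
  Matrix.of fun d v => (if p d = v then 1 else 0) + (if q d = v then 1 else 0)

lemma incM_apply (p q : D → V) (d : D) (v : V) :
    incM p q d v = (if p d = v then 1 else 0) + (if q d = v then 1 else 0) := rfl

lemma incM_mulVec (p q : D → V) (f : V → ZMod 2) (d : D) :
    (incM p q).mulVec f d = f (p d) + f (q d) := by
  unfold Matrix.mulVec dotProduct
  simp only [incM_apply, add_mul, ite_mul, one_mul, zero_mul, sum_add_distrib]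
  rw [sum_ite_eq, sum_ite_eq, if_pos (mem_univ _), if_pos (mem_univ _)]

lemma incM_tr (p q : D → V) (z : D → ZMod 2) (v : V) :
    (incM p q).transpose.mulVec z v =
      ∑ d, z d * ((if p d = v then 1 else 0) + (if q d = v then 1 else 0)) := by
  change ∑ d, (incM p q) d v * z d = _
  exact sum_congr rfl fun d _ => mul_comm _ _

lemma incM_rank [Nonempty V] (p q : D → V)
    (hconn : ∀ f : V → ZMod 2, (∀ d, f (p d) = f (q d)) → ∃ c, ∀ v, f v = c) :
    (incM p q).rank + 1 = Fintype.card V := by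
  have h1 := LinearMap.finrank_range_add_finrank_ker (incM p q).mulVecLin
  rw [Module.finrank_pi] at h1
  have h2 : Module.finrank (ZMod 2) (LinearMap.ker (incM p q).mulVecLin) = 1 := by
    have h3 : LinearMap.ker (incM p q).mulVecLin =
        Submodule.span (ZMod 2) {fun _ : V => (1 : ZMod 2)} := by
      ext f
      rw [LinearMap.mem_ker, Matrix.mulVecLin_apply, Submodule.mem_span_singleton]
      constructor
      · intro h
        obtain ⟨c, hc⟩ := hconn f fun d => by
          have := congrFun h d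
          rw [incM_mulVec] at this
          exact CharTwo.add_eq_zero.1 this
        refine ⟨c, ?_⟩
        ext v
        simp [hc v]
      · rintro ⟨c, rfl⟩
        ext d
        rw [incM_mulVec]
        simp only [Pi.smul_apply, Pi.zero_apply]
        exact CharTwo.add_self_eq_zero _
    rw [h3]
    refine finrank_span_singleton ?_
    intro h
    obtain ⟨v⟩ := ‹Nonempty V›
    have := congrFun h v
    simp at this
  rw [h2] at h1
  exact h1

end

variable {V D F : Type} [Fintype V] [DecidableEq V] [Fintype D] [DecidableEq D]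
  [Fintype F] [DecidableEq F]

/-- exactness on one side -/
lemma exact_aux [Nonempty V] [Nonempty F] (p q : D → V) (l r : D → F)
    (heven : ∀ v i, ∑ d, ((if p d = v then 1 else 0) + (if q d = v then 1 else 0)) *
      ((if l d = i then (1 : ZMod 2) else 0) + (if r d = i then 1 else 0)) = 0)
    (hconn : ∀ f : V → ZMod 2, (∀ d, f (p d) = f (q d)) → ∃ c, ∀ v, f v = c)
    (hdconn : ∀ x : F → ZMod 2, (∀ d, x (l d) = x (r d)) → ∃ c, ∀ i, x i = c)
    (hcard : Fintype.card D + 2 ≤ Fintype.card V + Fintype.card F) :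
    Fintype.card D + 2 = Fintype.card V + Fintype.card F ∧
    ∀ z : D → ZMod 2, (∀ v, ∑ d, z d * ((if p d = v then 1 else 0) +
      (if q d = v then 1 else 0)) = 0) → ∃ x : F → ZMod 2, ∀ d, z d = x (l d) + x (r d) := by
  have hA := incM_rank p q hconn
  have hB := incM_rank l r hdconn
  set A := incM p q with hAdef
  set B := incM l r with hBdef
  have hT : A.transpose.rank = A.rank := Matrix.rank_transpose A
  have h1 := LinearMap.finrank_range_add_finrank_ker A.transpose.mulVecLin
  rw [Module.finrank_pi] at h1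
  have h1' : A.rank + Module.finrank (ZMod 2) (LinearMap.ker A.transpose.mulVecLin) =
      Fintype.card D := by
    rw [← hT]
    exact h1
  have hmem : ∀ z : D → ZMod 2, z ∈ LinearMap.ker A.transpose.mulVecLin ↔
      ∀ v, ∑ d, z d * ((if p d = v then 1 else 0) + (if q d = v then 1 else 0)) = 0 := by
    intro z
    rw [LinearMap.mem_ker, Matrix.mulVecLin_apply]
    constructor
    · intro h v
      have := congrFun h v
      rw [hAdef, incM_tr] at this
      exact this
    · intro h
      ext v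
      rw [hAdef, incM_tr]
      exact h v
  have hle : LinearMap.range B.mulVecLin ≤ LinearMap.ker A.transpose.mulVecLin := by
    rintro _ ⟨x, rfl⟩
    rw [hmem]
    intro v
    rw [Matrix.mulVecLin_apply]
    have h2 : ∀ d, B.mulVec x d = ∑ i, ((if l d = i then 1 else 0) +
        (if r d = i then 1 else 0)) * x i := by
      intro d
      rfl
    calc ∑ d, B.mulVec x d * ((if p d = v then 1 else 0) + (if q d = v then 1 else 0))
        = ∑ d, ∑ i, x i * (((if p d = v then 1 else 0) + (if q d = v then 1 else 0)) *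
          ((if l d = i then 1 else 0) + (if r d = i then 1 else 0))) := by
          refine sum_congr rfl fun d _ => ?_
          rw [h2, sum_mul]
          refine sum_congr rfl fun i _ => ?_
          ring
      _ = ∑ i, x i * ∑ d, ((if p d = v then 1 else 0) + (if q d = v then 1 else 0)) *
          ((if l d = i then 1 else 0) + (if r d = i then 1 else 0)) := by
          rw [sum_comm]
          refine sum_congr rfl fun i _ => ?_
          rw [mul_sum]
      _ = 0 := by
          refine sum_eq_zero fun i _ => ?_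
          rw [heven v i, mul_zero]
  have hrB : Module.finrank (ZMod 2) (LinearMap.range B.mulVecLin) = B.rank := rfl
  have hle2 := Submodule.finrank_mono hle
  rw [hrB] at hle2
  have heq : Module.finrank (ZMod 2) (LinearMap.ker A.transpose.mulVecLin) ≤
      Module.finrank (ZMod 2) (LinearMap.range B.mulVecLin) := by
    rw [hrB]
    omega
  have hEq := Submodule.eq_of_le_of_finrank_le hle heq
  refine ⟨by rw [hrB] at heq; omega, fun z hz => ?_⟩
  have h3 : z ∈ LinearMap.range B.mulVecLin := by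
    rw [hEq, hmem]
    exact hz
  obtain ⟨x, hx⟩ := h3
  refine ⟨x, fun d => ?_⟩
  rw [← hx, Matrix.mulVecLin_apply, hBdef, incM_mulVec]

/-- EXACT: exactness on both sides and Euler's formula -/
theorem exact_both [Nonempty V] [Nonempty F] (p q : D → V) (l r : D → F)
    (heven : ∀ v i, ∑ d, ((if p d = v then 1 else 0) + (if q d = v then 1 else 0)) *
      ((if l d = i then (1 : ZMod 2) else 0) + (if r d = i then 1 else 0)) = 0)
    (hconn : ∀ f : V → ZMod 2, (∀ d, f (p d) = f (q d)) → ∃ c, ∀ v, f v = c)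
    (hdconn : ∀ x : F → ZMod 2, (∀ d, x (l d) = x (r d)) → ∃ c, ∀ i, x i = c)
    (hcard : Fintype.card D + 2 ≤ Fintype.card V + Fintype.card F) :
    Fintype.card D + 2 = Fintype.card V + Fintype.card F ∧
    (∀ z : D → ZMod 2, (∀ v, ∑ d, z d * ((if p d = v then 1 else 0) +
      (if q d = v then 1 else 0)) = 0) → ∃ x : F → ZMod 2, ∀ d, z d = x (l d) + x (r d)) ∧
    (∀ y : D → ZMod 2, (∀ i, ∑ d, y d * ((if l d = i then 1 else 0) +
      (if r d = i then 1 else 0)) = 0) → ∃ f : V → ZMod 2, ∀ d, y d = f (p d) + f (q d)) := by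
  obtain ⟨h1, h2⟩ := exact_aux p q l r heven hconn hdconn hcard
  refine ⟨h1, h2, ?_⟩
  refine (exact_aux l r p q (fun i v => ?_) hdconn hconn (by omega)).2
  exact (sum_congr rfl fun d _ => mul_comm _ _).trans (heven v i)

end PG

end Pool.Agent.Lib.MP06c549
end

section
/-!
# MP_06c549_co, plane graph: the faces at a vertex are linked by the edges at this vertex
-/
set_option autoImplicit false
set_option linter.unusedSectionVars false

namespace Pool.Agent.Lib.MP06c549

open Finset

namespace PG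

variable {ι E : Type} [Fintype E] [DecidableEq E]

/-- the ceiling: the cells whose upper right label is the ceiling itself -/
lemma link_ceil {A : Type} {M : RM ι E} (hM : M.Good) (y : E → A) {C : E} (hC : ¬ M.Fl C)
    (hx : ∀ a, M.Cov C a → M.ur C a = C → y (M.ul C a) = y (lb M C a)) :
    ∀ n : ℕ, ∀ a, a = M.lo C + n → M.Cov C a → UU (M.ht C) (M.hi C) a = M.hi C →
      y (M.ul C a) = y C := by
  obtain ⟨l1, l2, l3, l4⟩ := gLIN ι E M hM
  intro n
  induction n using Nat.strong_induction_on with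
  | _ n ih =>
    intro a ha hCa hU
    obtain ⟨p1, p2, p3, p4⟩ := SEQM.pp (M.ht C) (M.lo C) a hCa.1
    obtain ⟨u1, u2, u3, u4⟩ := SEQM.uu (M.ht C) (M.hi C) a hCa.2
    by_cases hP : PP (M.ht C) (M.lo C) a = M.lo C
    · have : M.ul C a = C := by
        unfold RM.ul
        rw [if_pos hP]
      rw [this]
    · set P := PP (M.ht C) (M.lo C) a with hPdef
      have hlP : M.lo C < P := by omega
      have h1 := p4 hlP
      have hcov : M.Cov C (P - 1) := ⟨by omega, by have := hCa.2; omega⟩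
      have hU' : UU (M.ht C) (M.hi C) (P - 1) = M.hi C := by
        refine uu_eq (by have := hCa.2; omega) le_rfl (fun k k1 k2 => ?_) fun h => absurd h (lt_irrefl _)
        rcases lt_or_ge k P with h2 | h2
        · rw [show k = P - 1 by omega]
        · rcases le_or_gt k a with h3 | h3
          · have := p3 k h2 h3; omega
          · have := u3 k h3.le (by omega); omega
      have h2 := ih (P - 1 - M.lo C).toNat (by omega) (P - 1) (by omega) hcov hU'
      have hur : M.ur C (P - 1) = C := by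
        unfold RM.ur
        rw [if_pos hU']
      rw [hx _ hcov hur] at h2
      -- the floor of the column `P - 1` ends at `P`
      have hdesc : M.ht C P < M.ht C (P - 1) := by
        have := p3 P le_rfl p2
        omega
      have hne : M.ht C (P - 1) ≠ M.ht C P := by omega
      obtain ⟨f, f1, f2, f3⟩ := l1 C P hC hlP (by have := hCa.2; omega) hne
      have hna : ¬ M.asc f := by
        intro h
        unfold RM.asc at h
        rw [f3, f1] at h
        omega
      obtain ⟨d1, d2, d3⟩ := l4 f f2 hna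
      rw [f3, f1] at d1
      have e1 : lb M C (P - 1) = M.bel C (P - 1) := lb_of_end (by rw [d1]; ring)
      have e2 : M.ul C a = M.bel C (P - 1) := by
        unfold RM.ul
        rw [if_neg hP]
      rw [e2, ← e1, h2]

/-- the arrow: the cells whose upper right label is the source of the arrow -/
lemma link_arrow {A : Type} {M : RM ι E} (hM : M.Good) (y : E → A) {f : E} (hf : M.RT f)
    (ha : M.asc f)
    (hx : ∀ a, M.Cov (M.ot f) a → M.ur (M.ot f) a = M.ta f →
      y (M.ul (M.ot f) a) = y (lb M (M.ot f) a)) :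
    ∀ n : ℕ, ∀ a, a + n + 1 = M.X f → M.Cov (M.ot f) a →
      UU (M.ht (M.ot f)) (M.hi (M.ot f)) a = M.X f →
      y (M.ul (M.ot f) a) = y (lb M (M.ot f) (M.X f - 1)) := by
  obtain ⟨l1, l2, l3, l4⟩ := gLIN ι E M hM
  obtain ⟨c1, c2, c3, c4, c5⟩ := l2 f hf
  have hta : M.ta f = M.bel (M.ot f) (M.X f) := if_pos ha
  have hasc : M.ht (M.ot f) (M.X f - 1) < M.ht (M.ot f) (M.X f) := ha
  set C := M.ot f with hCdef
  set U := M.X f with hUdef
  -- the upper right label
  have hur : ∀ a, M.Cov C a → UU (M.ht C) (M.hi C) a = U → M.ur C a = M.ta f := by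
    intro a _ h
    unfold RM.ur
    rw [h, if_neg (by omega), hta]
  -- the last column
  have hlast : y (M.ul C (U - 1)) = y (lb M C (U - 1)) := by
    have hcov : M.Cov C (U - 1) := ⟨by omega, by omega⟩
    have hU : UU (M.ht C) (M.hi C) (U - 1) = U :=
      uu_eq (by omega) c3.le (fun k k1 k2 => by rw [show k = U - 1 by omega]) fun _ => hasc
    exact hx _ hcov (hur _ hcov hU)
  intro n
  induction n using Nat.strong_induction_on with
  | _ n ih =>
    intro a han hCa hU
    obtain ⟨u1, u2, u3, u4⟩ := SEQM.uu (M.ht C) (M.hi C) a hCa.2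
    rw [hU] at u1 u3 u4
    -- the cell of `a`
    by_cases hc : ∀ k, a ≤ k → k < U → M.ht C k = M.ht C a
    · -- the last cell
      have key : ∀ m : ℕ, a + m ≤ U - 1 → M.ul C a = M.ul C (a + m) := by
        intro m
        induction m with
        | zero => intro _; simp
        | succ m im =>
          intro hm
          push_cast at hm ⊢
          rw [im (by omega), ← add_assoc]
          refine const_ul M C _ c1 ⟨by have := hCa.1; omega, by omega⟩
            ⟨by have := hCa.1; omega, by omega⟩ ?_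
          rw [hc _ (by omega) (by omega)]
          exact (hc _ (by omega) (by omega)).symm
      have := key (U - 1 - a).toNat (by omega)
      rw [this, show a + ((U - 1 - a).toNat : ℤ) = U - 1 by omega]
      exact hlast
    · push Not at hc
      -- the first column with another value
      obtain ⟨k0, k1, k2, k3⟩ := hc
      have hne : ((Ico a U).filter fun k => M.ht C k ≠ M.ht C a).Nonempty :=
        ⟨k0, mem_filter.2 ⟨mem_Ico.2 ⟨k1, k2⟩, k3⟩⟩
      obtain ⟨j, hj, hmin⟩ := exists_min_image _ (fun x : ℤ => x) hne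
      rw [mem_filter, mem_Ico] at hj
      obtain ⟨⟨j1, j2⟩, j3⟩ := hj
      have hc' : ∀ k, a ≤ k → k < j → M.ht C k = M.ht C a := by
        intro k e1 e2
        by_contra h
        have := hmin k (mem_filter.2 ⟨mem_Ico.2 ⟨e1, by omega⟩, h⟩)
        omega
      have haj : a < j := by
        rcases eq_or_lt_of_le j1 with h | h
        · exact absurd (by rw [← h]) j3
        · exact h
      have hja : M.ht C (j - 1) = M.ht C a := hc' _ (by omega) (by omega)
      have hdesc : M.ht C j < M.ht C (j - 1) := by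
        have := u3 j j1 j2
        omega
      obtain ⟨k, g1, g2, g3, g4, g5⟩ := chain (hhyp hM c1) hCa.1 haj hc' (by rw [hU]; exact j2)
        hdesc hCa.2
      rw [hU] at g3 g4
      have hcovk : M.Cov C k := ⟨by have := hCa.1; omega, by omega⟩
      have h1 := ih (U - 1 - k).toNat (by omega) k (by omega) hcovk g4
      have e1 : M.ul C k = M.bel C (j - 1) := by
        unfold RM.ul
        rw [g5, if_neg (by have := hCa.1; omega)]
      -- the floor of the column `j - 1` ends at `j`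
      have hne' : M.ht C (j - 1) ≠ M.ht C j := by omega
      obtain ⟨f', f1, f2, f3⟩ := l1 C j c1 (by have := hCa.1; omega) (by omega) hne'
      have hna : ¬ M.asc f' := by
        intro h
        unfold RM.asc at h
        rw [f3, f1] at h
        omega
      obtain ⟨d1, d2, d3⟩ := l4 f' f2 hna
      rw [f3, f1] at d1
      have e2 : lb M C (j - 1) = M.bel C (j - 1) := lb_of_end (by rw [d1]; ring)
      have hcovj : M.Cov C (j - 1) := ⟨by have := hCa.1; omega, by omega⟩
      have hUj : UU (M.ht C) (M.hi C) (j - 1) = U := by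
        refine uu_eq (by omega) c3.le (fun k k1 k2 => ?_) fun h => ?_
        · rw [hja]; exact u3 k (by omega) k2
        · rw [hja]; exact u4 h
      have e3 := hx _ hcovj (hur _ hcovj hUj)
      -- `ul` is constant on the cell of `a`
      have key : ∀ m : ℕ, a + m ≤ j - 1 → M.ul C a = M.ul C (a + m) := by
        intro m
        induction m with
        | zero => intro _; simp
        | succ m im =>
          intro hm
          push_cast at hm ⊢
          rw [im (by omega), ← add_assoc]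
          refine const_ul M C _ c1 ⟨by have := hCa.1; omega, by omega⟩
            ⟨by have := hCa.1; omega, by omega⟩ ?_
          rw [hc' _ (by omega) (by omega)]
          exact (hc' _ (by omega) (by omega)).symm
      have e4 := key (j - 1 - a).toNat (by omega)
      rw [show a + ((j - 1 - a).toNat : ℤ) = j - 1 by omega] at e4
      rw [e4, e3, e2, ← e1, h1]

/-- the upper right label: either the ceiling, or the source of an arrow -/
lemma ur_cases {M : RM ι E} (hM : M.Good) {C : E} {a : ℤ} (hC : ¬ M.Fl C) (hCa : M.Cov C a) :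
    (M.ur C a = C ∧ UU (M.ht C) (M.hi C) a = M.hi C) ∨
    (∃ f, M.RT f ∧ M.asc f ∧ M.ot f = C ∧ UU (M.ht C) (M.hi C) a = M.X f ∧ M.ta f = M.ur C a) := by
  obtain ⟨u1, u2, u3, u4⟩ := SEQM.uu (M.ht C) (M.hi C) a hCa.2
  rcases eq_or_lt_of_le u2 with h | h
  · left
    refine ⟨?_, h⟩
    unfold RM.ur
    rw [if_pos h]
  · right
    set U := UU (M.ht C) (M.hi C) a with hU
    have h1 := u4 h
    have h2 := u3 (U - 1) (by omega) (by omega)
    have hlt : M.ht C (U - 1) < M.ht C U := by omega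
    obtain ⟨f, f1, f2, f3⟩ := (gLIN ι E M hM).1 C U hC (by have := hCa.1; omega) h (by omega)
    have hasc : M.asc f := by
      unfold RM.asc
      rw [f3, f1]
      exact hlt
    refine ⟨f, f2, hasc, f3, f1.symm, ?_⟩
    have e1 : M.ta f = M.bel (M.ot f) (M.X f) := if_pos hasc
    unfold RM.ur
    rw [e1, f3, f1, if_neg (by omega)]

lemma bo_lt_tp' {M : RM ι E} (hM : M.Good) (f : E) : M.bo f < M.tp f := by
  have h : M.Y (M.s.symm f) ≠ M.Y f := by
    intro h
    have h1 := hM.Y_inj h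
    have h2 := hM.s_ne (M.s.symm f)
    rw [Equiv.apply_symm_apply] at h2
    exact h2 h1.symm
  unfold RM.bo RM.tp
  omega

/-- there is a cell whose upper labels are the ends of the arrow -/
lemma exists_arrow {M : RM ι E} (hM : M.Good) {f : E} (hf : M.RT f) (ha : M.asc f) :
    ∃ k, M.Cov (M.ot f) k ∧ UU (M.ht (M.ot f)) (M.hi (M.ot f)) k = M.X f ∧
      M.ul (M.ot f) k = M.tb f ∧ k < M.X f := by
  obtain ⟨c1, c2, c3, c4, c5⟩ := (gLIN ι E M hM).2.1 f hf
  have htb : M.tb f = M.ul (M.ot f) (M.X f) := if_pos ha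
  have hasc : M.ht (M.ot f) (M.X f - 1) < M.ht (M.ot f) (M.X f) := ha
  set C := M.ot f with hCdef
  set U := M.X f with hUdef
  obtain ⟨p1, p2, p3, p4⟩ := SEQM.pp (M.ht C) (M.lo C) U c2.le
  have hPt : PP (M.ht C) (M.lo C) U < U := by
    by_contra hcon
    have : PP (M.ht C) (M.lo C) U = U := by omega
    rw [this] at p4
    have := p4 c2
    omega
  have hst : ∀ k, PP (M.ht C) (M.lo C) U ≤ k → k < U → M.ht C k < M.ht C U := by
    intro k k1 k2
    refine lt_of_le_of_ne (p3 k k1 k2.le) fun he => ?_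
    have := hhyp hM c1 k (U - 1) U (by omega) (by omega) (by omega) c3 he
    omega
  obtain ⟨k, k0, k1, k2, k3, k4, -⟩ := exists_between (h := M.ht C) (l := M.lo C) (r := M.hi C)
    hPt p1 c3.le (fun h1 k k1 k2 => (hst k k1 k2).trans (p4 h1)) (fun _ k k1 k2 => hst k k1 k2)
  refine ⟨k, ⟨by omega, by omega⟩, k3, ?_, k2⟩
  rw [htb]
  unfold RM.ul
  rw [k4]

/-- the lower right label before an ascent: the other end of the vertical edge -/
lemma lb_asc {M : RM ι E} (hM : M.Good) {f : E} (hf : M.RT f) (ha : M.asc f) :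
    M.comp (lb M (M.ot f) (M.X f - 1)) = M.comp (M.ta f) ∧
      lb M (M.ot f) (M.X f - 1) ≠ M.ta f ∧ M.bx (lb M (M.ot f) (M.X f - 1)) = M.ax (M.ta f) := by
  obtain ⟨l1, l2, l3, l4⟩ := gLIN ι E M hM
  obtain ⟨c1, c2, c3, c4, c5⟩ := l2 f hf
  obtain ⟨t1, t2, t3, t4, -⟩ := gTGA ι E M hM f hf ha
  refine ⟨(comp_lb_asc hM hf ha).trans t4.symm, ?_⟩
  rw [t1]
  have hcov : M.Cov (M.ot f) (M.X f - 1) := ⟨by omega, by omega⟩
  have hlo : M.lo (M.ta f) = M.X f := by
    have : M.ta f = M.bel (M.ot f) (M.X f) := if_pos ha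
    rw [this]
    exact (l3 f hf ha).1
  rcases right_side hM c1 hcov (Or.inr (by rw [sub_add_cancel]; exact c5)) with h | h | h
  · obtain ⟨h1, h2⟩ := h
    rw [h2]
    constructor
    · intro he
      rw [he, sub_add_cancel] at h1
      have := lo_lt_hi hM (M.ta f)
      omega
    · unfold RM.bx
      rw [if_pos (gBEL ι E M hM _ _ c1 hcov).2.2.1, h1]
      ring
  · obtain ⟨g, g1, g2, g3, g4, g5, g6⟩ := h
    have hg : g = f := hM.X_inj (by rw [g1]; ring)
    subst hg
    rw [g5]
    constructor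
    · intro he
      have h1 := (gTGD ι E M.rot (good_rot hM) g g2 g4).2.2.1
      rw [he, rot_Y, t3, show M.rot.tp g = - M.bo g from ROTM.tp_rot M g] at h1
      have := bo_lt_tp' hM g
      omega
    · have h1 := (gTGD ι E M.rot (good_rot hM) g g2 g4).1
      rw [(gROT ι E M hM).2.2.2.2.2.2.2, rot_X] at h1
      omega
  · obtain ⟨g, g1, g2, g3, g4, g5, g6⟩ := h
    omega

/-- the lower right label of the last cell of a ceiling -/
lemma lb_end {M : RM ι E} (hM : M.Good) {C : E} (hC : ¬ M.Fl C) :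
    ((M.comp (lb M C (M.hi C - 1)) = M.comp C ∧ lb M C (M.hi C - 1) ≠ C ∧
      M.bx (lb M C (M.hi C - 1)) = M.ax C) ∧ srcs M.rot C = ∅) ∨
      ∃ f ∈ srcs M.rot C, lb M C (M.hi C - 1) = M.rot.tb f := by
  have hlt := lo_lt_hi hM C
  have hcov : M.Cov C (M.hi C - 1) := ⟨by omega, by omega⟩
  -- facts on a source
  have key : ∀ f ∈ srcs M.rot C, M.X f = M.hi C ∧ M.hi (M.bel C (M.hi C - 1)) ≠ M.hi C ∧
      M.rot.asc f := by
    intro f hf
    obtain ⟨a1, a2, a3, a4, a5⟩ := srcs_facts (good_rot hM) hf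
    rw [mem_srcs] at hf
    obtain ⟨b1, b2, b3, b4, b5⟩ := (gLIN ι E M.rot (good_rot hM)).2.1 f hf.1.1
    obtain ⟨p1, p2, p3, p4⟩ := rot_run (good_rot hM) b1 (a := M.rot.X f) ⟨b2.le, b3⟩
    rw [rot_rot, a5] at p3
    rw [rot_X, rot_lo] at a2
    have hX : M.X f = M.hi C := by omega
    rw [rot_X, hX, show -1 - -M.hi C = M.hi C - 1 by ring] at p3
    rw [rot_X, rot_lo] at b2
    refine ⟨hX, ?_, hf.1.2⟩
    rw [p3]
    omega
  rcases right_side hM hC hcov (Or.inl (by ring)) with h | h | h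
  · obtain ⟨h1, h2⟩ := h
    rw [sub_add_cancel] at h1
    left
    obtain ⟨f, hf, -⟩ := exists_vert M (e := C) (t := M.hi C) (Or.inr rfl)
    have hax : M.ax C = M.hi C := by unfold RM.ax; rw [if_neg hC]
    refine ⟨⟨?_, ?_, ?_⟩, ?_⟩
    · rw [h2, comp_end hM (e := M.bel C (M.hi C - 1)) (f := f) (Or.inr (by rw [h1, hf])),
        comp_end hM (e := C) (f := f) (Or.inr hf.symm)]
    · rw [h2]
      intro he
      have := (gBEL ι E M hM C _ hC hcov).2.1
      rw [he] at this
      exact lt_irrefl _ this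
    · rw [h2, hax]
      unfold RM.bx
      rw [if_pos (gBEL ι E M hM _ _ hC hcov).2.2.1, h1]
    · rw [eq_empty_iff_forall_notMem]
      intro f hf
      exact (key f hf).2.1 h1
  · obtain ⟨f, f1, f2, f3, f4, f5, f6⟩ := h
    rw [sub_add_cancel] at f1
    left
    have hax : M.ax C = M.hi C := by unfold RM.ax; rw [if_neg hC]
    refine ⟨⟨?_, ?_, ?_⟩, ?_⟩
    · rw [f6, comp_end hM (e := C) (f := f) (Or.inr f1.symm)]
    · rw [f5]
      intro he
      have hd := ((gLIN ι E M.rot (good_rot hM)).2.2.2 f f2 f4).1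
      have ht : M.rot.tb f = M.rot.bel (M.rot.ot f) (M.rot.X f - 1) := if_neg f4
      rw [← ht, he, rot_hi, rot_X] at hd
      omega
    · have h1 := (gTGD ι E M.rot (good_rot hM) f f2 f4).1
      rw [(gROT ι E M hM).2.2.2.2.2.2.2, rot_X] at h1
      rw [f5, hax]
      omega
    · rw [eq_empty_iff_forall_notMem]
      intro f' hf'
      obtain ⟨k1, -, k3⟩ := key f' hf'
      rw [hM.X_inj (k1.trans f1.symm)] at k3
      exact f4 k3
  · obtain ⟨f, f1, f2, f3, f4, f5, f6, f7⟩ := h
    exact Or.inr ⟨f, mem_srcs.2 ⟨⟨f2, f4⟩, f6⟩, f7⟩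

/-- the hypothesis of the circle theorem: the two B-vertices of every cell at `v` have the same
value -/
def LH {A : Type} (M : RM ι E) (y : E → A) (v : E) : Prop :=
  ∀ C a, ¬ M.Fl C → M.Cov C a → (M.ur C a = v ∨ la M C a = v) → y (M.ul C a) = y (lb M C a)

lemma LH.rot {A : Type} {M : RM ι E} (hM : M.Good) {y : E → A} {v : E} (h : LH M y v) :
    LH M.rot y v := by
  have hrg := good_rot hM
  intro F b h1 h2 h3
  obtain ⟨p1, p2, p3, p4⟩ := rot_run hrg h1 h2
  rw [rot_rot] at p1 p2 p3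
  have e1 : la M (M.rot.bel F b) (-1 - b) = M.rot.ur F b := by
    unfold la
    rw [p3, show -1 - (-1 - b) = b by ring]
  have e2 : lb M (M.rot.bel F b) (-1 - b) = M.rot.ul F b := by
    unfold lb
    rw [p3, show -1 - (-1 - b) = b by ring]
  have e3 : lb M.rot F b = M.ul (M.rot.bel F b) (-1 - b) := by
    unfold lb
    rw [rot_rot]
  have e4 : la M.rot F b = M.ur (M.rot.bel F b) (-1 - b) := by
    unfold la
    rw [rot_rot]
  have := h _ _ p1 p2 (by rw [e1, ← e4]; exact h3.symm)
  rw [e2] at this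
  rw [e3]
  exact this.symm

/-- the cells at the A-vertex of a ceiling form a path from the B-vertex of this ceiling to the other
end of the vertical edge -/
lemma circle_ceil {A : Type} {M : RM ι E} (hM : M.Good) {y : E → A} {v : E} (hy : LH M y v)
    (hv : ¬ M.Fl v) :
    (∀ C a, ¬ M.Fl C → M.Cov C a → (M.ur C a = v ∨ la M C a = v) → y (M.ul C a) = y v) ∧
      ∃ w, w ≠ v ∧ M.comp w = M.comp v ∧ M.bx w = M.ax v ∧ y w = y v := by
  have hrg := good_rot hM
  have hyr := hy.rot hM
  have hlt := lo_lt_hi hM v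
  -- the cells under the ceiling
  have h1 : ∀ a, M.Cov v a → M.ur v a = v → y (M.ul v a) = y v := by
    intro a ha hu
    rcases ur_cases hM hv ha with ⟨-, h2⟩ | ⟨f, f1, f2, f3, f4, f5⟩
    · exact link_ceil hM y hv (fun a ha hu => hy v a hv ha (Or.inl hu))
        (a - M.lo v).toNat a (by have := ha.1; omega) ha h2
    · exfalso
      have := (gTGA ι E M hM f f1 f2).2.1
      rw [f5, hu] at this
      exact hv this
  -- the last cell
  have hcov : M.Cov v (M.hi v - 1) := ⟨by omega, by omega⟩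
  have hur : M.ur v (M.hi v - 1) = v := ur_of_end (by ring)
  have h2 : y (lb M v (M.hi v - 1)) = y v := by
    rw [← hy v _ hv hcov (Or.inl hur)]
    exact h1 _ hcov hur
  -- the cells on the other side
  have hup : ∀ C a, ¬ M.Fl C → M.Cov C a → M.ur C a = v → y (M.ul C a) = y v := by
    intro C a hC hCa hu
    rcases ur_cases hM hC hCa with ⟨h3, h4⟩ | ⟨f, f1, f2, f3, f4, f5⟩
    · have : C = v := h3.symm.trans hu
      subst this
      exact h1 a hCa hu
    · exfalso
      have := (gTGA ι E M hM f f1 f2).2.1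
      rw [f5, hu] at this
      exact hv this
  -- the lower left labels come from an arrow of the rotated model
  have hdn : ∀ C a, ¬ M.Fl C → M.Cov C a → la M C a = v →
      ∃ f ∈ srcs M.rot v, M.rot.ot f = M.bel C a ∧
        UU (M.rot.ht (M.bel C a)) (M.rot.hi (M.bel C a)) (-1 - a) = M.rot.X f := by
    intro C a hC hCa hl
    obtain ⟨q1, q2, q3, q4⟩ := rot_run hM hC hCa
    rcases ur_cases hrg q1 q2 with ⟨h3, h4⟩ | ⟨f, f1, f2, f3, f4, f5⟩
    · exfalso
      have h5 : M.bel C a = v := h3.symm.trans hl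
      rw [h5] at q1
      exact q1 ((rot_Fl hM v).2 hv)
    · exact ⟨f, mem_srcs.2 ⟨⟨f1, f2⟩, f5.trans hl⟩, f3, f4⟩
  rcases lb_end hM hv with ⟨⟨e1, e2, e4⟩, e3⟩ | ⟨f, hf, e1⟩
  · refine ⟨fun C a hC hCa h => ?_, _, e2, e1, e4, h2⟩
    rcases h with h | h
    · exact hup C a hC hCa h
    · obtain ⟨f, hf, -⟩ := hdn C a hC hCa h
      rw [e3] at hf
      simp at hf
  · rw [e1] at h2
    have hf' := hf
    rw [mem_srcs] at hf'
    obtain ⟨⟨f1, f2⟩, f3⟩ := hf'
    obtain ⟨k1, k2, k3⟩ := lb_asc hrg f1 f2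
    rw [f3, rot_comp] at k1
    rw [f3] at k2 k3
    rw [(gROT ι E M hM).2.2.2.2.2.2.2, (gROT ι E M hM).2.2.2.2.2.2.1] at k3
    have hg : ∀ a, M.rot.Cov (M.rot.ot f) a →
        UU (M.rot.ht (M.rot.ot f)) (M.rot.hi (M.rot.ot f)) a = M.rot.X f →
        y (M.rot.ul (M.rot.ot f) a) = y (lb M.rot (M.rot.ot f) (M.rot.X f - 1)) := by
      intro a ha hU
      have h3 := (SEQM.uu (M.rot.ht (M.rot.ot f)) (M.rot.hi (M.rot.ot f)) a ha.2).1
      rw [hU] at h3
      have hC := ((gLIN ι E M.rot hrg).2.1 f f1).1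
      exact link_arrow hrg y f1 f2 (fun a ha hu => hyr _ a hC ha (Or.inl (hu.trans f3)))
        (M.rot.X f - 1 - a).toNat a (by omega) ha hU
    obtain ⟨k, g1, g2, g3, g4⟩ := exists_arrow hrg f1 f2
    have h4 := hg k g1 g2
    rw [g3, h2] at h4
    refine ⟨fun C a hC hCa h => ?_, _, k2, k1, by omega, h4.symm⟩
    rcases h with h | h
    · exact hup C a hC hCa h
    · obtain ⟨f', hf', p1, p2⟩ := hdn C a hC hCa h
      have : f' = f := srcs_unique hrg hf' hf
      subst this
      obtain ⟨q1, q2, q3, q4⟩ := rot_run hM hC hCa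
      rw [← p1] at p2 q2
      have h5 := hg _ q2 p2
      rw [← h4, p1] at h5
      rw [hy C a hC hCa (Or.inr h)]
      exact h5

/-- the cells at an A-vertex `v` form a path from the B-vertex `v` to the other end of the vertical
edge at the A-vertex `v` -/
theorem circle {A : Type} {M : RM ι E} (hM : M.Good) {y : E → A} {v : E} (hy : LH M y v) :
    (∀ C a, ¬ M.Fl C → M.Cov C a → (M.ur C a = v ∨ la M C a = v) → y (M.ul C a) = y v) ∧
      ∃ w, w ≠ v ∧ M.comp w = M.comp v ∧ M.bx w = M.ax v ∧ y w = y v := by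
  by_cases hv : M.Fl v
  · have hrg := good_rot hM
    obtain ⟨h1, w, h2, h3, h5, h4⟩ := circle_ceil hrg (hy.rot hM) fun h => (rot_Fl hM v).1 h hv
    rw [(gROT ι E M hM).2.2.2.2.2.2.2, (gROT ι E M hM).2.2.2.2.2.2.1] at h5
    refine ⟨fun C a hC hCa h => ?_, w, h2, h3, by omega, h4⟩
    obtain ⟨q1, q2, q3, q4⟩ := rot_run hM hC hCa
    have h5 := h1 _ _ q1 q2 (by
      rw [la_rot hM hC hCa]
      rcases h with h | h
      · exact Or.inr h
      · exact Or.inl h)
    rw [hy C a hC hCa h]
    exact h5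
  · exact circle_ceil hM hy hv

/-- the ends of the cells are linked in the dual graph: DCONN -/
theorem dconn [Fintype ι] [DecidableEq ι] {M : RM ι E} (hM : M.Good) (hh : M.Holes)
    (x : ι → ZMod 2)
    (hx : ∀ C a, ¬ M.Fl C → M.Cov C a → x (M.comp (M.ul C a)) = x (M.comp (lb M C a))) :
    ∃ c, ∀ e, x (M.comp e) = c := by
  refine conn_A hM hh (fun e => x (M.comp e)) fun C a hC hCa => ?_
  have h0 : ∀ v, LH M (fun e => x (M.comp e)) v := fun v C a h1 h2 _ => hx C a h1 h2
  have h1 := (circle hM (h0 (M.ur C a))).1 C a hC hCa (Or.inl rfl)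
  have h2 := (circle hM (h0 (la M C a))).1 C a hC hCa (Or.inr rfl)
  beta_reduce at h1 h2 ⊢
  rw [← h1, ← h2]

end PG

end Pool.Agent.Lib.MP06c549
end

section
/-!
# MP_06c549_co, plane graph: the graph of the A-vertices

The vertices are the A-vertices (indexed by `E`), the edges are the cells `d : Cell M` with the ends
`ua d` (upper right A-vertex) and `la d` (lower left A-vertex); the faces are the boundary components;
the two faces at the cell `d` are the components of `ub d` (upper left B-vertex) and of `lb d` (lower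
right B-vertex).
-/
set_option autoImplicit false
set_option linter.unusedSectionVars false

namespace Pool.Agent.Lib.MP06c549

open Finset

namespace PG

variable {ι E : Type} [Fintype E] [DecidableEq E]

/-- the type of the cells -/
abbrev Cell (M : RM ι E) : Type := {x // x ∈ cellsF M}

namespace Cell

variable {M : RM ι E}

/-- the upper right A-vertex -/
noncomputable def ua (d : Cell M) : E := M.ur d.1.1 d.1.2

/-- the upper left B-vertex -/
noncomputable def ub (d : Cell M) : E := M.ul d.1.1 d.1.2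

/-- the lower left A-vertex -/
noncomputable def la (d : Cell M) : E := PG.la M d.1.1 d.1.2

/-- the lower right B-vertex -/
noncomputable def lb (d : Cell M) : E := PG.lb M d.1.1 d.1.2

lemma hC (d : Cell M) : ¬ M.Fl d.1.1 := (cells_cov d.2).1

lemma hCa (d : Cell M) : M.Cov d.1.1 d.1.2 := (cells_cov d.2).2

/-- the cell of a run -/
noncomputable def of {C : E} {a : ℤ} (hC : ¬ M.Fl C) (hCa : M.Cov C a) : Cell M :=
  ⟨⟨C, ST (M.ht C) (M.lo C) a⟩, st_cell hC hCa⟩

lemma ua_of {C : E} {a : ℤ} (hC : ¬ M.Fl C) (hCa : M.Cov C a) : (of hC hCa).ua = M.ur C a :=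
  const_st (const_ur M) hC hCa

lemma ub_of {C : E} {a : ℤ} (hC : ¬ M.Fl C) (hCa : M.Cov C a) : (of hC hCa).ub = M.ul C a :=
  const_st (const_ul M) hC hCa

lemma la_of (hM : M.Good) {C : E} {a : ℤ} (hC : ¬ M.Fl C) (hCa : M.Cov C a) :
    (of hC hCa).la = PG.la M C a :=
  const_st (const_la hM) hC hCa

lemma lb_of (hM : M.Good) {C : E} {a : ℤ} (hC : ¬ M.Fl C) (hCa : M.Cov C a) :
    (of hC hCa).lb = PG.lb M C a :=
  const_st (const_lb hM) hC hCa

end Cell

/-- sums over the cells -/
lemma sum_cell {A : Type} [AddCommMonoid A] (M : RM ι E) (H : E → ℤ → A) :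
    ∑ d : Cell M, H d.1.1 d.1.2 = csum M H := by
  unfold csum
  rw [sum_sigma']
  exact Finset.sum_coe_sort (cellsF M) (fun x => H x.1 x.2)

lemma card_cell (M : RM ι E) : Fintype.card (Cell M) = (cellsF M).card := Fintype.card_coe _

/-- a property of all cells is a property of all runs -/
lemma run_of_cell {M : RM ι E} (hM : M.Good) {P : E → E → E → E → Prop}
    (h : ∀ d : Cell M, P d.ua d.ub d.la d.lb) {C : E} {a : ℤ} (hC : ¬ M.Fl C) (hCa : M.Cov C a) :
    P (M.ur C a) (M.ul C a) (la M C a) (lb M C a) := by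
  have := h (Cell.of hC hCa)
  rwa [Cell.ua_of, Cell.ub_of, Cell.la_of hM, Cell.lb_of hM] at this

section

variable {M : RM ι E}

/-- CONN: the graph of the A-vertices is connected -/
theorem cell_conn [DecidableEq ι] (hM : M.Good) (hh : M.Holes) (f : E → ZMod 2)
    (hf : ∀ d : Cell M, f d.ua = f d.la) : ∃ c, ∀ e, f e = c :=
  conn_A hM hh f fun _ _ hC hCa =>
    run_of_cell hM (P := fun ua _ la _ => f ua = f la) hf hC hCa

/-- DCONN: the dual graph is connected -/
theorem cell_dconn [Fintype ι] [DecidableEq ι] (hM : M.Good) (hh : M.Holes) (x : ι → ZMod 2)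
    (hx : ∀ d : Cell M, x (M.comp d.ub) = x (M.comp d.lb)) : ∃ c, ∀ i, x i = c := by
  obtain ⟨c, hc⟩ := dconn hM hh x fun C a hC hCa =>
    run_of_cell hM (P := fun _ ub _ lb => x (M.comp ub) = x (M.comp lb)) hx hC hCa
  refine ⟨c, fun i => ?_⟩
  obtain ⟨e, rfl⟩ := hh.surj i
  exact hc e

/-- LINK: the faces at a vertex are linked by the cells at this vertex -/
theorem cell_link {A : Type} (hM : M.Good) (x : ι → A) (v : E)
    (hx : ∀ d : Cell M, d.ua = v ∨ d.la = v → x (M.comp d.ub) = x (M.comp d.lb)) (d : Cell M)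
    (hd : d.ua = v ∨ d.la = v) : x (M.comp d.ub) = x (M.comp v) ∧ x (M.comp d.lb) = x (M.comp v) := by
  have h1 : ∀ C a, ¬ M.Fl C → M.Cov C a → (M.ur C a = v ∨ la M C a = v) →
      x (M.comp (M.ul C a)) = x (M.comp (lb M C a)) := fun C a hC hCa =>
    run_of_cell hM (P := fun ua ub la lb => (ua = v ∨ la = v) → x (M.comp ub) = x (M.comp lb))
      hx hC hCa
  have h2 := (circle hM (y := fun e => x (M.comp e)) h1).1 _ _ d.hC d.hCa hd
  exact ⟨h2, (hx d hd).symm.trans h2⟩

/-- CIRCLE: the B-vertices at an A-vertex `v` are linked by the cells at this vertex, from the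
B-vertex `v` to another B-vertex of the same component -/
theorem cell_circle {A : Type} (hM : M.Good) (y : E → A) (v : E)
    (hy : ∀ d : Cell M, d.ua = v ∨ d.la = v → y d.ub = y d.lb) :
    (∀ d : Cell M, d.ua = v ∨ d.la = v → y d.ub = y v ∧ y d.lb = y v) ∧
      ∃ w, w ≠ v ∧ M.comp w = M.comp v ∧ M.bx w = M.ax v ∧ y w = y v := by
  have h1 : LH M y v := fun C a hC hCa =>
    run_of_cell hM (P := fun ua ub la lb => (ua = v ∨ la = v) → y ub = y lb) hy hC hCa
  obtain ⟨h2, h3⟩ := circle hM h1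
  refine ⟨fun d hd => ?_, h3⟩
  have h4 := h2 _ _ d.hC d.hCa hd
  exact ⟨h4, (hy d hd).symm.trans h4⟩

/-- EVEN: the boundary of every face is even -/
theorem cell_even [DecidableEq ι] (hM : M.Good) (v : E) (i : ι) :
    ∑ d : Cell M, ((if d.ua = v then 1 else 0) + (if d.la = v then 1 else 0)) *
      ((if M.comp d.ub = i then (1 : ZMod 2) else 0) + (if M.comp d.lb = i then 1 else 0)) = 0 := by
  have h1 := sum_cell M fun C a => ((if M.ur C a = v then 1 else 0) +
    (if la M C a = v then 1 else 0)) * ((if M.comp (M.ul C a) = i then (1 : ZMod 2) else 0) +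
      (if M.comp (lb M C a) = i then 1 else 0))
  rw [even_sum hM (fun j => if j = i then 1 else 0) v] at h1
  exact h1

/-- EVEN, for sums of faces -/
theorem cell_even' (hM : M.Good) (v : E) (x : ι → ZMod 2) :
    ∑ d : Cell M, (x (M.comp d.ub) + x (M.comp d.lb)) *
      ((if d.ua = v then 1 else 0) + (if d.la = v then 1 else 0)) = 0 := by
  have h1 := sum_cell M fun C a => ((if M.ur C a = v then 1 else 0) +
    (if la M C a = v then 1 else 0)) * (x (M.comp (M.ul C a)) + x (M.comp (lb M C a)))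
  rw [even_sum hM x v] at h1
  exact (sum_congr rfl fun d _ => mul_comm _ _).trans h1

variable [Fintype ι] [DecidableEq ι]

/-- EULER and EXACT -/
theorem cell_exact [Nonempty E] (hM : M.Good) (hh : M.Holes) :
    Fintype.card (Cell M) + 2 = Fintype.card E + Fintype.card ι ∧
    (∀ z : Cell M → ZMod 2, (∀ v, ∑ d, z d * ((if d.ua = v then 1 else 0) +
      (if d.la = v then 1 else 0)) = 0) →
        ∃ x : ι → ZMod 2, ∀ d, z d = x (M.comp d.ub) + x (M.comp d.lb)) ∧
    (∀ y : Cell M → ZMod 2, (∀ i, ∑ d, y d * ((if M.comp d.ub = i then 1 else 0) +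
      (if M.comp d.lb = i then 1 else 0)) = 0) → ∃ f : E → ZMod 2, ∀ d, y d = f d.ua + f d.la) := by
  obtain ⟨e⟩ := ‹Nonempty E›
  have : Nonempty E := ⟨e⟩
  have : Nonempty ι := ⟨M.comp e⟩
  refine exact_both (fun d : Cell M => d.ua) (fun d => d.la) (fun d => M.comp d.ub)
    (fun d => M.comp d.lb) (cell_even hM) (cell_conn hM hh) (cell_dconn hM hh) ?_
  rw [card_cell]
  exact euler_le hM

end

end PG

end Pool.Agent.Lib.MP06c549
end

section
/-!
# MP_06c549_co, plane graph: the arrows are sides of cells; cycles have at least four vertices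
-/
set_option autoImplicit false
set_option linter.unusedSectionVars false

namespace Pool.Agent.Lib.MP06c549

open Finset

namespace PG

variable {ι E : Type} [Fintype E] [DecidableEq E]

/-- every arrow is a side of a cell -/
lemma arrow_run {M : RM ι E} (hM : M.Good) {f : E} (hf : M.RT f) :
    ∃ C a, ¬ M.Fl C ∧ M.Cov C a ∧ ((M.ur C a = M.ta f ∧ lb M C a = M.tb f) ∨
      (la M C a = M.ta f ∧ M.ul C a = M.tb f)) := by
  obtain ⟨l1, l2, l3, l4⟩ := gLIN ι E M hM
  obtain ⟨c1, c2, c3, c4, c5⟩ := l2 f hf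
  by_cases ha : M.asc f
  · refine ⟨M.ot f, M.X f, c1, ⟨c2.le, c3⟩, Or.inr ⟨?_, (if_pos ha : M.tb f = _).symm⟩⟩
    have h1 : M.ta f = M.bel (M.ot f) (M.X f) := if_pos ha
    rw [h1]
    exact la_of_end (l3 f hf ha).1
  · refine ⟨M.ot f, M.X f - 1, c1, ⟨by omega, by omega⟩, Or.inl ⟨(if_neg ha : M.ta f = _).symm,
      lb_desc hM hf ha⟩⟩

/-- a cell of the rotated model is a cell -/
lemma run_rot {M : RM ι E} (hM : M.Good) {F : E} {b : ℤ} (h1 : ¬ M.rot.Fl F)
    (h2 : M.rot.Cov F b) : ∃ C a, ¬ M.Fl C ∧ M.Cov C a ∧ M.ur C a = la M.rot F b ∧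
      M.ul C a = lb M.rot F b ∧ la M C a = M.rot.ur F b ∧ lb M C a = M.rot.ul F b := by
  obtain ⟨p1, p2, p3, p4⟩ := rot_run (good_rot hM) h1 h2
  rw [rot_rot] at p1 p2 p3
  refine ⟨_, _, p1, p2, ?_, ?_, ?_, ?_⟩
  · unfold la
    rw [rot_rot]
  · unfold lb
    rw [rot_rot]
  · unfold la
    rw [p3, show -1 - (-1 - b) = b by ring]
  · unfold lb
    rw [p3, show -1 - (-1 - b) = b by ring]

lemma arrow_run_rot {M : RM ι E} (hM : M.Good) {f : E} (hf : M.rot.RT f) :
    ∃ C a, ¬ M.Fl C ∧ M.Cov C a ∧ ((M.ur C a = M.rot.ta f ∧ lb M C a = M.rot.tb f) ∨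
      (la M C a = M.rot.ta f ∧ M.ul C a = M.rot.tb f)) := by
  obtain ⟨F, b, h1, h2, h3⟩ := arrow_run (good_rot hM) hf
  obtain ⟨C, a, q1, q2, q3, q4, q5, q6⟩ := run_rot hM h1 h2
  refine ⟨C, a, q1, q2, ?_⟩
  rcases h3 with ⟨h3, h4⟩ | ⟨h3, h4⟩
  · exact Or.inr ⟨q5.trans h3, q4.trans h4⟩
  · exact Or.inl ⟨q3.trans h3, q6.trans h4⟩

/-- an A-vertex which is adjacent to `X` is an end of a cell with a face of `X` -/
lemma adj_cell {M : RM ι E} (hM : M.Good) {a : E} {X : Finset ι} (h : Adj M a X) :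
    ∃ d : Cell M, (d.ua = a ∨ d.la = a) ∧ (M.comp d.ub ∈ X ∨ M.comp d.lb ∈ X) := by
  have key : ∀ C a' (hC : ¬ M.Fl C) (hCa : M.Cov C a') (b : E), M.comp b ∈ X →
      ((M.ur C a' = a ∧ lb M C a' = b) ∨ (la M C a' = a ∧ M.ul C a' = b)) →
      ∃ d : Cell M, (d.ua = a ∨ d.la = a) ∧ (M.comp d.ub ∈ X ∨ M.comp d.lb ∈ X) := by
    intro C a' hC hCa b hb h
    refine ⟨Cell.of hC hCa, ?_⟩
    rw [Cell.ua_of, Cell.ub_of, Cell.la_of hM, Cell.lb_of hM]
    rcases h with ⟨h1, h2⟩ | ⟨h1, h2⟩
    · exact ⟨Or.inl h1, Or.inr (by rw [h2]; exact hb)⟩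
    · exact ⟨Or.inr h1, Or.inl (by rw [h2]; exact hb)⟩
  rcases h with ⟨f, hf, h1, h2⟩ | ⟨f, hf, h1, h2⟩
  · obtain ⟨C, a', q1, q2, q3⟩ := arrow_run hM hf
    rw [h1] at q3
    exact key C a' q1 q2 _ h2 q3
  · obtain ⟨C, a', q1, q2, q3⟩ := arrow_run_rot hM hf
    rw [h1] at q3
    exact key C a' q1 q2 _ h2 q3

/-- FOUR, for a set of faces: at least four A-vertices are ends of cells of its boundary, two of them
are owned by the set and two are not -/
theorem four_faces [Fintype ι] [DecidableEq ι] {M : RM ι E} (hM : M.Good) (hh : M.Holes)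
    (x : ι → ZMod 2) (c : ZMod 2) (hc : ∃ i, x i = c) (hc' : ∃ i, x i ≠ c) :
    ∃ a a' : E, a ≠ a' ∧ (x (M.comp a) ≠ c ∧ x (M.comp a') ≠ c) ∧
      (∃ d : Cell M, (d.ua = a ∨ d.la = a) ∧ x (M.comp d.ub) ≠ x (M.comp d.lb)) ∧
      (∃ d : Cell M, (d.ua = a' ∨ d.la = a') ∧ x (M.comp d.ub) ≠ x (M.comp d.lb)) := by
  classical
  set X : Finset ι := univ.filter fun i => x i = c with hX
  have hmem : ∀ i, i ∈ X ↔ x i = c := by intro i; rw [hX, mem_filter]; simp
  obtain ⟨i, hi⟩ := hc
  obtain ⟨j, hj⟩ := hc'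
  obtain ⟨a, a', h1, h2, h3, h4, h5⟩ := gINC ι E M hM hh X ⟨i, (hmem i).2 hi⟩ (by
    intro h
    apply hj
    rw [← hmem, h]
    exact mem_univ _)
  rw [hmem] at h2 h3
  have key : ∀ b, x (M.comp b) ≠ c → Adj M b X →
      ∃ d : Cell M, (d.ua = b ∨ d.la = b) ∧ x (M.comp d.ub) ≠ x (M.comp d.lb) := by
    intro b hb hadj
    obtain ⟨d, hd, hd'⟩ := adj_cell hM hadj
    by_contra hcon
    push Not at hcon
    obtain ⟨e1, e2⟩ := cell_link hM x b hcon d hd
    rw [hmem, hmem, e1, e2] at hd'
    exact hb (hd'.elim id id)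
  exact ⟨a, a', h1, ⟨h2, h3⟩, key a h2 h4, key a' h3 h5⟩

/-- FOUR: a nonempty even set of cells has at least four vertices -/
theorem cell_four [Nonempty E] [Fintype ι] [DecidableEq ι] {M : RM ι E} (hM : M.Good)
    (hh : M.Holes) (z : Cell M → ZMod 2)
    (hz : ∀ v, ∑ d, z d * ((if d.ua = v then 1 else 0) + (if d.la = v then 1 else 0)) = 0)
    (hne : ∃ d, z d ≠ 0) :
    4 ≤ (univ.filter fun v => ∃ d : Cell M, z d ≠ 0 ∧ (d.ua = v ∨ d.la = v)).card := by
  classical
  obtain ⟨x, hx⟩ := (cell_exact hM hh).2.1 z hz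
  obtain ⟨d₀, hd₀⟩ := hne
  have h01 : ∀ a b c : ZMod 2, a + b ≠ 0 → (a = c ∧ b ≠ c) ∨ (a ≠ c ∧ b = c) := by decide
  have hz' : ∀ d, x (M.comp d.ub) ≠ x (M.comp d.lb) → z d ≠ 0 := by
    intro d hd h
    rw [hx d] at h
    exact hd (CharTwo.add_eq_zero.1 h)
  rw [hx d₀] at hd₀
  have h1 : ∀ c : ZMod 2, (∃ i, x i = c) ∧ ∃ i, x i ≠ c := by
    intro c
    rcases h01 _ _ c hd₀ with ⟨h, h'⟩ | ⟨h, h'⟩
    · exact ⟨⟨_, h⟩, ⟨_, h'⟩⟩
    · exact ⟨⟨_, h'⟩, ⟨_, h⟩⟩
  obtain ⟨a, a', a1, ⟨a2, a3⟩, a4, a5⟩ := four_faces hM hh x 0 (h1 0).1 (h1 0).2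
  obtain ⟨b, b', b1, ⟨b2, b3⟩, b4, b5⟩ := four_faces hM hh x 1 (h1 1).1 (h1 1).2
  have hne : ∀ p q : E, x (M.comp p) ≠ 0 → x (M.comp q) ≠ 1 → p ≠ q := by
    intro p q hp hq he
    rw [he] at hp
    have : ∀ t : ZMod 2, t ≠ 0 → t ≠ 1 → False := by decide
    exact this _ hp hq
  have hsub : ({a, a', b, b'} : Finset E) ⊆
      univ.filter fun v => ∃ d : Cell M, z d ≠ 0 ∧ (d.ua = v ∨ d.la = v) := by
    intro v hv
    rw [mem_filter]
    refine ⟨mem_univ _, ?_⟩
    have key : ∀ p : E, (∃ d : Cell M, (d.ua = p ∨ d.la = p) ∧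
        x (M.comp d.ub) ≠ x (M.comp d.lb)) → ∃ d : Cell M, z d ≠ 0 ∧ (d.ua = p ∨ d.la = p) := by
      rintro p ⟨d, hd, hd'⟩
      exact ⟨d, hz' d hd', hd⟩
    simp only [mem_insert, mem_singleton] at hv
    rcases hv with rfl | rfl | rfl | rfl
    · exact key _ a4
    · exact key _ a5
    · exact key _ b4
    · exact key _ b5
  refine le_trans (le_of_eq ?_) (card_le_card hsub)
  symm
  rw [card_insert_of_notMem, card_insert_of_notMem, card_insert_of_notMem, card_singleton]
  · rw [mem_singleton]; exact b1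
  · simp only [mem_insert, mem_singleton, not_or]
    exact ⟨hne _ _ a3 b2, hne _ _ a3 b3⟩
  · simp only [mem_insert, mem_singleton, not_or]
    exact ⟨a1, hne _ _ a2 b2, hne _ _ a2 b3⟩

end PG

end Pool.Agent.Lib.MP06c549
end

section
/-!
# MP_06c549_co, plane graph: reflection exchanges the A-vertices and the B-vertices
-/
set_option autoImplicit false
set_option linter.unusedSectionVars false

namespace Pool.Agent.Lib.MP06c549

open Finset

namespace PG

variable {ι E : Type} [Fintype E] [DecidableEq E]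

/-- reflection at a vertical line -/
def mir (M : RM ι E) : RM ι E where
  s := M.s
  X := fun e => - M.X e
  Y := M.Y
  comp := M.comp
  o := M.o

lemma mir_mir (M : RM ι E) : mir (mir M) = M := by
  unfold mir
  simp

lemma mir_rot (M : RM ι E) : (mir M).rot = mir M.rot := rfl

lemma mir_lo (M : RM ι E) (e : E) : (mir M).lo e = - M.hi e := by
  unfold RM.lo RM.hi mir
  simp only
  omega

lemma mir_hi (M : RM ι E) (e : E) : (mir M).hi e = - M.lo e := by
  unfold RM.lo RM.hi mir
  simp only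
  omega

lemma mir_tp (M : RM ι E) (e : E) : (mir M).tp e = M.tp e := rfl
lemma mir_bo (M : RM ι E) (e : E) : (mir M).bo e = M.bo e := rfl
lemma mir_Y (M : RM ι E) (e : E) : (mir M).Y e = M.Y e := rfl
lemma mir_X (M : RM ι E) (e : E) : (mir M).X e = - M.X e := rfl
lemma mir_comp (M : RM ι E) (e : E) : (mir M).comp e = M.comp e := rfl

lemma mir_cov (M : RM ι E) (e : E) (a : ℤ) : (mir M).Cov e a ↔ M.Cov e (-1 - a) := by
  unfold RM.Cov
  rw [mir_lo, mir_hi]
  omega

lemma mir_cnt (M : RM ι E) (K : Finset E) (a b : ℤ) : (mir M).cnt K a b = M.cnt K (-1 - a) b := by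
  unfold RM.cnt
  congr 1
  refine filter_congr fun e _ => ?_
  rw [mir_cov]
  rfl

lemma mir_S (M : RM ι E) (a b : ℤ) : (mir M).S a b ↔ M.S (-1 - a) b := by
  unfold RM.S
  rw [mir_cnt]

lemma good_mir {M : RM ι E} (hM : M.Good) : (mir M).Good where
  X_inj := fun e f h => hM.X_inj (neg_injective h)
  Y_inj := hM.Y_inj
  s_ne := hM.s_ne
  nc := fun e f h => by
    rw [mir_lo, mir_hi, mir_X, mir_bo, mir_tp, mir_Y] at h
    exact hM.nc e f ⟨by omega, by omega, by omega, by omega⟩
  comp_s := hM.comp_s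
  comp_conn := hM.comp_conn

lemma holes_mir [DecidableEq ι] {M : RM ι E} (hh : M.Holes) : (mir M).Holes where
  surj := hh.surj
  hole := fun i hi a b h => by
    rw [mir_S]
    rw [mir_cnt] at h
    exact hh.hole i hi _ _ h

lemma mir_Fl {M : RM ι E} (hM : M.Good) (e : E) : (mir M).Fl e ↔ M.Fl e := by
  unfold RM.Fl
  rw [mir_S, mir_lo, mir_Y]
  have hlt := lo_lt_hi hM e
  exact (gFLC ι E M hM e (-1 - -M.hi e) ⟨by omega, by omega⟩).1

lemma mir_bx {M : RM ι E} (hM : M.Good) (e : E) : (mir M).bx e = - M.ax e := by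
  unfold RM.bx RM.ax
  simp only [mir_Fl hM]
  rw [mir_lo, mir_hi]
  split_ifs <;> rfl

lemma mir_ax {M : RM ι E} (hM : M.Good) (e : E) : (mir M).ax e = - M.bx e := by
  unfold RM.bx RM.ax
  simp only [mir_Fl hM]
  rw [mir_lo, mir_hi]
  split_ifs <;> rfl

lemma mir_bel (M : RM ι E) (C : E) (a : ℤ) : (mir M).bel C a = M.bel C (-1 - a) := by
  unfold RM.bel
  have h : (univ.filter fun e => (mir M).Cov e a ∧ (mir M).Y e < (mir M).Y C) =
      univ.filter fun e => M.Cov e (-1 - a) ∧ M.Y e < M.Y C := by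
    refine filter_congr fun e _ => ?_
    rw [mir_cov]
    rfl
  rw [h]
  rfl

lemma mir_ht (M : RM ι E) (C : E) (a : ℤ) : (mir M).ht C a = M.ht C (-1 - a) := by
  unfold RM.ht
  rw [mir_bel]
  rfl

/-- the mirror image of `PP` is `UU` -/
lemma mir_UU {h h' : ℤ → ℤ} (hh : ∀ a, h' a = h (-1 - a)) {l i : ℤ} (hi : l ≤ -1 - i) :
    UU h' (-l) i = - PP h l (-1 - i) := by
  obtain ⟨p1, p2, p3, p4⟩ := SEQM.pp h l (-1 - i) hi
  refine uu_eq (by omega) (by omega) (fun k k1 k2 => ?_) fun h1 => ?_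
  · rw [hh, hh]
    exact p3 _ (by omega) (by omega)
  · rw [hh, hh]
    have := p4 (by omega)
    rw [show -1 - -PP h l (-1 - i) = PP h l (-1 - i) - 1 by ring]
    exact this

lemma mir_ur {M : RM ι E} {C : E} {a : ℤ} (hCa : (mir M).Cov C a) :
    (mir M).ur C a = M.ul C (-1 - a) := by
  have h1 := (mir_cov M C a).1 hCa
  have h2 : UU ((mir M).ht C) ((mir M).hi C) a = - PP (M.ht C) (M.lo C) (-1 - a) := by
    rw [mir_hi]
    exact mir_UU (fun b => mir_ht M C b) h1.1
  unfold RM.ur RM.ul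
  rw [h2, mir_hi, mir_bel]
  have h3 : -1 - -PP (M.ht C) (M.lo C) (-1 - a) = PP (M.ht C) (M.lo C) (-1 - a) - 1 := by ring
  rw [h3]
  by_cases h4 : PP (M.ht C) (M.lo C) (-1 - a) = M.lo C
  · rw [if_pos h4, if_pos (by rw [h4])]
  · rw [if_neg h4, if_neg (fun h => h4 (by omega))]

lemma mir_ul {M : RM ι E} {C : E} {a : ℤ} (hCa : (mir M).Cov C a) :
    (mir M).ul C a = M.ur C (-1 - a) := by
  have h1 := (mir_cov M C a).1 hCa
  have h2 := mir_ur (M := mir M) (C := C) (a := -1 - a) (by rw [mir_mir]; exact h1)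
  rw [mir_mir, show -1 - (-1 - a) = a by ring] at h2
  exact h2.symm

/-- the run in the mirror -/
lemma mir_run {M : RM ι E} (hM : M.Good) {C : E} {a : ℤ} (hC : ¬ (mir M).Fl C)
    (hCa : (mir M).Cov C a) : ¬ M.Fl C ∧ M.Cov C (-1 - a) ∧ (mir M).ur C a = M.ul C (-1 - a) ∧
      (mir M).ul C a = M.ur C (-1 - a) ∧ la (mir M) C a = lb M C (-1 - a) ∧
      lb (mir M) C a = la M C (-1 - a) := by
  have h0 : ¬ M.Fl C := fun h => hC ((mir_Fl hM C).2 h)
  have h1 := (mir_cov M C a).1 hCa
  obtain ⟨q1, q2, q3, q4⟩ := rot_run hM h0 h1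
  have h2 : (mir M.rot).Cov (M.bel C (-1 - a)) (-1 - a) := by
    rw [mir_cov]
    exact q2
  refine ⟨h0, h1, mir_ur hCa, mir_ul hCa, ?_, ?_⟩
  · unfold la lb
    rw [mir_rot, mir_bel, mir_ur h2]
  · unfold la lb
    rw [mir_rot, mir_bel, mir_ul h2]

/-- the run seen in the mirror -/
lemma run_mir {M : RM ι E} (hM : M.Good) {C : E} {a : ℤ} (hC : ¬ M.Fl C)
    (hCa : M.Cov C a) : ¬ (mir M).Fl C ∧ (mir M).Cov C (-1 - a) ∧
      (mir M).ur C (-1 - a) = M.ul C a ∧ (mir M).ul C (-1 - a) = M.ur C a ∧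
      la (mir M) C (-1 - a) = lb M C a ∧ lb (mir M) C (-1 - a) = la M C a := by
  have h0 : ¬ (mir M).Fl C := fun h => hC ((mir_Fl hM C).1 h)
  have h1 : (mir M).Cov C (-1 - a) := by
    rw [mir_cov, show -1 - (-1 - a) = a by ring]
    exact hCa
  obtain ⟨-, -, h2, h3, h4, h5⟩ := mir_run hM h0 h1
  rw [show -1 - (-1 - a) = a by ring] at h2 h3 h4 h5
  exact ⟨h0, h1, h2, h3, h4, h5⟩

/-- CIRCLE for the B-vertices: the A-vertices at a B-vertex `e` are linked by the cells at this
vertex, from the A-vertex `e` to another A-vertex of the same component -/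
theorem cell_circleB {A : Type} {M : RM ι E} (hM : M.Good) (g : E → A) (e : E)
    (hg : ∀ d : Cell M, d.ub = e ∨ d.lb = e → g d.ua = g d.la) :
    (∀ d : Cell M, d.ub = e ∨ d.lb = e → g d.ua = g e ∧ g d.la = g e) ∧
      ∃ w, w ≠ e ∧ M.comp w = M.comp e ∧ M.ax w = M.bx e ∧ g w = g e := by
  have h1 : ∀ C a, ¬ M.Fl C → M.Cov C a → (M.ul C a = e ∨ lb M C a = e) →
      g (M.ur C a) = g (la M C a) := fun C a hC hCa =>
    run_of_cell hM (P := fun ua ub la lb => (ub = e ∨ lb = e) → g ua = g la) hg hC hCa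
  have h2 : LH (mir M) g e := by
    intro C a hC hCa h
    obtain ⟨q1, q2, q3, q4, q5, q6⟩ := mir_run hM hC hCa
    rw [q4, q6]
    rw [q3, q5] at h
    exact h1 _ _ q1 q2 h
  obtain ⟨h3, w, w1, w2, w3, w4⟩ := circle (good_mir hM) h2
  rw [mir_bx hM, mir_ax hM] at w3
  refine ⟨fun d hd => ?_, w, w1, w2, by omega, w4⟩
  obtain ⟨q1, q2, q3, q4, q5, q6⟩ := run_mir hM d.hC d.hCa
  have h5 := h3 _ _ q1 q2 (by rw [q3, q5]; exact hd)
  rw [q4] at h5
  have h6 := h1 _ _ d.hC d.hCa hd
  exact ⟨h5, h6.symm.trans h5⟩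

/-! ## Visibility -/

lemma sees_mir {M : RM ι E} {gx gy a b : ℤ} (h : (mir M).Sees gx gy a b) :
    M.Sees (-gx) gy (-1 - a) b := by
  intro a' b' h1 h2 h3 h4
  have := h (-1 - a') b' (by omega) (by omega) h3 h4
  rw [mir_S, show -1 - (-1 - a') = a' by ring] at this
  exact this

lemma sees_ua {M : RM ι E} (hM : M.Good) {C : E} {a b : ℤ} (hC : ¬ M.Fl C) (hCa : M.Cov C a)
    (h1 : M.ht C a ≤ b) (h2 : b < M.Y C) : M.Sees (M.ax (M.ur C a)) (M.Y (M.ur C a)) a b :=
  gCOV ι E M hM C a b hC hCa h1 h2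

lemma sees_la {M : RM ι E} (hM : M.Good) {C : E} {a b : ℤ} (hC : ¬ M.Fl C) (hCa : M.Cov C a)
    (h1 : M.ht C a ≤ b) (h2 : b < M.Y C) : M.Sees (M.ax (la M C a)) (M.Y (la M C a)) a b :=
  gCVR ι E M hM C a b hC hCa h1 h2

lemma sees_ub {M : RM ι E} (hM : M.Good) {C : E} {a b : ℤ} (hC : ¬ M.Fl C) (hCa : M.Cov C a)
    (h1 : M.ht C a ≤ b) (h2 : b < M.Y C) : M.Sees (M.bx (M.ul C a)) (M.Y (M.ul C a)) a b := by
  obtain ⟨q1, q2, q3, q4, q5, q6⟩ := run_mir hM hC hCa
  have h3 := sees_ua (good_mir hM) (b := b) q1 q2 (by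
    rw [mir_ht, show -1 - (-1 - a) = a by ring]; exact h1) h2
  have h4 := sees_mir h3
  rw [mir_ax hM, neg_neg, q3, show -1 - (-1 - a) = a by ring] at h4
  exact h4

lemma sees_lb {M : RM ι E} (hM : M.Good) {C : E} {a b : ℤ} (hC : ¬ M.Fl C) (hCa : M.Cov C a)
    (h1 : M.ht C a ≤ b) (h2 : b < M.Y C) : M.Sees (M.bx (lb M C a)) (M.Y (lb M C a)) a b := by
  obtain ⟨q1, q2, q3, q4, q5, q6⟩ := run_mir hM hC hCa
  have h3 := sees_la (good_mir hM) (b := b) q1 q2 (by
    rw [mir_ht, show -1 - (-1 - a) = a by ring]; exact h1) h2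
  have h4 := sees_mir h3
  rw [mir_ax hM, neg_neg, q5, show -1 - (-1 - a) = a by ring] at h4
  exact h4

end PG

end Pool.Agent.Lib.MP06c549
end

section
/-!
# MP_06c549_co, plane graph: rectangular holes
-/
set_option autoImplicit false
set_option linter.unusedSectionVars false

namespace Pool.Agent.Lib.MP06c549

open Finset

namespace PG

variable {ι E : Type} [Fintype E] [DecidableEq E]

/-- the upper left B-vertex lies to the left of the cell; it is a ceiling only if it is the ceiling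
of the cell -/
lemma ul_bx {M : RM ι E} (hM : M.Good) {C : E} {a : ℤ} (hC : ¬ M.Fl C) (hCa : M.Cov C a) :
    M.bx (M.ul C a) ≤ a ∧ (¬ M.Fl (M.ul C a) → M.ul C a = C) := by
  obtain ⟨l1, l2, l3, l4⟩ := gLIN ι E M hM
  obtain ⟨p1, p2, p3, p4⟩ := SEQM.pp (M.ht C) (M.lo C) a hCa.1
  by_cases hP : PP (M.ht C) (M.lo C) a = M.lo C
  · have : M.ul C a = C := by
      unfold RM.ul
      rw [if_pos hP]
    rw [this]
    refine ⟨?_, fun _ => rfl⟩
    unfold RM.bx
    rw [if_neg hC]
    exact hCa.1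
  · have hlP : M.lo C < PP (M.ht C) (M.lo C) a := by omega
    have hul : M.ul C a = M.bel C (PP (M.ht C) (M.lo C) a - 1) := by
      unfold RM.ul
      rw [if_neg hP]
    set P := PP (M.ht C) (M.lo C) a with hPdef
    have h1 := p4 hlP
    have h2 := p3 P le_rfl p2
    have hne : M.ht C (P - 1) ≠ M.ht C P := by omega
    obtain ⟨f, f1, f2, f3⟩ := l1 C P hC hlP (by have := hCa.2; omega) hne
    have hna : ¬ M.asc f := by
      intro h
      unfold RM.asc at h
      rw [f3, f1] at h
      omega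
    obtain ⟨d1, d2, d3⟩ := l4 f f2 hna
    rw [f3, f1] at d1
    have hcov : M.Cov C (P - 1) := ⟨by omega, by have := hCa.2; omega⟩
    have hF := (gBEL ι E M hM C (P - 1) hC hcov).2.2.1
    rw [hul]
    refine ⟨?_, fun h => absurd hF h⟩
    unfold RM.bx
    rw [if_pos hF, d1]
    exact p2

/-- the lower right B-vertex lies to the right of the cell; it is a floor only if it is the floor of
the cell -/
lemma lb_bx {M : RM ι E} (hM : M.Good) {C : E} {a : ℤ} (hC : ¬ M.Fl C) (hCa : M.Cov C a) :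
    a < M.bx (lb M C a) ∧ (M.Fl (lb M C a) → lb M C a = M.bel C a) := by
  obtain ⟨q1, q2, q3, q4⟩ := rot_run hM hC hCa
  obtain ⟨h1, h2⟩ := ul_bx (good_rot hM) q1 q2
  have h3 : M.rot.bx (lb M C a) = - M.bx (lb M C a) := (gROT ι E M hM).2.2.2.2.2.2.2 _
  constructor
  · change M.rot.bx (lb M C a) ≤ -1 - a at h1
    omega
  · intro h
    exact h2 fun h' => (rot_Fl hM _).1 h' h

/-- the two edges of a component with two horizontal edges -/
lemma rect_pair [DecidableEq ι] {M : RM ι E} (hM : M.Good) (hh : M.Holes) {i : ι} (hi : i ≠ M.o)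
    (h2 : (univ.filter fun e => M.comp e = i).card = 2) :
    ∃ t b : E, (∀ e, M.comp e = i ↔ (e = t ∨ e = b)) ∧ M.Y b < M.Y t ∧ M.Fl t ∧ ¬ M.Fl b ∧
      M.lo t = M.lo b ∧ M.hi t = M.hi b := by
  classical
  obtain ⟨e, he⟩ := hh.surj i
  have hse : M.comp (M.s e) = i := (hM.comp_s e).trans he
  -- the component is `{e, s e}`
  have hset : (univ.filter fun e => M.comp e = i) = {e, M.s e} := by
    symm
    apply eq_of_subset_of_card_le
    · intro x hx
      simp only [mem_insert, mem_singleton] at hx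
      rcases hx with rfl | rfl
      · exact mem_filter.2 ⟨mem_univ _, he⟩
      · exact mem_filter.2 ⟨mem_univ _, hse⟩
    · rw [h2, card_pair (hM.s_ne e).symm]
  have hmem : ∀ x, M.comp x = i ↔ (x = e ∨ x = M.s e) := by
    intro x
    have : x ∈ (univ.filter fun e => M.comp e = i) ↔ x ∈ ({e, M.s e} : Finset E) := by rw [hset]
    simpa using this
  have hss : M.s (M.s e) = e := by
    have h3 : M.comp (M.s (M.s e)) = i := (hM.comp_s _).trans hse
    rcases (hmem _).1 h3 with h | h
    · exact h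
    · exact absurd h (hM.s_ne _)
  have hlo : M.lo (M.s e) = M.lo e := by
    unfold RM.lo
    rw [hss, min_comm]
  have hhi : M.hi (M.s e) = M.hi e := by
    unfold RM.hi
    rw [hss, max_comm]
  -- the edges of the component above the cells
  have key : ∀ t b : E, (∀ x, M.comp x = i ↔ (x = t ∨ x = b)) → M.Y b < M.Y t →
      M.lo t = M.lo b → M.hi t = M.hi b → M.Fl t ∧ ¬ M.Fl b := by
    intro t b hm hY h3 h4
    have hlt := lo_lt_hi hM t
    have hodd : ∀ y, M.Y b ≤ y → y < M.Y t → ¬ M.S (M.lo t) y := by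
      intro y h5 h6
      refine hh.hole i hi _ _ ?_
      have h7 : ((univ.filter fun e => M.comp e = i).filter fun e =>
          M.Cov e (M.lo t) ∧ y < M.Y e) = {t} := by
        ext x
        simp only [mem_filter, mem_univ, true_and, mem_singleton]
        constructor
        · rintro ⟨h8, h9, h10⟩
          rcases (hm x).1 h8 with h | h
          · exact h
          · rw [h] at h10; omega
        · rintro rfl
          exact ⟨(hm _).2 (Or.inl rfl), ⟨le_rfl, hlt⟩, h6⟩
      unfold RM.cnt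
      rw [h7, card_singleton]
      exact odd_one
    constructor
    · have h5 := (gFLC ι E M hM t (M.lo t) ⟨le_rfl, hlt⟩).2
      by_contra h6
      exact hodd _ (by omega) (by omega) (h5.2 h6)
    · intro h6
      have h5 := (gFLC ι E M hM b (M.lo t) ⟨by omega, by omega⟩).1
      exact hodd _ le_rfl hY (h5.2 h6)
  have hne : M.Y e ≠ M.Y (M.s e) := fun h => hM.s_ne e (hM.Y_inj h).symm
  rcases lt_or_gt_of_ne hne with h | h
  · have hm' : ∀ x, M.comp x = i ↔ (x = M.s e ∨ x = e) := fun x => (hmem x).trans or_comm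
    obtain ⟨k1, k2⟩ := key (M.s e) e hm' h hlo hhi
    exact ⟨M.s e, e, hm', h, k1, k2, hlo, hhi⟩
  · obtain ⟨k1, k2⟩ := key e (M.s e) hmem h hlo.symm hhi.symm
    exact ⟨e, M.s e, hmem, h, k1, k2, hlo.symm, hhi.symm⟩

/-- RECT (nb): no cell has a rectangular hole on both sides -/
theorem rect_nb [DecidableEq ι] {M : RM ι E} (hM : M.Good) (hh : M.Holes) {i : ι} (hi : i ≠ M.o)
    (h2 : (univ.filter fun e => M.comp e = i).card = 2) (d : Cell M) (h1 : M.comp d.ub = i)
    (h3 : M.comp d.lb = i) : False := by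
  obtain ⟨t, b, hm, hY, hFt, hFb, hlo, hhi⟩ := rect_pair hM hh hi h2
  have hlt := lo_lt_hi hM t
  have hbt : M.bx t = M.hi t := by unfold RM.bx; rw [if_pos hFt]
  have hbb : M.bx b = M.lo t := by unfold RM.bx; rw [if_neg hFb, hlo]
  obtain ⟨u1, u2⟩ := ul_bx hM d.hC d.hCa
  obtain ⟨l1, l2⟩ := lb_bx hM d.hC d.hCa
  change M.bx d.ub ≤ _ at u1
  change ¬ M.Fl d.ub → d.ub = _ at u2
  change _ < M.bx d.lb at l1
  change M.Fl d.lb → d.lb = _ at l2
  rcases (hm _).1 h1 with h | h
  · rw [h, hbt] at u1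
    rcases (hm _).1 h3 with h' | h'
    · rw [h', hbt] at l1; omega
    · rw [h', hbb] at l1; omega
  · rcases (hm _).1 h3 with h' | h'
    · rw [h] at u2
      rw [h'] at l2
      have e1 := u2 hFb
      have e2 := l2 hFt
      have h4 := (gBEL ι E M hM _ _ d.hC d.hCa).2.1
      rw [← e2, ← e1] at h4
      omega
    · rw [h, hbb] at u1
      rw [h', hbb] at l1
      omega

/-- RECT (cn): the boundary of a rectangular hole is connected -/
theorem rect_cn [DecidableEq ι] {M : RM ι E} (hM : M.Good) (hh : M.Holes) {i : ι} (hi : i ≠ M.o)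
    (h2 : (univ.filter fun e => M.comp e = i).card = 2) {A : Type} (g : E → A)
    (hg : ∀ d : Cell M, M.comp d.ub = i ∨ M.comp d.lb = i → g d.ua = g d.la) :
    ∃ c, ∀ v, (M.comp v = i ∨ ∃ d : Cell M, (d.ua = v ∨ d.la = v) ∧
      (M.comp d.ub = i ∨ M.comp d.lb = i)) → g v = c := by
  obtain ⟨t, b, hm, hY, hFt, hFb, hlo, hhi⟩ := rect_pair hM hh hi h2
  have hct : M.comp t = i := (hm t).2 (Or.inl rfl)
  have hcb : M.comp b = i := (hm b).2 (Or.inr rfl)
  have key : ∀ e, M.comp e = i →
      (∀ d : Cell M, d.ub = e ∨ d.lb = e → g d.ua = g e ∧ g d.la = g e) ∧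
      ∃ w, w ≠ e ∧ M.comp w = M.comp e ∧ M.ax w = M.bx e ∧ g w = g e := by
    intro e he
    refine cell_circleB hM g e fun d hd => hg d ?_
    rcases hd with hd | hd
    · exact Or.inl (by rw [hd, he])
    · exact Or.inr (by rw [hd, he])
  have htb : g b = g t := by
    obtain ⟨w, w1, w2, -, w3⟩ := (key t hct).2
    rw [hct] at w2
    rcases (hm w).1 w2 with h | h
    · exact absurd h w1
    · rw [← h, w3]
  have hall : ∀ e, M.comp e = i → g e = g t := by
    intro e he
    rcases (hm e).1 he with rfl | rfl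
    · rfl
    · exact htb
  refine ⟨g t, fun v hv => ?_⟩
  rcases hv with hv | ⟨d, hd, hd'⟩
  · exact hall v hv
  · have h3 : g d.ua = g t ∧ g d.la = g t := by
      rcases hd' with h | h
      · obtain ⟨h4, h5⟩ := (key _ h).1 d (Or.inl rfl)
        rw [h4, h5, hall _ h]
        exact ⟨rfl, rfl⟩
      · obtain ⟨h4, h5⟩ := (key _ h).1 d (Or.inr rfl)
        rw [h4, h5, hall _ h]
        exact ⟨rfl, rfl⟩
    rcases hd with hd | hd
    · rw [← hd]; exact h3.1
    · rw [← hd]; exact h3.2

/-! ## The boundary of every face is connected -/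

/-- a vertex is not both ends of a horizontal edge -/
lemma ax_ne_bx {M : RM ι E} (hM : M.Good) (e : E) : M.ax e ≠ M.bx e := by
  have := lo_lt_hi hM e
  unfold RM.ax RM.bx
  split_ifs <;> omega

/-- the B-vertex is at one of the two ends of the horizontal edge -/
lemma bx_cases (M : RM ι E) (e : E) : M.bx e = M.X e ∨ M.bx e = M.X (M.s e) := by
  unfold RM.bx RM.lo RM.hi
  split_ifs <;> omega

lemma ax_cases (M : RM ι E) (e : E) : M.ax e = M.X e ∨ M.ax e = M.X (M.s e) := by
  unfold RM.ax RM.lo RM.hi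
  split_ifs <;> omega

/-- CN: for every component `i` (the outer boundary included), a function on the A-vertices which does
not change at the cells with the side `i` is constant on the vertices of `i` -/
theorem comp_cn {M : RM ι E} (hM : M.Good) {i : ι} {A : Type} (g : E → A)
    (hg : ∀ d : Cell M, M.comp d.ub = i ∨ M.comp d.lb = i → g d.ua = g d.la) {e₀ : E}
    (he₀ : M.comp e₀ = i) :
    ∀ v, (M.comp v = i ∨ ∃ d : Cell M, (d.ua = v ∨ d.la = v) ∧
      (M.comp d.ub = i ∨ M.comp d.lb = i)) → g v = g e₀ := by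
  have key : ∀ e, M.comp e = i →
      (∀ d : Cell M, d.ub = e ∨ d.lb = e → g d.ua = g e ∧ g d.la = g e) ∧
      ∃ w, w ≠ e ∧ M.comp w = M.comp e ∧ M.ax w = M.bx e ∧ g w = g e := by
    intro e he
    refine cell_circleB hM g e fun d hd => hg d ?_
    rcases hd with hd | hd
    · exact Or.inl (by rw [hd, he])
    · exact Or.inr (by rw [hd, he])
  -- forward: the B-vertex of `e` is at `X (s e)`
  have fwd : ∀ e, M.comp e = i → M.bx e = M.X (M.s e) →
      M.bx (M.s e) = M.X (M.s (M.s e)) ∧ g (M.s e) = g e := by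
    intro e he hb
    obtain ⟨w, w1, w2, w3, w4⟩ := (key e he).2
    have hw : w = M.s e := by
      rcases ax_cases M w with h | h
      · exact hM.X_inj (by rw [← h, w3, hb])
      · exact absurd (M.s.injective (hM.X_inj (by rw [← h, w3, hb]))) w1
    rw [hw] at w3 w4
    refine ⟨?_, w4⟩
    rcases bx_cases M (M.s e) with h | h
    · exfalso
      apply ax_ne_bx hM (M.s e)
      rw [w3, hb, h]
    · exact h
  have bwd : ∀ e, M.comp e = i → M.bx e = M.X e →
      M.bx (M.s.symm e) = M.X (M.s.symm e) ∧ g (M.s.symm e) = g e := by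
    intro e he hb
    obtain ⟨w, w1, w2, w3, w4⟩ := (key e he).2
    have hw : w = M.s.symm e := by
      rcases ax_cases M w with h | h
      · exact absurd (hM.X_inj (by rw [← h, w3, hb])) w1
      · rw [Equiv.eq_symm_apply]
        exact hM.X_inj (by rw [← h, w3, hb])
    rw [hw] at w3 w4
    refine ⟨?_, w4⟩
    rcases bx_cases M (M.s.symm e) with h | h
    · exact h
    · exfalso
      apply ax_ne_bx hM (M.s.symm e)
      rw [w3, hb, h, Equiv.apply_symm_apply]
  have hcs : ∀ e, M.comp (M.s.symm e) = M.comp e := by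
    intro e
    have := hM.comp_s (M.s.symm e)
    rw [Equiv.apply_symm_apply] at this
    exact this.symm
  have hpow : ∀ n : ℕ, ∀ e, M.comp ((M.s ^ n) e) = M.comp e := by
    intro n
    induction n with
    | zero => intro e; rfl
    | succ n ih =>
      intro e
      rw [pow_succ', Equiv.Perm.mul_apply, hM.comp_s, ih]
  have hall : ∀ e, M.comp e = i → g e = g e₀ := by
    by_cases hP : M.bx e₀ = M.X (M.s e₀)
    · have h1 : ∀ n : ℕ, M.bx ((M.s ^ n) e₀) = M.X (M.s ((M.s ^ n) e₀)) ∧
          g ((M.s ^ n) e₀) = g e₀ := by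
        intro n
        induction n with
        | zero => exact ⟨hP, rfl⟩
        | succ n ih =>
          rw [pow_succ', Equiv.Perm.mul_apply]
          obtain ⟨h2, h3⟩ := fwd _ ((hpow n e₀).trans he₀) ih.1
          exact ⟨h2, h3.trans ih.2⟩
      intro e he
      obtain ⟨n, hn⟩ := hM.comp_conn e₀ e (he₀.trans he.symm)
      rw [← hn]
      exact (h1 n).2
    · -- no edge of the component is of the first kind
      have h1 : ∀ e, M.comp e = i → M.bx e = M.X e := by
        intro e he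
        rcases bx_cases M e with h | h
        · exact h
        · exfalso
          have h2 : ∀ n : ℕ, M.bx ((M.s ^ n) e) = M.X (M.s ((M.s ^ n) e)) := by
            intro n
            induction n with
            | zero => exact h
            | succ n ih =>
              rw [pow_succ', Equiv.Perm.mul_apply]
              exact (fwd _ ((hpow n e).trans he) ih).1
          obtain ⟨n, hn⟩ := hM.comp_conn e e₀ (he.trans he₀.symm)
          have := h2 n
          rw [hn] at this
          exact hP this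
      have h2 : ∀ e, M.comp e = i → g (M.s e) = g e := by
        intro e he
        have h3 := (bwd (M.s e) ((hM.comp_s e).trans he) (h1 _ ((hM.comp_s e).trans he))).2
        rw [Equiv.symm_apply_apply] at h3
        exact h3.symm
      intro e he
      obtain ⟨n, hn⟩ := hM.comp_conn e₀ e (he₀.trans he.symm)
      rw [← hn]
      clear hn
      induction n with
      | zero => rfl
      | succ n ih =>
        rw [pow_succ', Equiv.Perm.mul_apply, h2 _ ((hpow n e₀).trans he₀), ih]
  intro v hv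
  rcases hv with hv | ⟨d, hd, hd'⟩
  · exact hall v hv
  · have h3 : g d.ua = g e₀ ∧ g d.la = g e₀ := by
      rcases hd' with h | h
      · obtain ⟨h4, h5⟩ := (key _ h).1 d (Or.inl rfl)
        rw [h4, h5, hall _ h]
        exact ⟨rfl, rfl⟩
      · obtain ⟨h4, h5⟩ := (key _ h).1 d (Or.inr rfl)
        rw [h4, h5, hall _ h]
        exact ⟨rfl, rfl⟩
    rcases hd with hd | hd
    · rw [← hd]; exact h3.1
    · rw [← hd]; exact h3.2

end PG

end Pool.Agent.Lib.MP06c549
end

section
/-!
# MP_06c549_co, plane graph: from a cover of the cells by A-vertices and B-vertices to guards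
-/
set_option autoImplicit false
set_option linter.unusedSectionVars false

namespace Pool.Agent.Lib.MP06c549

open Finset

namespace PG

/-- a set `A` of A-vertices and a set `B` of B-vertices meet every cell -/
def Hits {ι E : Type} [Fintype E] [DecidableEq E] (M : RM ι E) (A B : Finset E) : Prop :=
  ∀ d : Cell M, d.ua ∈ A ∨ d.la ∈ A ∨ d.ub ∈ B ∨ d.lb ∈ B

section

variable {ι E : Type} [Fintype E] [DecidableEq E]

/-- GUARD, rank model -/
theorem guard_rank {M : RM ι E} (hM : M.Good) {A B : Finset E} (h : Hits M A B) (a b : ℤ)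
    (hS : M.S a b) : (∃ g ∈ A, M.Sees (M.ax g) (M.Y g) a b) ∨
      (∃ g ∈ B, M.Sees (M.bx g) (M.Y g) a b) := by
  obtain ⟨C, hC, hCa, hCb, hbC⟩ := gCEL ι E M hM a b hS
  have h1 := run_of_cell hM (P := fun ua ub la lb => ua ∈ A ∨ la ∈ A ∨ ub ∈ B ∨ lb ∈ B) h hC hCa
  rcases h1 with h1 | h1 | h1 | h1
  · exact Or.inl ⟨_, h1, sees_ua hM hC hCa hCb hbC⟩
  · exact Or.inl ⟨_, h1, sees_la hM hC hCa hCb hbC⟩
  · exact Or.inr ⟨_, h1, sees_ub hM hC hCa hCb hbC⟩
  · exact Or.inr ⟨_, h1, sees_lb hM hC hCa hCb hbC⟩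

lemma exists_ax (M : RM ι E) (g : E) : ∃ f, (f = g ∨ f = M.s g) ∧ M.X f = M.ax g := by
  have h1 : M.lo g = M.X g ∨ M.lo g = M.X (M.s g) := by
    unfold RM.lo; exact min_choice _ _
  have h2 : M.hi g = M.X g ∨ M.hi g = M.X (M.s g) := by
    unfold RM.hi; exact max_choice _ _
  unfold RM.ax
  split_ifs
  · rcases h1 with h | h
    · exact ⟨g, Or.inl rfl, h.symm⟩
    · exact ⟨M.s g, Or.inr rfl, h.symm⟩
  · rcases h2 with h | h
    · exact ⟨g, Or.inl rfl, h.symm⟩
    · exact ⟨M.s g, Or.inr rfl, h.symm⟩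

lemma exists_bx (M : RM ι E) (g : E) : ∃ f, (f = g ∨ f = M.s g) ∧ M.X f = M.bx g := by
  have h1 : M.lo g = M.X g ∨ M.lo g = M.X (M.s g) := by
    unfold RM.lo; exact min_choice _ _
  have h2 : M.hi g = M.X g ∨ M.hi g = M.X (M.s g) := by
    unfold RM.hi; exact max_choice _ _
  unfold RM.bx
  split_ifs
  · rcases h2 with h | h
    · exact ⟨g, Or.inl rfl, h.symm⟩
    · exact ⟨M.s g, Or.inr rfl, h.symm⟩
  · rcases h1 with h | h
    · exact ⟨g, Or.inl rfl, h.symm⟩
    · exact ⟨M.s g, Or.inr rfl, h.symm⟩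

end

/-- GUARD for real data -/
theorem guard_real {ι E : Type} [Fintype ι] [DecidableEq ι] [Fintype E] [DecidableEq E]
    (D : RD ι E) (hD : D.OK) (N : ℕ)
    (h : ∀ X Y : E → ℤ, (D.mod X Y).Good → (D.mod X Y).Holes →
      ∃ A B : Finset E, A.card + B.card ≤ N ∧ Hits (D.mod X Y) A B) :
    ∃ G : Finset (ℝ × ℝ), G.card ≤ N ∧
      (∀ g ∈ G, ∃ e, g = (D.x e, D.y e) ∨ g = (D.x (D.s e), D.y e)) ∧
      ∀ q ∈ D.region, ∃ g ∈ G, segment ℝ g q ⊆ D.region := by
  classical
  have hSX : SpecSX := gSX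
  have hREP := specREP specCR
  have hLOC := specLOC specCR
  have hREG := specREG
  have hHO := specHO hREP hREG
  have hBIN := specBIN hLOC hREG
  have hGD := specGD
  have hCVB := specCVB specCAN hSX hGD hREG
  have hVIS := specVIS
  obtain ⟨X, hX⟩ := specRKX E D.x
  obtain ⟨Y, hY⟩ := specRKX E D.y
  have hg := hGD ι E D hD X Y hX hY
  have hh := hHO ι E D hD X Y hX hY
  obtain ⟨A, B, hN, hAB⟩ := h X Y hg hh
  choose u hu huX using exists_ax (D.mod X Y)
  choose w hw hwX using exists_bx (D.mod X Y)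
  refine ⟨(A.image fun g => (D.x (u g), D.y g)) ∪ B.image fun g => (D.x (w g), D.y g), ?_, ?_, ?_⟩
  · have h1 := card_image_le (s := A) (f := fun g => (D.x (u g), D.y g))
    have h2 := card_image_le (s := B) (f := fun g => (D.x (w g), D.y g))
    have h3 := card_union_le (A.image fun g => (D.x (u g), D.y g))
      (B.image fun g => (D.x (w g), D.y g))
    omega
  · intro g hg'
    rcases mem_union.1 hg' with hg' | hg'
    · obtain ⟨e, -, rfl⟩ := mem_image.1 hg'
      refine ⟨e, ?_⟩
      rcases hu e with h | h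
      · left; rw [h]
      · right; rw [h]; rfl
    · obtain ⟨e, -, rfl⟩ := mem_image.1 hg'
      refine ⟨e, ?_⟩
      rcases hw e with h | h
      · left; rw [h]
      · right; rw [h]; rfl
  · intro q hq
    obtain ⟨a, b, hab, hqb⟩ := hCVB ι E D hD X Y hX hY q hq
    rcases guard_rank hg hAB a b hab with ⟨g, hgA, hsee⟩ | ⟨g, hgB, hsee⟩
    · refine ⟨(D.x (u g), D.y g), mem_union_left _ (mem_image_of_mem _ hgA), ?_⟩
      intro z hz
      have hsee' : (D.mod X Y).Sees (X (u g)) (Y g) a b := by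
        have := huX g
        change X (u g) = _ at this
        rw [this]; exact hsee
      obtain ⟨a', b', hS', hz'⟩ := hVIS ι E D X Y hX hY a b g (u g) hsee' q hqb z hz
      exact hBIN ι E D hD X Y hX hY a' b' hS' hz'
    · refine ⟨(D.x (w g), D.y g), mem_union_right _ (mem_image_of_mem _ hgB), ?_⟩
      intro z hz
      have hsee' : (D.mod X Y).Sees (X (w g)) (Y g) a b := by
        have := hwX g
        change X (w g) = _ at this
        rw [this]; exact hsee
      obtain ⟨a', b', hS', hz'⟩ := hVIS ι E D X Y hX hY a b g (w g) hsee' q hqb z hz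
      exact hBIN ι E D hD X Y hX hY a' b' hS' hz'

lemma card_fib (P : HPoly) [Fintype P.EE] [DecidableEq P.EE] (hP : P.IsPoly)
    (i : Option (Fin P.h)) : (univ.filter fun e : P.EE => e.1 = i).card = (P.cu i).k := by
  classical
  have h0 : NeZero (P.cu i).k := ⟨by have := (PDM.simple P hP i).two_le; omega⟩
  have h1 : (univ.filter fun e : P.EE => e.1 = i) =
      (univ : Finset (ZMod (P.cu i).k)).image fun t => (⟨i, t⟩ : P.EE) := by
    ext ⟨j, t⟩
    simp only [mem_filter, mem_univ, true_and, mem_image]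
    constructor
    · rintro rfl
      exact ⟨t, rfl⟩
    · rintro ⟨t', h⟩
      cases h
      rfl
  rw [h1, card_image_of_injective _ (by
    intro a b hab
    simpa using hab), card_univ, ZMod.card]

/-- GUARD for polygons: `h` gives a cover of the cells in the rank model; the component `none` is the
outer boundary and `some i` is the hole `i`; the number of horizontal edges of a component is half
the number of its vertices. -/
theorem guard_poly (P : HPoly) (hP : P.IsPoly) (N : ℕ)
    (h : ∀ (E : Type) [Fintype E] [DecidableEq E] (M : RM (Option (Fin P.h)) E),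
      M.Good → M.Holes → M.o = none → P.n = 2 * Fintype.card E →
      (∀ i, (univ.filter fun e => M.comp e = i).card = (P.cu i).k) →
      ∃ A B : Finset E, A.card + B.card ≤ N ∧ Hits M A B) :
    ∃ G : Finset (ℝ × ℝ), (G : Set (ℝ × ℝ)) ⊆ P.vertices ∧ G.card ≤ N ∧ P.Guards G := by
  classical
  have hs := PDM.simple P hP
  have : ∀ i, NeZero (P.cu i).k := fun i => ⟨by have := (hs i).two_le; omega⟩
  obtain ⟨hOK, hreg, hn, hv⟩ := specPD P hP
  obtain ⟨G, hG, hGv, hGs⟩ := guard_real P.rd hOK N (fun X Y hg hh =>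
    h P.EE (P.rd.mod X Y) hg hh rfl hn fun i => card_fib P hP i)
  refine ⟨G, ?_, hG, ?_⟩
  · intro g hg
    obtain ⟨e, he | he⟩ := hGv g hg
    · rw [he]; exact (hv e).1
    · rw [he]; exact (hv e).2
  · intro p hp
    rw [← hreg] at hp ⊢
    exact hGs p hp

end PG

end Pool.Agent.Lib.MP06c549
end
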