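import Pool.Agent.Lib.MP_06c549_co.PG.GUARD

section
/-!
# MP_06c549_co, plane graph: a rectangular hole occurs at most once at an A-vertex
-/
set_option autoImplicit false
set_option linter.unusedSectionVars false

namespace Pool.Agent.Lib.MP06c549

open Finset

namespace PG

variable {ι E : Type} [Fintype E] [DecidableEq E]

/-- the upper right label and the line `UU` -/
lemma ur_ax {M : RM ι E} (hM : M.Good) {C : E} {a : ℤ} (hC : ¬ M.Fl C) (hCa : M.Cov C a) :
    M.ax (M.ur C a) = UU (M.ht C) (M.hi C) a ∧ M.ht C a < M.Y (M.ur C a) := by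
  obtain ⟨u1, u2, u3, u4⟩ := SEQM.uu (M.ht C) (M.hi C) a hCa.2
  rcases ur_cases hM hC hCa with ⟨h1, h2⟩ | ⟨f, f1, f2, f3, f4, f5⟩
  · rw [h1, h2]
    refine ⟨?_, (gBEL ι E M hM C a hC hCa).2.1⟩
    unfold RM.ax
    rw [if_neg hC]
  · obtain ⟨t1, t2, t3, -⟩ := gTGA ι E M hM f f1 f2
    have h3 := ((gLIN ι E M hM).2.2.1 f f1 f2).2.1
    have h5 := ((gLIN ι E M hM).2.1 f f1).2.2.1
    rw [f5] at t1 t3
    rw [t1, t3, f4, ← h3, f3]
    rw [f3, ← f4] at h5
    have := u4 h5
    rw [f4] at this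
    exact ⟨rfl, this⟩

lemma ul_bx' {M : RM ι E} (hM : M.Good) {C : E} {a : ℤ} (hC : ¬ M.Fl C) (hCa : M.Cov C a) :
    M.bx (M.ul C a) = PP (M.ht C) (M.lo C) a ∧ M.ht C a < M.Y (M.ul C a) := by
  obtain ⟨q1, q2, q3, q4, q5, q6⟩ := run_mir hM hC hCa
  obtain ⟨h1, h2⟩ := ur_ax (good_mir hM) q1 q2
  rw [q3, mir_ax hM, mir_hi] at h1
  rw [q3, mir_ht, show -1 - (-1 - a) = a by ring] at h2
  have h3 : UU ((mir M).ht C) (-M.lo C) (-1 - a) = - PP (M.ht C) (M.lo C) (-1 - (-1 - a)) :=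
    mir_UU (fun b => mir_ht M C b) (by rw [show -1 - (-1 - a) = a by ring]; exact hCa.1)
  rw [show -1 - (-1 - a) = a by ring] at h3
  rw [h3] at h1
  exact ⟨by omega, h2⟩

/-- the position of the upper right vertex -/
lemma ua_pos {M : RM ι E} (hM : M.Good) (d : Cell M) :
    d.1.2 < M.ax d.ua ∧ M.ht d.1.1 d.1.2 < M.Y d.ua := by
  obtain ⟨h1, h2⟩ := ur_ax hM d.hC d.hCa
  have := (SEQM.uu (M.ht d.1.1) (M.hi d.1.1) d.1.2 d.hCa.2).1
  exact ⟨by change _ < M.ax (M.ur _ _); rw [h1]; exact this, h2⟩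

lemma ub_pos {M : RM ι E} (hM : M.Good) (d : Cell M) :
    M.bx d.ub ≤ d.1.2 ∧ M.ht d.1.1 d.1.2 < M.Y d.ub := by
  obtain ⟨h1, h2⟩ := ul_bx' hM d.hC d.hCa
  have := (SEQM.pp (M.ht d.1.1) (M.lo d.1.1) d.1.2 d.hCa.1).2.1
  exact ⟨by change M.bx (M.ul _ _) ≤ _; rw [h1]; exact this, h2⟩

lemma rot_ax {M : RM ι E} (hM : M.Good) (e : E) : M.rot.ax e = - M.ax e :=
  (gROT ι E M hM).2.2.2.2.2.2.1 e

lemma rot_bx {M : RM ι E} (hM : M.Good) (e : E) : M.rot.bx e = - M.bx e :=
  (gROT ι E M hM).2.2.2.2.2.2.2 e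

lemma la_pos {M : RM ι E} (hM : M.Good) (d : Cell M) :
    M.ax d.la ≤ d.1.2 ∧ M.Y d.la < M.Y d.1.1 := by
  obtain ⟨q1, q2, q3, q4⟩ := rot_run hM d.hC d.hCa
  obtain ⟨h1, h2⟩ := ur_ax (good_rot hM) q1 q2
  have := (SEQM.uu (M.rot.ht (M.bel d.1.1 d.1.2)) (M.rot.hi (M.bel d.1.1 d.1.2)) (-1 - d.1.2) q2.2).1
  rw [rot_ax hM] at h1
  rw [q4, rot_Y] at h2
  constructor
  · change M.ax (M.rot.ur _ _) ≤ _
    omega
  · change M.Y (M.rot.ur _ _) < _
    omega

lemma lb_pos {M : RM ι E} (hM : M.Good) (d : Cell M) :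
    d.1.2 < M.bx d.lb ∧ M.Y d.lb < M.Y d.1.1 := by
  obtain ⟨q1, q2, q3, q4⟩ := rot_run hM d.hC d.hCa
  obtain ⟨h1, h2⟩ := ul_bx' (good_rot hM) q1 q2
  have := (SEQM.pp (M.rot.ht (M.bel d.1.1 d.1.2)) (M.rot.lo (M.bel d.1.1 d.1.2)) (-1 - d.1.2) q2.1).2.1
  rw [rot_bx hM] at h1
  rw [q4, rot_Y] at h2
  constructor
  · change _ < M.bx (M.rot.ul _ _)
    omega
  · change M.Y (M.rot.ul _ _) < _
    omega

/-! ## A cell is determined by three of its labels -/

/-- the upper right label determines the ceiling -/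
lemma ur_C {M : RM ι E} (hM : M.Good) {C C' : E} {a a' : ℤ} (hC : ¬ M.Fl C) (hCa : M.Cov C a)
    (hC' : ¬ M.Fl C') (hCa' : M.Cov C' a') (h : M.ur C a = M.ur C' a') : C = C' := by
  rcases ur_cases hM hC hCa with ⟨h1, h2⟩ | ⟨f, f1, f2, f3, f4, f5⟩ <;>
    rcases ur_cases hM hC' hCa' with ⟨g1, g2⟩ | ⟨g, g1, g2, g3, g4, g5⟩
  · rw [← h1, ← g1, h]
  · exfalso
    have := (gTGA ι E M hM g g1 g2).2.1
    rw [g5, ← h, h1] at this
    exact hC this
  · exfalso
    have := (gTGA ι E M hM f f1 f2).2.1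
    rw [f5, h, g1] at this
    exact hC' this
  · have e1 : f ∈ srcs M (M.ur C a) := mem_srcs.2 ⟨⟨f1, f2⟩, f5⟩
    have e2 : g ∈ srcs M (M.ur C a) := mem_srcs.2 ⟨⟨g1, g2⟩, by rw [g5, h]⟩
    have := srcs_unique hM e1 e2
    rw [← f3, ← g3, this]

lemma ul_C {M : RM ι E} (hM : M.Good) {C C' : E} {a a' : ℤ} (hC : ¬ M.Fl C) (hCa : M.Cov C a)
    (hC' : ¬ M.Fl C') (hCa' : M.Cov C' a') (h : M.ul C a = M.ul C' a') : C = C' := by
  obtain ⟨q1, q2, q3, q4, q5, q6⟩ := run_mir hM hC hCa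
  obtain ⟨p1, p2, p3, p4, p5, p6⟩ := run_mir hM hC' hCa'
  exact ur_C (good_mir hM) q1 q2 p1 p2 (by rw [q3, p3, h])

lemma la_F {M : RM ι E} (hM : M.Good) {d d' : Cell M} (h : d.la = d'.la) :
    M.bel d.1.1 d.1.2 = M.bel d'.1.1 d'.1.2 := by
  obtain ⟨q1, q2, q3, q4⟩ := rot_run hM d.hC d.hCa
  obtain ⟨p1, p2, p3, p4⟩ := rot_run hM d'.hC d'.hCa
  exact ur_C (good_rot hM) q1 q2 p1 p2 h

lemma lb_F {M : RM ι E} (hM : M.Good) {d d' : Cell M} (h : d.lb = d'.lb) :
    M.bel d.1.1 d.1.2 = M.bel d'.1.1 d'.1.2 := by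
  obtain ⟨q1, q2, q3, q4⟩ := rot_run hM d.hC d.hCa
  obtain ⟨p1, p2, p3, p4⟩ := rot_run hM d'.hC d'.hCa
  exact ul_C (good_rot hM) q1 q2 p1 p2 h

/-- two cells under the same ceiling with constant height between them are equal -/
lemma cell_ext {M : RM ι E} {d d' : Cell M} (hCC : d.1.1 = d'.1.1)
    (h : ∀ k, (d.1.2 ≤ k ∧ k ≤ d'.1.2) ∨ (d'.1.2 ≤ k ∧ k ≤ d.1.2) →
      M.ht d.1.1 k = M.ht d.1.1 d.1.2) : d = d' := by
  have h1 := (mem_starts.1 (mem_cellsF.1 d.2).2).2
  have h2 := (mem_starts.1 (mem_cellsF.1 d'.2).2).2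
  have c1 := d.hCa
  have c2 := d'.hCa
  rw [← hCC] at h2 c2
  have h3 : d.1.2 = d'.1.2 := by
    rcases lt_trichotomy d.1.2 d'.1.2 with h3 | h3 | h3
    · exfalso
      rcases h2 with h2 | h2
      · have := c1.1; omega
      · apply h2
        rw [h (d'.1.2 - 1) (Or.inl ⟨by omega, by omega⟩), h d'.1.2 (Or.inl ⟨by omega, le_rfl⟩)]
    · exact h3
    · exfalso
      rcases h1 with h1 | h1
      · have := c2.1; omega
      · apply h1
        rw [h (d.1.2 - 1) (Or.inr ⟨by omega, by omega⟩)]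
  apply Subtype.ext
  exact Sigma.ext hCC (heq_of_eq h3)

/-- the same ceiling, the same floor and the same right line -/
lemma cell_ext_uu {M : RM ι E} (hM : M.Good) {d d' : Cell M} (hCC : d.1.1 = d'.1.1)
    (hF : M.ht d.1.1 d.1.2 = M.ht d.1.1 d'.1.2)
    (hU : UU (M.ht d.1.1) (M.hi d.1.1) d.1.2 = UU (M.ht d.1.1) (M.hi d.1.1) d'.1.2) : d = d' := by
  refine cell_ext hCC fun k hk => ?_
  have c1 := d.hCa
  have c2 := d'.hCa
  rw [← hCC] at c2
  obtain ⟨u1, u2, u3, u4⟩ := SEQM.uu (M.ht d.1.1) (M.hi d.1.1) d.1.2 c1.2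
  obtain ⟨v1, v2, v3, v4⟩ := SEQM.uu (M.ht d.1.1) (M.hi d.1.1) d'.1.2 c2.2
  rcases hk with ⟨k1, k2⟩ | ⟨k1, k2⟩
  · have e1 := u3 k k1 (by omega)
    have e2 := hhyp hM d.hC _ _ _ c1.1 k1 k2 c2.2 hF
    omega
  · have e1 := v3 k k1 (by omega)
    have e2 := hhyp hM d.hC _ _ _ c2.1 k1 k2 c1.2 hF.symm
    omega

lemma cell_ext_pp {M : RM ι E} (hM : M.Good) {d d' : Cell M} (hCC : d.1.1 = d'.1.1)
    (hF : M.ht d.1.1 d.1.2 = M.ht d.1.1 d'.1.2)
    (hU : PP (M.ht d.1.1) (M.lo d.1.1) d.1.2 = PP (M.ht d.1.1) (M.lo d.1.1) d'.1.2) : d = d' := by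
  refine cell_ext hCC fun k hk => ?_
  have c1 := d.hCa
  have c2 := d'.hCa
  rw [← hCC] at c2
  obtain ⟨u1, u2, u3, u4⟩ := SEQM.pp (M.ht d.1.1) (M.lo d.1.1) d.1.2 c1.1
  obtain ⟨v1, v2, v3, v4⟩ := SEQM.pp (M.ht d.1.1) (M.lo d.1.1) d'.1.2 c2.1
  rcases hk with ⟨k1, k2⟩ | ⟨k1, k2⟩
  · have e1 := v3 k (by omega) k2
    have e2 := hhyp hM d.hC _ _ _ c1.1 k1 k2 c2.2 hF
    omega
  · have e1 := u3 k (by omega) k2
    have e2 := hhyp hM d.hC _ _ _ c2.1 k1 k2 c1.2 hF.symm
    omega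

/-- the height under the ceiling in terms of the floor -/
lemma ht_of_F {M : RM ι E} {d d' : Cell M} (hCC : d.1.1 = d'.1.1)
    (hF : M.bel d.1.1 d.1.2 = M.bel d'.1.1 d'.1.2) : M.ht d.1.1 d.1.2 = M.ht d.1.1 d'.1.2 := by
  unfold RM.ht
  rw [hF, hCC]

/-- T: the upper labels -/
lemma top_ext {M : RM ι E} (hM : M.Good) {d d' : Cell M} (h1 : d.ua = d'.ua) (h2 : d.ub = d'.ub) :
    d = d' := by
  have hCC : d.1.1 = d'.1.1 := ur_C hM d.hC d.hCa d'.hC d'.hCa h1
  have c1 := d.hCa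
  have c2 := d'.hCa
  have a1 := (ur_ax hM d.hC d.hCa).1
  have a2 := (ur_ax hM d'.hC d'.hCa).1
  have b1 := (ul_bx' hM d.hC d.hCa).1
  have b2 := (ul_bx' hM d'.hC d'.hCa).1
  change M.ax d.ua = _ at a1
  change M.ax d'.ua = _ at a2
  change M.bx d.ub = _ at b1
  change M.bx d'.ub = _ at b2
  rw [← hCC] at a2 b2 c2
  have hU : UU (M.ht d.1.1) (M.hi d.1.1) d.1.2 = UU (M.ht d.1.1) (M.hi d.1.1) d'.1.2 := by
    rw [← a1, ← a2, h1]
  have hP : PP (M.ht d.1.1) (M.lo d.1.1) d.1.2 = PP (M.ht d.1.1) (M.lo d.1.1) d'.1.2 := by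
    rw [← b1, ← b2, h2]
  refine cell_ext_uu hM hCC ?_ hU
  obtain ⟨u1, u2, u3, u4⟩ := SEQM.uu (M.ht d.1.1) (M.hi d.1.1) d.1.2 c1.2
  obtain ⟨v1, v2, v3, v4⟩ := SEQM.uu (M.ht d.1.1) (M.hi d.1.1) d'.1.2 c2.2
  obtain ⟨p1, p2, p3, p4⟩ := SEQM.pp (M.ht d.1.1) (M.lo d.1.1) d.1.2 c1.1
  obtain ⟨q1, q2, q3, q4⟩ := SEQM.pp (M.ht d.1.1) (M.lo d.1.1) d'.1.2 c2.1
  rcases le_total d.1.2 d'.1.2 with h | h
  · have e1 := u3 d'.1.2 h (by omega)
    have e2 := q3 d.1.2 (by omega) h
    omega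
  · have e1 := v3 d.1.2 h (by omega)
    have e2 := p3 d'.1.2 (by omega) h
    omega

/-- R: the right labels -/
lemma right_ext {M : RM ι E} (hM : M.Good) {d d' : Cell M} (h1 : d.ua = d'.ua)
    (h2 : d.lb = d'.lb) : d = d' := by
  have hCC : d.1.1 = d'.1.1 := ur_C hM d.hC d.hCa d'.hC d'.hCa h1
  have a1 := (ur_ax hM d.hC d.hCa).1
  have a2 := (ur_ax hM d'.hC d'.hCa).1
  change M.ax d.ua = _ at a1
  change M.ax d'.ua = _ at a2
  rw [← hCC] at a2
  refine cell_ext_uu hM hCC (ht_of_F hCC (lb_F hM h2)) ?_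
  rw [← a1, ← a2, h1]

/-- L: the left labels -/
lemma left_ext {M : RM ι E} (hM : M.Good) {d d' : Cell M} (h1 : d.la = d'.la)
    (h2 : d.ub = d'.ub) : d = d' := by
  have hCC : d.1.1 = d'.1.1 := ul_C hM d.hC d.hCa d'.hC d'.hCa h2
  have b1 := (ul_bx' hM d.hC d.hCa).1
  have b2 := (ul_bx' hM d'.hC d'.hCa).1
  change M.bx d.ub = _ at b1
  change M.bx d'.ub = _ at b2
  rw [← hCC] at b2
  refine cell_ext_pp hM hCC (ht_of_F hCC (la_F hM h1)) ?_
  rw [← b1, ← b2, h2]

/-- B: the lower labels -/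
lemma bot_ext {M : RM ι E} (hM : M.Good) {d d' : Cell M} (h1 : d.la = d'.la)
    (h2 : d.lb = d'.lb) : d = d' := by
  have hrg := good_rot hM
  have hF := la_F hM h1
  obtain ⟨q1, q2, q3, q4⟩ := rot_run hM d.hC d.hCa
  obtain ⟨p1, p2, p3, p4⟩ := rot_run hM d'.hC d'.hCa
  have a1 := (ur_ax hrg q1 q2).1
  have a2 := (ur_ax hrg p1 p2).1
  have b1 := (ul_bx' hrg q1 q2).1
  have b2 := (ul_bx' hrg p1 p2).1
  change M.rot.ax d.la = _ at a1
  change M.rot.ax d'.la = _ at a2
  change M.rot.bx d.lb = _ at b1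
  change M.rot.bx d'.lb = _ at b2
  rw [← hF] at a2 b2 p2 p3 p4
  set F := M.bel d.1.1 d.1.2 with hFdef
  have hU : UU (M.rot.ht F) (M.rot.hi F) (-1 - d.1.2) = UU (M.rot.ht F) (M.rot.hi F) (-1 - d'.1.2) := by
    rw [← a1, ← a2, h1]
  have hP : PP (M.rot.ht F) (M.rot.lo F) (-1 - d.1.2) = PP (M.rot.ht F) (M.rot.lo F) (-1 - d'.1.2) := by
    rw [← b1, ← b2, h2]
  obtain ⟨u1, u2, u3, u4⟩ := SEQM.uu (M.rot.ht F) (M.rot.hi F) (-1 - d.1.2) q2.2
  obtain ⟨v1, v2, v3, v4⟩ := SEQM.uu (M.rot.ht F) (M.rot.hi F) (-1 - d'.1.2) p2.2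
  obtain ⟨x1, x2, x3, x4⟩ := SEQM.pp (M.rot.ht F) (M.rot.lo F) (-1 - d.1.2) q2.1
  obtain ⟨y1, y2, y3, y4⟩ := SEQM.pp (M.rot.ht F) (M.rot.lo F) (-1 - d'.1.2) p2.1
  have heq : M.rot.ht F (-1 - d.1.2) = M.rot.ht F (-1 - d'.1.2) := by
    rcases le_total (-1 - d.1.2) (-1 - d'.1.2) with h | h
    · have e1 := u3 _ h (by omega)
      have e2 := y3 _ (by omega) h
      omega
    · have e1 := v3 _ h (by omega)
      have e2 := x3 _ (by omega) h
      omega
  have hCC : d.1.1 = d'.1.1 := by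
    rw [← q3, ← p3]
    exact bel_eq hrg heq
  have hall : ∀ k, (-1 - d.1.2 ≤ k ∧ k ≤ -1 - d'.1.2) ∨ (-1 - d'.1.2 ≤ k ∧ k ≤ -1 - d.1.2) →
      M.rot.ht F k = M.rot.ht F (-1 - d.1.2) := by
    intro k hk
    rcases hk with ⟨k1, k2⟩ | ⟨k1, k2⟩
    · have e1 := u3 k k1 (by omega)
      have e2 := hhyp hrg q1 _ _ _ q2.1 k1 k2 p2.2 heq
      omega
    · have e1 := v3 k k1 (by omega)
      have e2 := hhyp hrg q1 _ _ _ p2.1 k1 k2 q2.2 heq.symm
      omega
  refine cell_ext hCC fun k hk => ?_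
  have e1 := hall (-1 - k) (by omega)
  have e2 := bel_eq hrg e1
  rw [q3] at e2
  have hcov : M.rot.Cov F (-1 - k) := by
    rcases hk with ⟨k1, k2⟩ | ⟨k1, k2⟩
    · exact ⟨by have := p2.1; omega, by have := q2.2; omega⟩
    · exact ⟨by have := q2.1; omega, by have := p2.2; omega⟩
  obtain ⟨s1, s2, s3, s4⟩ := rot_run hrg q1 hcov
  rw [rot_rot, e2, show -1 - (-1 - k) = k by ring] at s3
  unfold RM.ht
  rw [s3]

/-! ## Positions -/

/-- the ceiling over the floor of a cell, in the columns seen by `UU` of the rotated row, is not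
below `C`: an edge over the floor and under `C` does not cover these columns -/
lemma no_edge_over {M : RM ι E} (hM : M.Good) {C : E} {a k : ℤ} (hC : ¬ M.Fl C)
    (hCa : M.Cov C a) (hZ : M.rot.Cov (M.bel C a) (-1 - k))
    (h : M.rot.ht (M.bel C a) (-1 - k) ≤ M.rot.ht (M.bel C a) (-1 - a)) {e : E} (he : M.Cov e k)
    (h1 : M.ht C a < M.Y e) (h2 : M.Y e < M.Y C) : False := by
  obtain ⟨q1, q2, q3, q4⟩ := rot_run hM hC hCa
  have hb := (gBEL ι E M.rot (good_rot hM) (M.bel C a) (-1 - k) q1 hZ).2.2.2.1 e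
    ((cov_rot M e _).2 (by rw [show -1 - (-1 - k) = k by ring]; exact he))
    (by rw [rot_Y, rot_Y]; have : M.ht C a = M.Y (M.bel C a) := rfl; omega)
  change M.rot.Y e ≤ M.rot.ht (M.bel C a) (-1 - k) at hb
  rw [rot_Y] at hb
  omega

/-- the lower left A-vertex is not to the left of `PP` if `PP` is not the end of the ceiling -/
lemma pp_le_la {M : RM ι E} (hM : M.Good) {C : E} {a : ℤ} (hC : ¬ M.Fl C) (hCa : M.Cov C a)
    (hP : M.lo C < PP (M.ht C) (M.lo C) a) :
    PP (M.ht C) (M.lo C) a ≤ M.ax (la M C a) := by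
  obtain ⟨q1, q2, q3, q4⟩ := rot_run hM hC hCa
  have h1 := (ur_ax (good_rot hM) q1 q2).1
  rw [rot_ax hM] at h1
  change - M.ax (la M C a) = _ at h1
  obtain ⟨u1, u2, u3, u4⟩ := SEQM.uu (M.rot.ht (M.bel C a)) (M.rot.hi (M.bel C a)) (-1 - a) q2.2
  obtain ⟨p1, p2, p3, p4⟩ := SEQM.pp (M.ht C) (M.lo C) a hCa.1
  set P := PP (M.ht C) (M.lo C) a with hPdef
  by_contra hcon
  have h2 := p4 hP
  have hcov : M.Cov C (P - 1) := ⟨by omega, by have := hCa.2; omega⟩
  have hbel := gBEL ι E M hM C (P - 1) hC hcov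
  refine no_edge_over hM (k := P - 1) hC hCa ⟨by have := q2.1; omega, by omega⟩
    (u3 _ (by omega) (by omega)) hbel.1 ?_ hbel.2.1
  change M.ht C a < M.ht C (P - 1)
  exact h2

/-- R: the lower right vertex is below the upper right vertex -/
lemma lb_lt_ur {M : RM ι E} (hM : M.Good) {C : E} {a : ℤ} (hC : ¬ M.Fl C) (hCa : M.Cov C a) :
    M.Y (lb M C a) < M.Y (M.ur C a) := by
  have hrg := good_rot hM
  obtain ⟨q1, q2, q3, q4⟩ := rot_run hM hC hCa
  obtain ⟨y1, y2⟩ := ul_bx' hrg q1 q2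
  change M.rot.bx (lb M C a) = _ at y1
  change _ < M.rot.Y (lb M C a) at y2
  rw [q4, rot_Y] at y2
  rcases ur_cases hM hC hCa with ⟨h1, h2⟩ | ⟨f, f1, f2, f3, f4, f5⟩
  · rw [h1]
    omega
  · obtain ⟨x1, x2⟩ := ur_ax hM hC hCa
    obtain ⟨hb1, hb2⟩ := lb_bx hM hC hCa
    by_cases hFl : M.Fl (lb M C a)
    · rw [hb2 hFl]
      exact x2
    · -- the lower right vertex is the left end of a ceiling `b`
      set b := lb M C a with hb
      have hbx : M.bx b = M.lo b := by unfold RM.bx; rw [if_neg hFl]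
      rw [rot_bx hM, hbx] at y1
      rw [hbx] at hb1
      obtain ⟨u1, u2, u3, u4⟩ := SEQM.uu (M.ht C) (M.hi C) a hCa.2
      obtain ⟨p1, p2, p3, p4⟩ := SEQM.pp (M.rot.ht (M.bel C a)) (M.rot.lo (M.bel C a)) (-1 - a) q2.1
      set U := UU (M.ht C) (M.hi C) a with hU
      have hhi : U < M.hi C := by
        have := ((gLIN ι E M hM).2.1 f f1).2.2.1
        rw [f3, ← f4] at this
        exact this
      have h3 := u4 hhi
      have hlt := lo_lt_hi hM b
      -- heights: the floor is below `b`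
      have hYF : M.ht C a < M.Y b := by
        -- `b` is not the floor, so it comes from a line
        have h5 : b = M.rot.ul (M.bel C a) (-1 - a) := rfl
        have h6 : ¬ PP (M.rot.ht (M.bel C a)) (M.rot.lo (M.bel C a)) (-1 - a) =
            M.rot.lo (M.bel C a) := by
          intro h
          have : b = M.bel C a := by
            rw [h5]
            unfold RM.ul
            rw [if_pos h]
          apply hFl
          rw [this]
          exact (gBEL ι E M hM C a hC hCa).2.2.1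
        have h7 : b = M.rot.bel (M.bel C a)
            (PP (M.rot.ht (M.bel C a)) (M.rot.lo (M.bel C a)) (-1 - a) - 1) := by
          rw [h5]
          unfold RM.ul
          rw [if_neg h6]
        have h8 := (gBEL ι E M.rot hrg (M.bel C a)
          (PP (M.rot.ht (M.bel C a)) (M.rot.lo (M.bel C a)) (-1 - a) - 1) q1
          ⟨by omega, by have := q2.2; omega⟩).2.1
        rw [← h7, rot_Y, rot_Y] at h8
        change M.Y (M.bel C a) < _
        omega
      have hYC : M.Y b < M.Y C := by omega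
      -- `U ≥ lo b`
      have hUb : M.lo b ≤ U := by
        by_contra hcon
        have hcovU : M.Cov C U := ⟨by have := hCa.1; omega, hhi⟩
        have hbel := gBEL ι E M hM C U hC hcovU
        refine no_edge_over hM (k := U) hC hCa ⟨by omega, by have := q2.2; omega⟩
          (p3 _ (by omega) (by omega)) hbel.1 ?_ hbel.2.1
        exact h3
      have hbU : U ≤ M.lo b := by
        by_contra hcon
        have hcov : M.Cov C (M.lo b) := ⟨by have := hCa.1; omega, by omega⟩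
        have e1 := (gBEL ι E M hM C (M.lo b) hC hcov).2.2.2.1 b ⟨le_rfl, hlt⟩ hYC
        change M.Y b ≤ M.ht C (M.lo b) at e1
        have e2 := u3 (M.lo b) (by omega) (by omega)
        omega
      -- both are ends of the vertical edge `f`
      have hXf : M.X f = M.lo b := by omega
      obtain ⟨t1, t2, t3, t4, -⟩ := gTGA ι E M hM f f1 f2
      rw [f5] at t1 t2 t3
      rw [t3]
      have e3 := tp_bo (end_X hM (Or.inl hXf.symm))
      have e4 := bo_lt_tp' hM f
      rcases e3 with e3 | e3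
      · exfalso
        have : b = M.ur C a := hM.Y_inj (e3.trans t3.symm)
        rw [this] at hFl
        exact hFl t2
      · omega

/-- L: the lower left vertex is below the upper left vertex -/
lemma la_lt_ul {M : RM ι E} (hM : M.Good) {C : E} {a : ℤ} (hC : ¬ M.Fl C) (hCa : M.Cov C a) :
    M.Y (la M C a) < M.Y (M.ul C a) := by
  have hrg := good_rot hM
  obtain ⟨q1, q2, q3, q4⟩ := rot_run hM hC hCa
  have h1 := lb_lt_ur hrg q1 q2
  rw [lb_rot hM hC hCa, rot_Y, rot_Y] at h1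
  change - M.Y (M.ul C a) < - M.Y (la M C a) at h1
  omega

/-- the number of the cells at the A-vertex `v` and the B-vertex `b` -/
lemma card_side {M : RM ι E} (hM : M.Good) (v b : E) :
    (univ.filter fun d : Cell M => (d.ua = v ∨ d.la = v) ∧ d.ub = b).card +
      (univ.filter fun d : Cell M => (d.ua = v ∨ d.la = v) ∧ d.lb = b).card ≤
      (if M.ax v = M.bx b then 0 else 1) + (if M.Y v = M.Y b then 0 else 1) := by
  classical
  set T := univ.filter fun d : Cell M => d.ua = v ∧ d.ub = b with hT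
  set L := univ.filter fun d : Cell M => d.la = v ∧ d.ub = b with hL
  set R := univ.filter fun d : Cell M => d.ua = v ∧ d.lb = b with hR
  set B := univ.filter fun d : Cell M => d.la = v ∧ d.lb = b with hB
  have cT : T.card ≤ 1 := by
    rw [card_le_one]
    intro d hd d' hd'
    rw [hT, mem_filter] at hd hd'
    exact top_ext hM (hd.2.1.trans hd'.2.1.symm) (hd.2.2.trans hd'.2.2.symm)
  have cL : L.card ≤ 1 := by
    rw [card_le_one]
    intro d hd d' hd'
    rw [hL, mem_filter] at hd hd'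
    exact left_ext hM (hd.2.1.trans hd'.2.1.symm) (hd.2.2.trans hd'.2.2.symm)
  have cR : R.card ≤ 1 := by
    rw [card_le_one]
    intro d hd d' hd'
    rw [hR, mem_filter] at hd hd'
    exact right_ext hM (hd.2.1.trans hd'.2.1.symm) (hd.2.2.trans hd'.2.2.symm)
  have cB : B.card ≤ 1 := by
    rw [card_le_one]
    intro d hd d' hd'
    rw [hB, mem_filter] at hd hd'
    exact bot_ext hM (hd.2.1.trans hd'.2.1.symm) (hd.2.2.trans hd'.2.2.symm)
  have eT : T.Nonempty → M.bx b < M.ax v := by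
    rintro ⟨d, hd⟩
    rw [hT, mem_filter] at hd
    have h1 := (ua_pos hM d).1
    have h2 := (ub_pos hM d).1
    rw [hd.2.1] at h1
    rw [hd.2.2] at h2
    omega
  have eB : B.Nonempty → M.ax v < M.bx b := by
    rintro ⟨d, hd⟩
    rw [hB, mem_filter] at hd
    have h1 := (la_pos hM d).1
    have h2 := (lb_pos hM d).1
    rw [hd.2.1] at h1
    rw [hd.2.2] at h2
    omega
  have eR : R.Nonempty → M.Y b < M.Y v := by
    rintro ⟨d, hd⟩
    rw [hR, mem_filter] at hd
    have h1 := lb_lt_ur hM d.hC d.hCa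
    change M.Y d.lb < M.Y d.ua at h1
    rw [hd.2.1, hd.2.2] at h1
    exact h1
  have eL : L.Nonempty → M.Y v < M.Y b := by
    rintro ⟨d, hd⟩
    rw [hL, mem_filter] at hd
    have h1 := la_lt_ul hM d.hC d.hCa
    change M.Y d.la < M.Y d.ub at h1
    rw [hd.2.1, hd.2.2] at h1
    exact h1
  have hTB : T.card + B.card ≤ if M.ax v = M.bx b then 0 else 1 := by
    have h1 : T.card = 0 ∨ M.bx b < M.ax v := by
      rcases T.eq_empty_or_nonempty with h | h
      · exact Or.inl (card_eq_zero.2 h)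
      · exact Or.inr (eT h)
    have h2 : B.card = 0 ∨ M.ax v < M.bx b := by
      rcases B.eq_empty_or_nonempty with h | h
      · exact Or.inl (card_eq_zero.2 h)
      · exact Or.inr (eB h)
    split_ifs with h <;> omega
  have hRL : R.card + L.card ≤ if M.Y v = M.Y b then 0 else 1 := by
    have h1 : R.card = 0 ∨ M.Y b < M.Y v := by
      rcases R.eq_empty_or_nonempty with h | h
      · exact Or.inl (card_eq_zero.2 h)
      · exact Or.inr (eR h)
    have h2 : L.card = 0 ∨ M.Y v < M.Y b := by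
      rcases L.eq_empty_or_nonempty with h | h
      · exact Or.inl (card_eq_zero.2 h)
      · exact Or.inr (eL h)
    split_ifs with h <;> omega
  have h1 : (univ.filter fun d : Cell M => (d.ua = v ∨ d.la = v) ∧ d.ub = b).card ≤
      T.card + L.card := by
    refine le_trans (card_le_card ?_) (card_union_le T L)
    intro d hd
    rw [mem_filter] at hd
    rw [mem_union, hT, hL, mem_filter, mem_filter]
    rcases hd.2.1 with h | h
    · exact Or.inl ⟨mem_univ _, h, hd.2.2⟩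
    · exact Or.inr ⟨mem_univ _, h, hd.2.2⟩
  have h2 : (univ.filter fun d : Cell M => (d.ua = v ∨ d.la = v) ∧ d.lb = b).card ≤
      R.card + B.card := by
    refine le_trans (card_le_card ?_) (card_union_le R B)
    intro d hd
    rw [mem_filter] at hd
    rw [mem_union, hR, hB, mem_filter, mem_filter]
    rcases hd.2.1 with h | h
    · exact Or.inl ⟨mem_univ _, h, hd.2.2⟩
    · exact Or.inr ⟨mem_univ _, h, hd.2.2⟩
  omega

/-- the cells at the B-vertex of the floor `e`, `v` one of their A-vertices -/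
lemma adj_top {M : RM ι E} (hM : M.Good) {e v : E} (he : M.Fl e) {d : Cell M}
    (hd : d.ub = e ∨ d.lb = e) (hv : d.ua = v ∨ d.la = v) :
    v = e ∨ (M.lo e < M.ax v ∧ M.Y e < M.Y v) ∨ M.hi e ≤ M.ax v := by
  have hbx : M.bx e = M.hi e := by unfold RM.bx; rw [if_pos he]
  rcases hd with hd | hd
  · -- the cell is to the right of `e`
    right; right
    obtain ⟨b1, b2⟩ := ul_bx' hM d.hC d.hCa
    change M.bx d.ub = _ at b1
    rw [hd, hbx] at b1
    have u1 := (SEQM.pp (M.ht d.1.1) (M.lo d.1.1) d.1.2 d.hCa.1)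
    rcases hv with hv | hv
    · have := (ua_pos hM d).1
      rw [hv] at this
      omega
    · have hlt : M.lo d.1.1 < PP (M.ht d.1.1) (M.lo d.1.1) d.1.2 := by
        refine lt_of_le_of_ne u1.1 fun h => ?_
        have : M.ul d.1.1 d.1.2 = d.1.1 := by
          unfold RM.ul
          rw [if_pos h.symm]
        change d.ub = _ at this
        rw [← this, hd] at h
        exact d.hC (by rw [← this, hd]; exact he)
      have := pp_le_la hM d.hC d.hCa hlt
      change _ ≤ M.ax d.la at this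
      rw [hv] at this
      omega
  · -- the cell is above `e`
    have hF : d.lb = M.bel d.1.1 d.1.2 := (lb_bx hM d.hC d.hCa).2 (by
      change M.Fl d.lb
      rw [hd]
      exact he)
    rw [hd] at hF
    have hcov := (gBEL ι E M hM d.1.1 d.1.2 d.hC d.hCa).1
    rw [← hF] at hcov
    have hYF : M.ht d.1.1 d.1.2 = M.Y e := by unfold RM.ht; rw [← hF]
    rcases hv with hv | hv
    · obtain ⟨h1, h2⟩ := ua_pos hM d
      rw [hv] at h1 h2
      rw [hYF] at h2
      exact Or.inr (Or.inl ⟨by have := hcov.1; omega, h2⟩)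
    · obtain ⟨q1, q2, q3, q4⟩ := rot_run hM d.hC d.hCa
      have hla : M.rot.ur (M.bel d.1.1 d.1.2) (-1 - d.1.2) = v := hv
      rcases ur_cases (good_rot hM) q1 q2 with ⟨h1, h2⟩ | ⟨f, f1, f2, f3, f4, f5⟩
      · left
        rw [← hla, h1, hF]
      · right; left
        obtain ⟨t1, t2, t3, -⟩ := gTGA ι E M.rot (good_rot hM) f f1 f2
        obtain ⟨l1, l2, l3, l4, -⟩ := (gLIN ι E M.rot (good_rot hM)).2.1 f f1
        rw [f5, hla] at t1 t3
        rw [rot_ax hM] at t1
        rw [f3, ← hF, rot_hi] at l3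
        rw [f3, ← hF, rot_Y, ← t3, rot_Y] at l4
        omega

/-- the cells at the B-vertex of the ceiling `e` -/
lemma adj_bot {M : RM ι E} (hM : M.Good) {e v : E} (he : ¬ M.Fl e) {d : Cell M}
    (hd : d.ub = e ∨ d.lb = e) (hv : d.ua = v ∨ d.la = v) :
    v = e ∨ (M.ax v < M.hi e ∧ M.Y v < M.Y e) ∨ M.ax v ≤ M.lo e := by
  obtain ⟨q1, q2, q3, q4⟩ := rot_run hM d.hC d.hCa
  have h := adj_top (good_rot hM) (e := e) (v := v) ((rot_Fl hM e).2 he) (d := Cell.of q1 q2)
    (by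
      rw [Cell.ub_of, Cell.lb_of (good_rot hM), lb_rot hM d.hC d.hCa]
      exact hd.symm)
    (by
      rw [Cell.ua_of, Cell.la_of (good_rot hM), la_rot hM d.hC d.hCa]
      exact hv.symm)
  rw [rot_lo, rot_hi, rot_ax hM, rot_Y, rot_Y] at h
  rcases h with h | h | h
  · exact Or.inl h
  · exact Or.inr (Or.inl ⟨by omega, by omega⟩)
  · exact Or.inr (Or.inr (by omega))

/-- SIMP: a rectangular hole occurs at most once at an A-vertex -/
theorem rect_simp [DecidableEq ι] {M : RM ι E} (hM : M.Good) (hh : M.Holes) {i : ι}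
    (hi : i ≠ M.o) (h2 : (univ.filter fun e => M.comp e = i).card = 2) (v : E) :
    (univ.filter fun d : Cell M => (d.ua = v ∨ d.la = v) ∧ M.comp d.ub = i).card +
      (univ.filter fun d : Cell M => (d.ua = v ∨ d.la = v) ∧ M.comp d.lb = i).card ≤ 2 := by
  classical
  obtain ⟨t, b, hm, hY, hFt, hFb, hlo, hhi⟩ := rect_pair hM hh hi h2
  have hlt := lo_lt_hi hM t
  have hbt : M.bx t = M.hi t := by unfold RM.bx; rw [if_pos hFt]
  have hbb : M.bx b = M.lo t := by unfold RM.bx; rw [if_neg hFb, hlo]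
  have hat : M.ax t = M.lo t := by unfold RM.ax; rw [if_pos hFt]
  have hab : M.ax b = M.hi t := by unfold RM.ax; rw [if_neg hFb, hhi]
  have ct := card_side hM v t
  have cb := card_side hM v b
  have h1 : (univ.filter fun d : Cell M => (d.ua = v ∨ d.la = v) ∧ M.comp d.ub = i).card ≤
      (univ.filter fun d : Cell M => (d.ua = v ∨ d.la = v) ∧ d.ub = t).card +
      (univ.filter fun d : Cell M => (d.ua = v ∨ d.la = v) ∧ d.ub = b).card := by
    refine le_trans (card_le_card ?_) (card_union_le _ _)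
    intro d hd
    rw [mem_filter] at hd
    rw [mem_union, mem_filter, mem_filter]
    rcases (hm _).1 hd.2.2 with h | h
    · exact Or.inl ⟨mem_univ _, hd.2.1, h⟩
    · exact Or.inr ⟨mem_univ _, hd.2.1, h⟩
  have h3 : (univ.filter fun d : Cell M => (d.ua = v ∨ d.la = v) ∧ M.comp d.lb = i).card ≤
      (univ.filter fun d : Cell M => (d.ua = v ∨ d.la = v) ∧ d.lb = t).card +
      (univ.filter fun d : Cell M => (d.ua = v ∨ d.la = v) ∧ d.lb = b).card := by
    refine le_trans (card_le_card ?_) (card_union_le _ _)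
    intro d hd
    rw [mem_filter] at hd
    rw [mem_union, mem_filter, mem_filter]
    rcases (hm _).1 hd.2.2 with h | h
    · exact Or.inl ⟨mem_univ _, hd.2.1, h⟩
    · exact Or.inr ⟨mem_univ _, hd.2.1, h⟩
  by_cases hvt : v = t
  · rw [hvt] at ct cb h1 h3 ⊢
    rw [hat, hbt, if_pos rfl] at ct
    rw [hat, hbb, if_pos rfl] at cb
    split_ifs at ct cb <;> omega
  · by_cases hvb : v = b
    · rw [hvb] at ct cb h1 h3 ⊢
      rw [hab, hbt, if_pos rfl] at ct
      rw [hab, hbb, if_pos rfl] at cb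
      split_ifs at ct cb <;> omega
    · -- `v` is not adjacent to both B-vertices
      have key : ∀ w, ((univ.filter fun d : Cell M => (d.ua = v ∨ d.la = v) ∧ d.ub = w).card +
          (univ.filter fun d : Cell M => (d.ua = v ∨ d.la = v) ∧ d.lb = w).card ≠ 0) →
          ∃ d : Cell M, (d.ub = w ∨ d.lb = w) ∧ (d.ua = v ∨ d.la = v) := by
        intro w hne
        by_contra hcon
        push Not at hcon
        apply hne
        have e1 : (univ.filter fun d : Cell M => (d.ua = v ∨ d.la = v) ∧ d.ub = w) = ∅ := by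
          rw [filter_eq_empty_iff]
          rintro d - ⟨g1, g2⟩
          obtain ⟨g3, g4⟩ := hcon d (Or.inl g2)
          tauto
        have e2 : (univ.filter fun d : Cell M => (d.ua = v ∨ d.la = v) ∧ d.lb = w) = ∅ := by
          rw [filter_eq_empty_iff]
          rintro d - ⟨g1, g2⟩
          obtain ⟨g3, g4⟩ := hcon d (Or.inr g2)
          tauto
        rw [e1, e2, card_empty]
      by_cases n1 : (univ.filter fun d : Cell M => (d.ua = v ∨ d.la = v) ∧ d.ub = t).card +
          (univ.filter fun d : Cell M => (d.ua = v ∨ d.la = v) ∧ d.lb = t).card = 0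
      · split_ifs at ct cb <;> omega
      · by_cases n2 : (univ.filter fun d : Cell M => (d.ua = v ∨ d.la = v) ∧ d.ub = b).card +
            (univ.filter fun d : Cell M => (d.ua = v ∨ d.la = v) ∧ d.lb = b).card = 0
        · split_ifs at ct cb <;> omega
        · exfalso
          obtain ⟨d, hd, hd'⟩ := key t n1
          obtain ⟨d', hd1, hd1'⟩ := key b n2
          have g1 := adj_top hM hFt hd hd'
          have g2 := adj_bot hM hFb hd1 hd1'
          rcases g1 with g1 | g1 | g1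
          · exact hvt g1
          · rcases g2 with g2 | g2 | g2
            · exact hvb g2
            · omega
            · omega
          · rcases g2 with g2 | g2 | g2
            · exact hvb g2
            · omega
            · omega

end PG

end Pool.Agent.Lib.MP06c549
end

section
/-!
# MP_06c549_co, plane graph: holes with six vertices; the mirror image of a cover
-/
set_option autoImplicit false
set_option linter.unusedSectionVars false

namespace Pool.Agent.Lib.MP06c549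

open Finset

namespace PG

variable {ι E : Type} [Fintype E] [DecidableEq E]

/-! ## Reflex vertices -/

/-- the A-vertex of `v` is reflex -/
def RefA (M : RM ι E) (v : E) : Prop :=
  ∃ f, M.X f = M.ax v ∧ ((M.Fl v ∧ M.Y v = M.tp f) ∨ (¬ M.Fl v ∧ M.Y v = M.bo f))

/-- the B-vertex of `v` is reflex -/
def RefB (M : RM ι E) (v : E) : Prop := RefA (mir M) v

lemma refA_rot {M : RM ι E} (hM : M.Good) {v : E} : RefA M.rot v ↔ RefA M v := by
  have key : ∀ {M : RM ι E}, M.Good → RefA M v → RefA M.rot v := by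
    rintro M hM ⟨f, h1, h2⟩
    refine ⟨f, by rw [rot_X, rot_ax hM, h1], ?_⟩
    have h3 : M.rot.tp f = - M.bo f := ROTM.tp_rot M f
    have h4 : M.rot.bo f = - M.tp f := ROTM.bo_rot M f
    rw [rot_Fl hM, rot_Y, h3, h4]
    rcases h2 with ⟨h2, h5⟩ | ⟨h2, h5⟩
    · exact Or.inr ⟨fun h => h h2, by rw [h5]⟩
    · exact Or.inl ⟨h2, by rw [h5]⟩
  constructor
  · intro h
    have := key (good_rot hM) h
    rwa [rot_rot] at this
  · exact key hM

lemma refB_rot {M : RM ι E} (hM : M.Good) {v : E} : RefB M.rot v ↔ RefB M v := by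
  unfold RefB
  rw [← mir_rot]
  exact refA_rot (good_mir hM)

lemma refB_mir {M : RM ι E} {v : E} : RefB (mir M) v ↔ RefA M v := by
  unfold RefB
  rw [mir_mir]

/-- a reflex left end of a floor is the source of an arrow -/
lemma src_of_ref {M : RM ι E} (hM : M.Good) {v f : E} (hv : M.Fl v) (hX : M.X f = M.ax v)
    (hY : M.Y v = M.tp f) : f ∈ srcs M v := by
  have hax : M.ax v = M.lo v := by unfold RM.ax; rw [if_pos hv]
  rw [hax] at hX
  have hRT : M.RT f := by
    unfold RM.RT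
    rw [hX, ← hY]
    exact hv
  obtain ⟨l1, l2, l3, l4⟩ := gLIN ι E M hM
  have hasc : M.asc f := by
    by_contra h
    obtain ⟨d1, d2, d3⟩ := l4 f hRT h
    have h1 : M.bel (M.ot f) (M.X f - 1) = v := hM.Y_inj (d2.trans hY.symm)
    rw [h1, hX] at d1
    have := lo_lt_hi hM v
    omega
  obtain ⟨d1, d2, d3⟩ := l3 f hRT hasc
  refine mem_srcs.2 ⟨⟨hRT, hasc⟩, ?_⟩
  have h1 : M.ta f = M.bel (M.ot f) (M.X f) := if_pos hasc
  rw [h1]
  exact hM.Y_inj (d2.trans hY.symm)

lemma exists_la {M : RM ι E} (hM : M.Good) {v : E} (hv : M.Fl v) : ∃ d : Cell M, d.la = v := by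
  have hrg := good_rot hM
  have hlt := lo_lt_hi hrg v
  obtain ⟨C, a, q1, q2, q3, q4, q5, q6⟩ := run_rot hM (F := v) (b := M.rot.hi v - 1)
    (fun h => (rot_Fl hM v).1 h hv) ⟨by omega, by omega⟩
  refine ⟨Cell.of q1 q2, ?_⟩
  rw [Cell.la_of hM, q5]
  exact ur_of_end (by ring)

lemma exists_ua {M : RM ι E} (hM : M.Good) {v : E} (hv : ¬ M.Fl v) : ∃ d : Cell M, d.ua = v := by
  have hlt := lo_lt_hi hM v
  refine ⟨Cell.of (C := v) (a := M.hi v - 1) hv ⟨by omega, by omega⟩, ?_⟩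
  rw [Cell.ua_of]
  exact ur_of_end (by ring)

lemma exists_ua_of_src {M : RM ι E} (hM : M.Good) {v f : E} (hf : f ∈ srcs M v) :
    ∃ d : Cell M, d.ua = v := by
  rw [mem_srcs] at hf
  obtain ⟨c1, c2, c3, c4, c5⟩ := (gLIN ι E M hM).2.1 f hf.1.1
  refine ⟨Cell.of (C := M.ot f) (a := M.X f - 1) c1 ⟨by omega, by omega⟩, ?_⟩
  rw [Cell.ua_of, ur_line hM hf.1.1, hf.2]

/-- a cell of the rotated model -/
lemma cell_rot {M : RM ι E} (hM : M.Good) (d : Cell M.rot) : ∃ d' : Cell M, d'.ua = d.la ∧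
    d'.ub = d.lb ∧ d'.la = d.ua ∧ d'.lb = d.ub := by
  obtain ⟨C, a, q1, q2, q3, q4, q5, q6⟩ := run_rot hM d.hC d.hCa
  refine ⟨Cell.of q1 q2, ?_⟩
  rw [Cell.ua_of, Cell.ub_of, Cell.la_of hM, Cell.lb_of hM]
  exact ⟨q3, q4, q5, q6⟩

/-- a cell of the mirror image -/
lemma cell_mir {M : RM ι E} (hM : M.Good) (d : Cell (mir M)) : ∃ d' : Cell M, d'.ua = d.ub ∧
    d'.ub = d.ua ∧ d'.la = d.lb ∧ d'.lb = d.la := by
  obtain ⟨q1, q2, q3, q4, q5, q6⟩ := mir_run hM d.hC d.hCa
  refine ⟨Cell.of q1 q2, ?_⟩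
  rw [Cell.ua_of, Cell.ub_of, Cell.la_of hM, Cell.lb_of hM]
  exact ⟨q4.symm, q3.symm, q6.symm, q5.symm⟩

lemma mir_cell {M : RM ι E} (hM : M.Good) (d : Cell M) : ∃ d' : Cell (mir M), d'.ua = d.ub ∧
    d'.ub = d.ua ∧ d'.la = d.lb ∧ d'.lb = d.la := by
  obtain ⟨q1, q2, q3, q4, q5, q6⟩ := run_mir hM d.hC d.hCa
  refine ⟨Cell.of q1 q2, ?_⟩
  rw [Cell.ua_of, Cell.ub_of, Cell.la_of (good_mir hM), Cell.lb_of (good_mir hM)]
  exact ⟨q3, q4, q5, q6⟩

/-- a cover of the mirror image -/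
lemma hits_mir {M : RM ι E} (hM : M.Good) {A B : Finset E} (h : Hits (mir M) A B) :
    Hits M B A := by
  intro d
  obtain ⟨d', h1, h2, h3, h4⟩ := mir_cell hM d
  have := h d'
  rw [h1, h2, h3, h4] at this
  tauto

/-- a reflex A-vertex is the upper right and the lower left vertex of some cells -/
lemma RefA.two {M : RM ι E} (hM : M.Good) {v : E} (h : RefA M v) :
    (∃ d : Cell M, d.ua = v) ∧ ∃ d : Cell M, d.la = v := by
  obtain ⟨f, h1, h2⟩ := h
  rcases h2 with ⟨h2, h3⟩ | ⟨h2, h3⟩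
  · exact ⟨exists_ua_of_src hM (src_of_ref hM h2 h1 h3), exists_la hM h2⟩
  · refine ⟨exists_ua hM h2, ?_⟩
    have hf : f ∈ srcs M.rot v := by
      refine src_of_ref (good_rot hM) ((rot_Fl hM v).2 h2) (by rw [rot_X, rot_ax hM, h1]) ?_
      rw [rot_Y, show M.rot.tp f = - M.bo f from ROTM.tp_rot M f, h3]
    obtain ⟨d, hd⟩ := exists_ua_of_src (good_rot hM) hf
    obtain ⟨d', -, -, h4, -⟩ := cell_rot hM d
    exact ⟨d', h4.trans hd⟩

lemma RefB.two {M : RM ι E} (hM : M.Good) {v : E} (h : RefB M v) :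
    (∃ d : Cell M, d.ub = v) ∧ ∃ d : Cell M, d.lb = v := by
  obtain ⟨⟨d, hd⟩, ⟨e, he⟩⟩ := RefA.two (good_mir hM) h
  obtain ⟨d', -, h1, -, -⟩ := cell_mir hM d
  obtain ⟨e', -, -, -, h2⟩ := cell_mir hM e
  exact ⟨⟨d', h1.trans hd⟩, ⟨e', h2.trans he⟩⟩

/-! ## Hexagons -/

/-- the base case: `e3` is the long edge, at the top, `e1` the left one, `e2` the right one -/
lemma hex_base [DecidableEq ι] {M : RM ι E} (hh : M.Holes) (hM : M.Good) {i : ι} (hi : i ≠ M.o)
    {e1 e2 e3 : E} (s1 : M.s e1 = e2) (s2 : M.s e2 = e3) (s3 : M.s e3 = e1)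
    (hm : ∀ x, M.comp x = i ↔ (x = e1 ∨ x = e2 ∨ x = e3)) (hx1 : M.X e1 < M.X e2)
    (hx2 : M.X e2 < M.X e3) (hy1 : M.Y e1 < M.Y e3) (hy2 : M.Y e2 < M.Y e3) :
    (∀ v, M.comp v = i → RefA M v) ∨ (∀ v, M.comp v = i → RefB M v) := by
  have t1 : M.s.symm e1 = e3 := by rw [Equiv.symm_apply_eq, s3]
  have t2 : M.s.symm e2 = e1 := by rw [Equiv.symm_apply_eq, s1]
  have t3 : M.s.symm e3 = e2 := by rw [Equiv.symm_apply_eq, s2]
  have lo1 : M.lo e1 = M.X e1 := by unfold RM.lo; rw [s1]; omega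
  have hi1 : M.hi e1 = M.X e2 := by unfold RM.hi; rw [s1]; omega
  have lo2 : M.lo e2 = M.X e2 := by unfold RM.lo; rw [s2]; omega
  have hi2 : M.hi e2 = M.X e3 := by unfold RM.hi; rw [s2]; omega
  have lo3 : M.lo e3 = M.X e1 := by unfold RM.lo; rw [s3]; omega
  have hi3 : M.hi e3 = M.X e3 := by unfold RM.hi; rw [s3]; omega
  have tp1 : M.tp e1 = M.Y e3 := by unfold RM.tp; rw [t1]; omega
  have bo1 : M.bo e1 = M.Y e1 := by unfold RM.bo; rw [t1]; omega
  have tp3 : M.tp e3 = M.Y e3 := by unfold RM.tp; rw [t3]; omega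
  have bo3 : M.bo e3 = M.Y e2 := by unfold RM.bo; rw [t3]; omega
  have bo2 : M.bo e2 = min (M.Y e1) (M.Y e2) := by unfold RM.bo; rw [t2]
  -- a cell below `e3` and not below the other edge is in the hole
  have key : ∀ a b, M.Cov e3 a → b < M.Y e3 → (M.Cov e1 a → ¬ b < M.Y e1) →
      (M.Cov e2 a → ¬ b < M.Y e2) → ¬ M.S a b := by
    intro a b h1 h2 h3 h4
    refine hh.hole i hi _ _ ?_
    have h7 : ((univ.filter fun e => M.comp e = i).filter fun e =>
        M.Cov e a ∧ b < M.Y e) = {e3} := by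
      ext x
      simp only [mem_filter, mem_univ, true_and, mem_singleton]
      constructor
      · rintro ⟨h8, h9, h10⟩
        rcases (hm x).1 h8 with h | h | h
        · rw [h] at h9 h10; exact absurd h10 (h3 h9)
        · rw [h] at h9 h10; exact absurd h10 (h4 h9)
        · exact h
      · rintro rfl
        exact ⟨(hm _).2 (Or.inr (Or.inr rfl)), h1, h2⟩
    unfold RM.cnt
    rw [h7, card_singleton]
    exact odd_one
  have F3 : M.Fl e3 := by
    have h1 := (gFLC ι E M hM e3 (M.lo e3) ⟨le_rfl, by omega⟩).2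
    by_contra h2
    refine key _ _ ⟨le_rfl, by omega⟩ (by omega) (fun _ => by omega) (fun _ => by omega) (h1.2 h2)
  have F1 : ¬ M.Fl e1 := by
    unfold RM.Fl
    refine key _ _ ⟨by omega, by omega⟩ hy1 (fun _ => lt_irrefl _) (fun h => ?_)
    exfalso
    have := h.1
    omega
  have F2 : ¬ M.Fl e2 := by
    unfold RM.Fl
    refine key _ _ ⟨by omega, by omega⟩ hy2 (fun h => ?_) (fun _ => lt_irrefl _)
    exfalso
    have := h.2
    omega
  have ax3 : M.ax e3 = M.X e1 := by unfold RM.ax; rw [if_pos F3, lo3]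
  have ax2 : M.ax e2 = M.X e3 := by unfold RM.ax; rw [if_neg F2, hi2]
  have ax1 : M.ax e1 = M.X e2 := by unfold RM.ax; rw [if_neg F1, hi1]
  have bx3 : M.bx e3 = M.X e3 := by unfold RM.bx; rw [if_pos F3, hi3]
  have bx1 : M.bx e1 = M.X e1 := by unfold RM.bx; rw [if_neg F1, lo1]
  have bx2 : M.bx e2 = M.X e2 := by unfold RM.bx; rw [if_neg F2, lo2]
  have hne : M.Y e1 ≠ M.Y e2 := fun h => by
    have := hM.Y_inj h
    rw [this] at hx1
    exact lt_irrefl _ hx1
  have mkB : ∀ v f, M.X f = M.bx v → ((M.Fl v ∧ M.Y v = M.tp f) ∨ (¬ M.Fl v ∧ M.Y v = M.bo f)) →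
      RefB M v := by
    intro v f h1 h2
    refine ⟨f, by rw [mir_X, mir_ax hM, h1], ?_⟩
    rw [mir_Fl hM]
    exact h2
  rcases lt_or_gt_of_ne hne with h | h
  · left
    intro v hv
    rcases (hm v).1 hv with rfl | rfl | rfl
    · exact ⟨e2, ax1.symm, Or.inr ⟨F1, by rw [bo2]; omega⟩⟩
    · exact ⟨e3, ax2.symm, Or.inr ⟨F2, bo3.symm⟩⟩
    · exact ⟨e1, ax3.symm, Or.inl ⟨F3, tp1.symm⟩⟩
  · right
    intro v hv
    rcases (hm v).1 hv with rfl | rfl | rfl
    · exact mkB _ _ bx1.symm (Or.inr ⟨F1, bo1.symm⟩)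
    · exact mkB _ _ bx2.symm (Or.inr ⟨F2, by rw [bo2]; omega⟩)
    · exact mkB _ _ bx3.symm (Or.inl ⟨F3, tp3.symm⟩)

/-- a hole with six vertices has all its A-vertices or all its B-vertices reflex -/
theorem hex_reflex [DecidableEq ι] {M : RM ι E} (hM : M.Good) (hh : M.Holes) {i : ι}
    (hi : i ≠ M.o) (h3 : (univ.filter fun e => M.comp e = i).card = 3) :
    (∀ v, M.comp v = i → RefA M v) ∨ (∀ v, M.comp v = i → RefB M v) := by
  classical
  -- up: the long edge at the top or at the bottom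
  have up : ∀ {M : RM ι E}, M.Good → M.Holes → i ≠ M.o → ∀ {e1 e2 e3 : E}, M.s e1 = e2 →
      M.s e2 = e3 → M.s e3 = e1 → (∀ x, M.comp x = i ↔ (x = e1 ∨ x = e2 ∨ x = e3)) →
      M.X e1 < M.X e2 → M.X e2 < M.X e3 →
      (∀ v, M.comp v = i → RefA M v) ∨ (∀ v, M.comp v = i → RefB M v) := by
    intro M hM hh hi e1 e2 e3 s1 s2 s3 hm hx1 hx2
    have t2 : M.s.symm e2 = e1 := by rw [Equiv.symm_apply_eq, s1]
    have hnc := hM.nc e3 e2
    have lo3 : M.lo e3 = M.X e1 := by unfold RM.lo; rw [s3]; omega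
    have hi3 : M.hi e3 = M.X e3 := by unfold RM.hi; rw [s3]; omega
    have bo2 : M.bo e2 = min (M.Y e1) (M.Y e2) := by unfold RM.bo; rw [t2]
    have tp2 : M.tp e2 = max (M.Y e1) (M.Y e2) := by unfold RM.tp; rw [t2]
    have n1 : M.Y e1 ≠ M.Y e3 := fun h => by
      have := hM.Y_inj h
      rw [this] at hx1
      omega
    have n2 : M.Y e2 ≠ M.Y e3 := fun h => by
      have := hM.Y_inj h
      rw [this] at hx2
      omega
    by_cases hy : M.Y e1 < M.Y e3 ∧ M.Y e2 < M.Y e3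
    · exact hex_base hh hM hi s1 s2 s3 hm hx1 hx2 hy.1 hy.2
    · have hy' : M.Y e3 < M.Y e1 ∧ M.Y e3 < M.Y e2 := by
        rw [lo3, hi3, bo2, tp2] at hnc
        push Not at hnc
        have := hnc hx1 hx2
        constructor <;> omega
      -- reflection at a horizontal line
      have hg := good_rot (good_mir hM)
      have hh' : (mir M).rot.Holes := gRHO ι E (mir M) (good_mir hM) (holes_mir hh)
      have h := hex_base hh' hg (i := i) hi (e1 := e1) (e2 := e2) (e3 := e3) s1 s2 s3 hm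
        (by rw [rot_X, rot_X, mir_X, mir_X]; omega) (by rw [rot_X, rot_X, mir_X, mir_X]; omega)
        (by rw [rot_Y, rot_Y, mir_Y, mir_Y]; omega) (by rw [rot_Y, rot_Y, mir_Y, mir_Y]; omega)
      rcases h with h | h
      · right
        intro v hv
        exact (refA_rot (good_mir hM)).1 (h v hv)
      · left
        intro v hv
        exact refB_mir.1 ((refB_rot (good_mir hM)).1 (h v hv))
  -- the order of the abscissas
  have ord : ∀ {e1 e2 e3 : E}, M.s e1 = e2 → M.s e2 = e3 → M.s e3 = e1 →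
      (∀ x, M.comp x = i ↔ (x = e1 ∨ x = e2 ∨ x = e3)) →
      ((M.X e1 < M.X e2 ∧ M.X e2 < M.X e3) ∨ (M.X e3 < M.X e2 ∧ M.X e2 < M.X e1)) →
      (∀ v, M.comp v = i → RefA M v) ∨ (∀ v, M.comp v = i → RefB M v) := by
    intro e1 e2 e3 s1 s2 s3 hm hx
    rcases hx with hx | hx
    · exact up hM hh hi s1 s2 s3 hm hx.1 hx.2
    · have h := up (good_mir hM) (holes_mir hh) (M := mir M) hi (e1 := e1) (e2 := e2) (e3 := e3)
        s1 s2 s3 hm (by rw [mir_X, mir_X]; omega) (by rw [mir_X, mir_X]; omega)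
      rcases h with h | h
      · exact Or.inr h
      · exact Or.inl fun v hv => refB_mir.1 (h v hv)
  -- the three edges
  obtain ⟨e, he⟩ := hh.surj i
  have hc1 : M.comp (M.s e) = i := (hM.comp_s e).trans he
  have hc2 : M.comp (M.s (M.s e)) = i := (hM.comp_s _).trans hc1
  have hc3 : M.comp (M.s (M.s (M.s e))) = i := (hM.comp_s _).trans hc2
  have hse : M.s e ≠ e := hM.s_ne e
  have hmem : ∀ x, M.comp x = i ↔ x ∈ (univ.filter fun e => M.comp e = i) := by intro x; simp
  have hsse : M.s (M.s e) ≠ e := by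
    intro h
    have hpow : ∀ n : ℕ, (M.s ^ n) e = e ∨ (M.s ^ n) e = M.s e := by
      intro n
      induction n with
      | zero => exact Or.inl rfl
      | succ n ih =>
        rw [pow_succ', Equiv.Perm.mul_apply]
        rcases ih with ih | ih
        · rw [ih]; exact Or.inr rfl
        · rw [ih, h]; exact Or.inl rfl
    have hsub : (univ.filter fun e => M.comp e = i) ⊆ {e, M.s e} := by
      intro x hx
      rw [← hmem] at hx
      obtain ⟨n, hn⟩ := hM.comp_conn e x (he.trans hx.symm)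
      rw [mem_insert, mem_singleton, ← hn]
      exact hpow n
    have h4 := card_le_card hsub
    have h5 : ({e, M.s e} : Finset E).card ≤ 2 := card_le_two
    omega
  have hset : (univ.filter fun e => M.comp e = i) = {e, M.s e, M.s (M.s e)} := by
    symm
    apply eq_of_subset_of_card_le
    · intro x hx
      simp only [mem_insert, mem_singleton] at hx
      rw [← hmem]
      rcases hx with rfl | rfl | rfl
      · exact he
      · exact hc1
      · exact hc2
    · rw [h3, card_insert_of_notMem, card_insert_of_notMem, card_singleton]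
      · rw [mem_singleton]
        exact fun h => hM.s_ne _ h.symm
      · simp only [mem_insert, mem_singleton, not_or]
        exact ⟨fun h => hse h.symm, fun h => hsse h.symm⟩
  have hm : ∀ x, M.comp x = i ↔ (x = e ∨ x = M.s e ∨ x = M.s (M.s e)) := by
    intro x
    rw [hmem, hset]
    simp
  have hsss : M.s (M.s (M.s e)) = e := by
    rcases (hm _).1 hc3 with h | h | h
    · exact h
    · exact absurd (M.s.injective h) hsse
    · exact absurd (M.s.injective h) (hM.s_ne _)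
  have x1 : M.X e ≠ M.X (M.s e) := fun h => hse (hM.X_inj h).symm
  have x2 : M.X (M.s e) ≠ M.X (M.s (M.s e)) := fun h => hM.s_ne _ (hM.X_inj h).symm
  have x3 : M.X (M.s (M.s e)) ≠ M.X e := fun h => hsse (hM.X_inj h)
  by_cases c1 : (M.X e < M.X (M.s e) ∧ M.X (M.s e) < M.X (M.s (M.s e))) ∨
      (M.X (M.s (M.s e)) < M.X (M.s e) ∧ M.X (M.s e) < M.X e)
  · exact ord rfl rfl hsss hm c1
  · by_cases c2 : (M.X (M.s e) < M.X (M.s (M.s e)) ∧ M.X (M.s (M.s e)) < M.X e) ∨
        (M.X e < M.X (M.s (M.s e)) ∧ M.X (M.s (M.s e)) < M.X (M.s e))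
    · exact ord (e1 := M.s e) (e2 := M.s (M.s e)) (e3 := e) rfl hsss rfl
        (fun x => (hm x).trans (by tauto)) c2
    · exact ord (e1 := M.s (M.s e)) (e2 := e) (e3 := M.s e) hsss rfl rfl
        (fun x => (hm x).trans (by tauto)) (by omega)

/-- the number of the sides -/
lemma len_of_reflex [DecidableEq ι] {M : RM ι E} (hM : M.Good) {i : ι}
    (h : ∀ v, M.comp v = i → RefB M v) :
    (univ.filter fun e => M.comp e = i).card ≤ (univ.filter fun d : Cell M => M.comp d.ub = i).card ∧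
    (univ.filter fun e => M.comp e = i).card ≤
      (univ.filter fun d : Cell M => M.comp d.lb = i).card := by
  classical
  have key : ∀ g : Cell M → E, (∀ v, M.comp v = i → ∃ d, g d = v) →
      (univ.filter fun e => M.comp e = i).card ≤
        (univ.filter fun d : Cell M => M.comp (g d) = i).card := by
    intro g hg
    refine le_trans (card_le_card ?_) (card_image_le (f := g))
    intro v hv
    rw [mem_filter] at hv
    obtain ⟨d, hd⟩ := hg v hv.2
    rw [mem_image]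
    exact ⟨d, mem_filter.2 ⟨mem_univ _, by rw [hd]; exact hv.2⟩, hd⟩
  exact ⟨key (fun d => d.ub) fun v hv => (RefB.two hM (h v hv)).1,
    key (fun d => d.lb) fun v hv => (RefB.two hM (h v hv)).2⟩

/-- HEX: a hole with six vertices has at least six sides in the A-graph or in the B-graph -/
theorem hex_len [DecidableEq ι] {M : RM ι E} (hM : M.Good) (hh : M.Holes) {i : ι}
    (hi : i ≠ M.o) (h3 : (univ.filter fun e => M.comp e = i).card = 3) :
    (3 ≤ (univ.filter fun d : Cell M => M.comp d.ub = i).card ∧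
      3 ≤ (univ.filter fun d : Cell M => M.comp d.lb = i).card) ∨
    (3 ≤ (univ.filter fun d : Cell (mir M) => (mir M).comp d.ub = i).card ∧
      3 ≤ (univ.filter fun d : Cell (mir M) => (mir M).comp d.lb = i).card) := by
  rcases hex_reflex hM hh hi h3 with h | h
  · right
    have := len_of_reflex (good_mir hM) (i := i) fun v hv => refB_mir.2 (h v hv)
    rw [show (univ.filter fun e => (mir M).comp e = i) = univ.filter fun e => M.comp e = i from
      rfl, h3] at this
    exact this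
  · left
    have := len_of_reflex hM h
    rw [h3] at this
    exact this

/-- a cell with the same hole `i` with at most three horizontal edges on both sides is the only cell
at one of its ends, and this end is a vertex owned by `i` -/
theorem hex_pendant [Fintype ι] [DecidableEq ι] {M : RM ι E} (hM : M.Good) (hh : M.Holes) {i : ι}
    (hi : i ≠ M.o) (h3 : (univ.filter fun e => M.comp e = i).card ≤ 3) (d₀ : Cell M)
    (h1 : M.comp d₀.ub = i) (h2 : M.comp d₀.lb = i) :
    ∃ v, (d₀.ua = v ∨ d₀.la = v) ∧ M.comp v = i ∧ ∀ d : Cell M, d.ua = v ∨ d.la = v → d = d₀ := by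
  classical
  have hne : Nonempty E := ⟨d₀.ua⟩
  obtain ⟨f, hf⟩ := (cell_exact hM hh).2.2 (fun d => if d = d₀ then 1 else 0) (by
    intro j
    rw [sum_eq_single d₀]
    · rw [if_pos rfl, one_mul, h1, h2]
      exact CharTwo.add_self_eq_zero _
    · intro d _ hd
      rw [if_neg hd, zero_mul]
    · intro h; exact absurd (mem_univ _) h)
  have hf0 : f d₀.ua ≠ f d₀.la := by
    intro h
    have := hf d₀
    rw [if_pos rfl, h] at this
    exact absurd (this.trans (CharTwo.add_self_eq_zero _)) (by decide)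
  have hf1 : ∀ d, d ≠ d₀ → f d.ua = f d.la := by
    intro d hd
    have := hf d
    rw [if_neg hd] at this
    exact CharTwo.add_eq_zero.1 this.symm
  -- the other components are on one side
  have hcn : ∀ j, j ≠ i → ∀ v w, (M.comp v = j ∨ ∃ d : Cell M, (d.ua = v ∨ d.la = v) ∧
      (M.comp d.ub = j ∨ M.comp d.lb = j)) → M.comp w = j → f v = f w := by
    intro j hj v w hv hw
    refine comp_cn hM f (fun d hd => hf1 d ?_) hw v hv
    rintro rfl
    rcases hd with hd | hd
    · exact hj (hd.symm.trans h1)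
    · exact hj (hd.symm.trans h2)
  set K : ZMod 2 → Finset E := fun c => univ.filter fun e => M.comp e = i ∧ f e = c with hK
  set X : ZMod 2 → Finset ι := fun c => univ.filter fun j => j ≠ i ∧ ∀ e, M.comp e = j → f e = c
    with hX
  have hXmem : ∀ c j, j ∈ X c ↔ (j ≠ i ∧ ∀ e, M.comp e = j → f e = c) := by
    intro c j; simp [hX]
  have hKmem : ∀ c e, e ∈ K c ↔ (M.comp e = i ∧ f e = c) := by intro c e; simp [hK]
  have hKX : ∀ c, (X c).Nonempty → 2 ≤ (K c).card := by
    intro c hc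
    obtain ⟨a, a', g1, g2, g3, g4, g5⟩ := gINC ι E M hM hh (X c) hc (by
      intro h
      have : i ∈ X c := by rw [h]; exact mem_univ _
      exact ((hXmem c i).1 this).1 rfl)
    have key : ∀ b, M.comp b ∉ X c → Adj M b (X c) → b ∈ K c := by
      intro b hb hadj
      obtain ⟨d, hd, hd'⟩ := adj_cell hM hadj
      have : ∃ j ∈ X c, M.comp d.ub = j ∨ M.comp d.lb = j := by
        rcases hd' with h | h
        · exact ⟨_, h, Or.inl rfl⟩
        · exact ⟨_, h, Or.inr rfl⟩
      obtain ⟨j, hj, hdj⟩ := this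
      obtain ⟨hji, hjc⟩ := (hXmem c j).1 hj
      obtain ⟨w, hw⟩ := hh.surj j
      have hfb : f b = c := by
        rw [hcn j hji b w (Or.inr ⟨d, hd, hdj⟩) hw]
        exact hjc w hw
      rw [hKmem]
      refine ⟨?_, hfb⟩
      by_contra hbi
      apply hb
      rw [hXmem]
      exact ⟨hbi, fun e he => by rw [hcn _ hbi e b (Or.inl he) rfl, hfb]⟩
    have hsub : ({a, a'} : Finset E) ⊆ K c := by
      intro b hb
      simp only [mem_insert, mem_singleton] at hb
      rcases hb with rfl | rfl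
      · exact key _ g2 g4
      · exact key _ g3 g5
    have := card_le_card hsub
    rwa [card_pair g1] at this
  have hKsum : (K 0).card + (K 1).card ≤ 3 := by
    refine le_trans ?_ h3
    rw [← card_union_of_disjoint]
    · refine card_le_card fun e he => ?_
      rcases mem_union.1 he with he | he
      · exact mem_filter.2 ⟨mem_univ _, ((hKmem _ _).1 he).1⟩
      · exact mem_filter.2 ⟨mem_univ _, ((hKmem _ _).1 he).1⟩
    · rw [disjoint_left]
      intro e he he'
      have := ((hKmem _ _).1 he).2.symm.trans ((hKmem _ _).1 he').2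
      exact absurd this (by decide)
  -- the component `o` is on one side
  obtain ⟨w, hw⟩ := hh.surj M.o
  have ho : M.o ∈ X (f w) :=
    (hXmem _ _).2 ⟨hi.symm, fun e he => hcn M.o hi.symm e w (Or.inl he) hw⟩
  have h01 : ∀ c : ZMod 2, c = 0 ∨ c = 1 := by decide
  have hcd : ∀ c : ZMod 2, (K c).card + (K (c + 1)).card ≤ 3 := by
    intro c
    rcases h01 c with rfl | rfl
    · exact hKsum
    · have : (1 : ZMod 2) + 1 = 0 := by decide
      rw [this]
      omega
  set c : ZMod 2 := f w + 1 with hc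
  have hcc : c + 1 = f w := by
    rw [hc]
    have : ∀ x : ZMod 2, x + 1 + 1 = x := by decide
    exact this _
  have hK1 : 2 ≤ (K (f w)).card := hKX _ ⟨_, ho⟩
  have hXc : X c = ∅ := by
    by_contra h
    have h4 := hKX c (nonempty_iff_ne_empty.2 h)
    have h5 := hcd c
    rw [hcc] at h5
    omega
  have hKc : (K c).card ≤ 1 := by
    have h5 := hcd c
    rw [hcc] at h5
    omega
  -- all vertices of the side `c` are owned by `i`
  have hall : ∀ v, f v = c → v ∈ K c := by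
    intro v hv
    rw [hKmem]
    refine ⟨?_, hv⟩
    by_contra hvi
    have : M.comp v ∈ X c := (hXmem _ _).2 ⟨hvi, fun e he => by
      rw [hcn _ hvi e v (Or.inl he) rfl, hv]⟩
    rw [hXc] at this
    exact absurd this (notMem_empty _)
  have hv : ∃ v, (d₀.ua = v ∨ d₀.la = v) ∧ f v = c := by
    have key : ∀ x y z : ZMod 2, x ≠ y → x = z ∨ y = z := by decide
    rcases key _ _ c hf0 with h | h
    · exact ⟨_, Or.inl rfl, h⟩
    · exact ⟨_, Or.inr rfl, h⟩
  obtain ⟨v, hv, hvc⟩ := hv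
  refine ⟨v, hv, ((hKmem _ _).1 (hall v hvc)).1, fun d hd => ?_⟩
  by_contra hdd
  have h5 := hf1 d hdd
  have h6 : f d.ua = c ∧ f d.la = c := by
    rcases hd with hd | hd
    · rw [hd] at h5 ⊢
      exact ⟨hvc, by rw [← h5, hvc]⟩
    · rw [hd] at h5 ⊢
      exact ⟨by rw [h5, hvc], hvc⟩
  have h7 := card_le_one.1 hKc _ (hall _ h6.1) _ (hall _ h6.2)
  -- no loops
  have h8 := cell_four hM hh (fun e => if e = d then 1 else 0) (fun u => by
    rw [sum_eq_single d]
    · rw [if_pos rfl, one_mul, h7]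
      exact CharTwo.add_self_eq_zero _
    · intro e _ he
      rw [if_neg he, zero_mul]
    · intro h; exact absurd (mem_univ _) h) ⟨d, by simp⟩
  have h9 : (univ.filter fun u => ∃ e : Cell M, (if e = d then (1 : ZMod 2) else 0) ≠ 0 ∧
      (e.ua = u ∨ e.la = u)) ⊆ {d.ua} := by
    intro u hu
    rw [mem_filter] at hu
    obtain ⟨-, e, he, he'⟩ := hu
    have hed : e = d := by
      by_contra h
      exact he (if_neg h)
    subst hed
    rw [mem_singleton]
    rcases he' with h' | h'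
    · exact h'.symm
    · rw [← h', h7]
  have h10 := card_le_card h9
  rw [card_singleton] at h10
  omega

end PG

end Pool.Agent.Lib.MP06c549
end
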